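import Mathlib

/-! MP_747bc0_co, block B (structure of nearly closed systems of states). Definitions.

Everything is about labelled tuples `a : Fin k → V`, `V` a finite type. A system of states is
`D : Fin k → (Fin k → V) → Prop`, where `D i a` does not depend on the coordinate `a i`
(`Indep D`): `D i` is a set of `(k-1)`-tuples whose missing label is `i`. `E` is the set of
labelled edges (symmetric), `Deg E`: every line contains at least one half edges. -/

namespace Pool.Agent.KK.B

open Function
open scoped Classical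

/-- the density of a predicate on a finite type -/
noncomputable def dens {α : Type*} [Fintype α] (P : α → Prop) : ℝ :=
  ((Finset.univ.filter P).card : ℝ) / (Fintype.card α : ℝ)

variable {k : ℕ} {V : Type} [Fintype V]

/-- `D i` does not depend on the coordinate `i` -/
def Indep (D : Fin k → (Fin k → V) → Prop) : Prop :=
  ∀ (i : Fin k) (a : Fin k → V) (v : V), D i (update a i v) ↔ D i a

/-- `E` is symmetric under permutations of the labels -/
def Symm (E : (Fin k → V) → Prop) : Prop :=
  ∀ (σ : Equiv.Perm (Fin k)) (a : Fin k → V), E (a ∘ σ) ↔ E a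

/-- every line contains at least one half edges -/
def Deg (E : (Fin k → V) → Prop) : Prop :=
  ∀ (a : Fin k → V) (i : Fin k), (1 / 2 : ℝ) ≤ dens (fun v => E (update a i v))

/-- the `k` states of the tuple `e` have the same `D`-value -/
def Mono (D : Fin k → (Fin k → V) → Prop) (e : Fin k → V) : Prop := ∀ i j : Fin k, D i e ↔ D j e

/-- `D` is `ε`-closed: at most `ε n^k` labelled edges are not monochromatic -/
def Closed (E : (Fin k → V) → Prop) (ε : ℝ) (D : Fin k → (Fin k → V) → Prop) : Prop :=
  dens (fun e => E e ∧ ¬ Mono D e) ≤ ε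

/-- the symmetric difference of `A` and `B` has density at most `κ` -/
def near (κ : ℝ) (A B : V → Prop) : Prop := dens (fun v => ¬ (A v ↔ B v)) ≤ κ

/-- `A` is `κ`-near to `B` or to the complement of `B` -/
def pm (κ : ℝ) (A B : V → Prop) : Prop := near κ A B ∨ near κ A (fun v => ¬ B v)

/-- the neighbourhood of the state `(i, a)` -/
def nb (E : (Fin k → V) → Prop) (a : Fin k → V) (i : Fin k) : V → Prop := fun q => E (update a i q)

/-- the state `(i, a)` is good (with respect to the direction `l`) -/
def stG (E : (Fin k → V) → Prop) (D : Fin k → (Fin k → V) → Prop) (β : ℝ) (a : Fin k → V)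
    (i l : Fin k) : Prop :=
  dens (fun q => E (update a i q) ∧ ¬ (D i a ↔ D l (update a i q))) ≤ β

/-- the plane through `a` with directions `i, l` is good -/
def plG (E : (Fin k → V) → Prop) (D : Fin k → (Fin k → V) → Prop) (β : ℝ) (a : Fin k → V)
    (i l : Fin k) : Prop :=
  dens (fun x : V × V => E (update (update a l x.1) i x.2) ∧
    ¬ (D i (update a l x.1) ↔ D l (update a i x.2))) ≤ β ^ 2

/-- the point `a` is typical on its line of direction `m`, for `D i` -/
def lnG (D : Fin k → (Fin k → V) → Prop) (β : ℝ) (a : Fin k → V) (i m : Fin k) : Prop :=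
  (dens (fun z => ¬ D i (update a m z)) ≤ β → D i a) ∧
    (dens (fun z => D i (update a m z)) ≤ β → ¬ D i a)

/-- the good points -/
def G0 (E : (Fin k → V) → Prop) (D : Fin k → (Fin k → V) → Prop) (β : ℝ) (a : Fin k → V) : Prop :=
  ∀ (σ : Equiv.Perm (Fin k)) (i l : Fin k), i ≠ l →
    stG E D β (a ∘ σ) i l ∧ plG E D β (a ∘ σ) i l ∧ lnG D β (a ∘ σ) i l

/-- the plane through `a` with directions `i, l` is split by `D` -/
def Sp (D : Fin k → (Fin k → V) → Prop) (a : Fin k → V) (i l : Fin k) : Prop :=
  (1 / 4 : ℝ) ≤ dens (fun p => D i (update a l p)) ∧ dens (fun p => D i (update a l p)) ≤ 3 / 4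

/-- some labelling of the plane through `a` with free labels `i0, i1` is split -/
def SS (D : Fin k → (Fin k → V) → Prop) (i0 i1 : Fin k) (a : Fin k → V) : Prop :=
  ∃ σ : Equiv.Perm (Fin k), Sp D (a ∘ σ) (σ.symm i0) (σ.symm i1)

/-- iterated typicality: `lev δ G (s+1) a` says `lev δ G s a` and for every label `m` at most a
`δ`-fraction of the points of the line of direction `m` through `a` is not in `lev δ G s` -/
def lev (δ : ℝ) (G : (Fin k → V) → Prop) : ℕ → (Fin k → V) → Prop
  | 0 => G
  | s + 1 => fun a => lev δ G s a ∧ ∀ m : Fin k, dens (fun z => ¬ lev δ G s (update a m z)) ≤ δ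

/-- every line through `a` is, for every `D i`, nearly constant or nearly `± X` -/
def LineDet (κ : ℝ) (X : V → Prop) (D : Fin k → (Fin k → V) → Prop) (a : Fin k → V) : Prop :=
  ∀ i l : Fin k, i ≠ l → dens (fun z => D i (update a l z)) ≤ κ ∨
    dens (fun z => ¬ D i (update a l z)) ≤ κ ∨ pm κ (fun z => D i (update a l z)) X

/-- the word of `a` with respect to `X` is `W` -/
def wd (X : V → Prop) (W : Fin k → Bool) (a : Fin k → V) : Prop := ∀ l, (X (a l) ↔ W l = true)

/-- the type of `a`: the number of coordinates in `X` -/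
noncomputable def typ (X : V → Prop) (a : Fin k → V) : ℕ :=
  (Finset.univ.filter (fun l : Fin k => X (a l))).card

/-- the type of a word -/
def wt (W : Fin k → Bool) : ℕ := (Finset.univ.filter (fun l : Fin k => W l = true)).card

/-- `D` is determined by words up to `ν` -/
def WDet (ν : ℝ) (X : V → Prop) (D : Fin k → (Fin k → V) → Prop) : Prop :=
  ∀ (i : Fin k) (W : Fin k → Bool), dens (fun a => D i a ∧ wd X W a) ≤ ν ∨
    dens (fun a => ¬ D i a ∧ wd X W a) ≤ ν

/-- `D` is trivial up to `ν` -/
def Triv (ν : ℝ) (D : Fin k → (Fin k → V) → Prop) : Prop :=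
  (∀ i, dens (D i) ≤ ν) ∨ (∀ i, dens (fun a => ¬ D i a) ≤ ν)

/-- the density of the labelled edges of type `j` -/
noncomputable def tden (E : (Fin k → V) → Prop) (X : V → Prop) (j : ℕ) : ℝ :=
  dens (fun e => E e ∧ typ X e = j)

/-- the majority value of `D i` on the word `W` -/
def maj (D : Fin k → (Fin k → V) → Prop) (X : V → Prop) (i : Fin k) (W : Fin k → Bool) : Prop :=
  dens (fun a => ¬ D i a ∧ wd X W a) ≤ dens (fun a => D i a ∧ wd X W a)

end Pool.Agent.KK.B
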