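import Mathlib
import Pool.Agent.KK.BDefs

/-! MP_747bc0_co, block B: basic facts about `dens` (all proved). -/

namespace Pool.Agent.KK.B

open Function
open scoped Classical

section general

variable {α β γ : Type*} [Fintype α] [Fintype β] [Fintype γ]

theorem dens_eq (P : α → Prop) [DecidablePred P] :
    dens P = ((Finset.univ.filter P).card : ℝ) / (Fintype.card α : ℝ) := by
  unfold dens
  congr 2
  refine congrArg Finset.card ?_
  ext a
  simp only [Finset.mem_filter]

theorem dens_nonneg (P : α → Prop) : 0 ≤ dens P := by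
  unfold dens; positivity

theorem dens_le_one (P : α → Prop) : dens P ≤ 1 := by
  unfold dens
  apply div_le_one_of_le₀ _ (by positivity)
  exact_mod_cast Finset.card_le_univ _

theorem dens_mono {P Q : α → Prop} (h : ∀ a, P a → Q a) : dens P ≤ dens Q := by
  unfold dens
  apply div_le_div_of_nonneg_right _ (by positivity)
  have h1 : Finset.univ.filter P ⊆ Finset.univ.filter Q := by
    intro a ha
    rw [Finset.mem_filter] at ha ⊢
    exact ⟨ha.1, h a ha.2⟩
  exact_mod_cast Finset.card_le_card h1

theorem dens_congr {P Q : α → Prop} (h : ∀ a, P a ↔ Q a) : dens P = dens Q :=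
  le_antisymm (dens_mono fun a => (h a).1) (dens_mono fun a => (h a).2)

theorem dens_or_le (P Q : α → Prop) : dens (fun a => P a ∨ Q a) ≤ dens P + dens Q := by
  rw [dens_eq P, dens_eq Q, dens_eq (fun a => P a ∨ Q a)]
  rw [← add_div]
  apply div_le_div_of_nonneg_right _ (by positivity)
  have h1 : Finset.univ.filter (fun a => P a ∨ Q a) ⊆ Finset.univ.filter P ∪ Finset.univ.filter Q := by
    intro a ha
    rw [Finset.mem_union, Finset.mem_filter, Finset.mem_filter]
    rw [Finset.mem_filter] at ha
    rcases ha.2 with h | h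
    · exact Or.inl ⟨ha.1, h⟩
    · exact Or.inr ⟨ha.1, h⟩
  exact_mod_cast (Finset.card_le_card h1).trans (Finset.card_union_le _ _)

/-- finite union bound -/
theorem dens_exists_le {ι : Type*} [Fintype ι] (P : ι → α → Prop) :
    dens (fun a => ∃ i, P i a) ≤ ∑ i, dens (P i) := by
  rw [dens_eq (fun a => ∃ i, P i a)]
  unfold dens
  rw [← Finset.sum_div]
  apply div_le_div_of_nonneg_right _ (by positivity)
  have h : Finset.univ.filter (fun a => ∃ i, P i a) ⊆
      Finset.univ.biUnion (fun i => Finset.univ.filter (P i)) := by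
    intro a ha
    rw [Finset.mem_filter] at ha
    obtain ⟨i, hi⟩ := ha.2
    exact Finset.mem_biUnion.2 ⟨i, Finset.mem_univ _, Finset.mem_filter.2 ⟨ha.1, hi⟩⟩
  exact_mod_cast (Finset.card_le_card h).trans Finset.card_biUnion_le

theorem dens_split (P Q : α → Prop) : dens P = dens (fun a => P a ∧ Q a) + dens (fun a => P a ∧ ¬ Q a) := by
  rw [dens_eq P, dens_eq (fun a => P a ∧ Q a), dens_eq (fun a => P a ∧ ¬ Q a)]
  rw [← add_div]
  congr 1
  have h1 : Finset.univ.filter (fun a => P a ∧ Q a) = (Finset.univ.filter P).filter Q := by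
    ext a; simp
  have h2 : Finset.univ.filter (fun a => P a ∧ ¬ Q a) = (Finset.univ.filter P).filter (fun a => ¬ Q a) := by
    ext a; simp
  rw [h1, h2]
  exact_mod_cast (Finset.card_filter_add_card_filter_not (s := Finset.univ.filter P) Q).symm

theorem dens_true [Nonempty α] : dens (fun _ : α => True) = 1 := by
  unfold dens
  rw [Finset.filter_true]
  have : (Fintype.card α : ℝ) ≠ 0 := by exact_mod_cast Fintype.card_ne_zero
  rw [Finset.card_univ]
  exact div_self this

theorem dens_not [Nonempty α] (P : α → Prop) : dens (fun a => ¬ P a) = 1 - dens P := by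
  have h := dens_split (fun _ : α => True) P
  rw [dens_true] at h
  have h1 : dens (fun a : α => True ∧ P a) = dens P := dens_congr (by simp)
  have h2 : dens (fun a : α => True ∧ ¬ P a) = dens (fun a => ¬ P a) := dens_congr (by simp)
  rw [h1, h2] at h
  linarith

theorem exists_of_dens_pos {P : α → Prop} (h : 0 < dens P) : ∃ a, P a := by
  by_contra hc
  push Not at hc
  have : dens P = 0 := by
    unfold dens
    rw [Finset.filter_false_of_mem (fun a _ => hc a)]
    simp
  linarith

theorem dens_false : dens (fun _ : α => False) = 0 := by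
  unfold dens; simp

theorem dens_equiv (e : α ≃ β) (P : β → Prop) : dens (fun a => P (e a)) = dens P := by
  unfold dens
  rw [Fintype.card_congr e]
  congr 2
  exact Finset.card_bij (fun a _ => e a) (by simp) (by simp) (by
    intro b hb
    exact ⟨e.symm b, by simpa using hb, by simp⟩)

/-- Fubini: the density on the product is the average of the densities of the fibres -/
theorem dens_prod (Q : α → β → Prop) :
    dens (fun x : α × β => Q x.1 x.2) = (∑ a, dens (Q a)) / (Fintype.card α : ℝ) := by
  unfold dens
  rw [← Finset.sum_div, div_div, Fintype.card_prod]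
  push_cast
  rw [mul_comm (Fintype.card β : ℝ)]
  congr 1
  have h : (Finset.univ.filter (fun x : α × β => Q x.1 x.2)).card =
      ∑ a, (Finset.univ.filter (Q a)).card := by
    rw [Finset.card_eq_sum_card_fiberwise (f := Prod.fst) (t := Finset.univ) (by simp)]
    refine Finset.sum_congr rfl fun a _ => ?_
    refine Finset.card_bij' (fun x _ => x.2) (fun b _ => (a, b)) ?_ ?_ ?_ ?_
    · intro x hx
      simp only [Finset.mem_filter, Finset.mem_univ, true_and] at hx ⊢
      rw [← hx.2]; exact hx.1
    · intro b hb
      simpa using hb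
    · intro x hx
      simp only [Finset.mem_filter, Finset.mem_univ, true_and] at hx
      rw [← hx.2]
    · intro b hb
      rfl
  rw [h]
  push_cast
  rfl

theorem dens_prod_le {Q : α → β → Prop} {c : ℝ} (hc : 0 ≤ c) (h : ∀ a, dens (Q a) ≤ c) :
    dens (fun x : α × β => Q x.1 x.2) ≤ c := by
  rw [dens_prod]
  rcases isEmpty_or_nonempty α with h0 | h0
  · simp [hc]
  · have h1 : (0 : ℝ) < Fintype.card α := by exact_mod_cast Fintype.card_pos
    rw [div_le_iff₀ h1]
    calc ∑ a, dens (Q a) ≤ ∑ _a : α, c := Finset.sum_le_sum fun a _ => h a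
      _ = c * Fintype.card α := by rw [Finset.sum_const, nsmul_eq_mul, Finset.card_univ]; ring

/-- Markov -/
theorem markov (Q : α → β → Prop) (δ : ℝ) :
    dens (fun a => δ < dens (Q a)) * δ ≤ dens (fun x : α × β => Q x.1 x.2) := by
  rw [dens_prod]
  unfold dens
  rw [div_mul_eq_mul_div]
  apply div_le_div_of_nonneg_right _ (by positivity)
  calc ((Finset.univ.filter fun a => δ < ((Finset.univ.filter (Q a)).card : ℝ) / Fintype.card β).card : ℝ) * δ
      = ∑ _a ∈ Finset.univ.filter (fun a => δ < ((Finset.univ.filter (Q a)).card : ℝ) / Fintype.card β), δ := by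
        rw [Finset.sum_const, nsmul_eq_mul]
    _ ≤ ∑ a ∈ Finset.univ.filter (fun a => δ < ((Finset.univ.filter (Q a)).card : ℝ) / Fintype.card β),
          ((Finset.univ.filter (Q a)).card : ℝ) / Fintype.card β := by
        refine Finset.sum_le_sum fun a ha => ?_
        rw [Finset.mem_filter] at ha
        exact ha.2.le
    _ ≤ ∑ a, ((Finset.univ.filter (Q a)).card : ℝ) / Fintype.card β := by
        refine Finset.sum_le_sum_of_subset_of_nonneg (Finset.filter_subset _ _) fun a _ _ => by positivity

theorem dens_fst (P : α → Prop) [Nonempty β] : dens (fun x : α × β => P x.1) = dens P := by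
  rw [dens_prod (fun a _ => P a)]
  unfold dens
  congr 1
  have h1 : (Fintype.card β : ℝ) ≠ 0 := by exact_mod_cast Fintype.card_ne_zero
  have h2 : ∀ a : α, ((Finset.univ.filter (fun _ : β => P a)).card : ℝ) / Fintype.card β =
      if P a then 1 else 0 := by
    intro a
    by_cases h : P a
    · simp [h, h1]
    · simp [h]
  rw [Finset.sum_congr rfl fun a _ => h2 a]
  simp

end general

section tuples

variable {k : ℕ} {V : Type} [Fintype V]

/-- relabelling does not change densities -/
theorem dens_perm (σ : Equiv.Perm (Fin k)) (P : (Fin k → V) → Prop) :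
    dens (fun a => P (a ∘ σ)) = dens P := by
  have h := dens_equiv (Equiv.arrowCongr σ.symm (Equiv.refl V)) P
  rw [← h]
  rfl

/-- the point of a random line is a random point -/
theorem dens_update (m : Fin k) (P : (Fin k → V) → Prop) :
    dens (fun x : (Fin k → V) × V => P (update x.1 m x.2)) = dens P := by
  rcases isEmpty_or_nonempty V with hV | hV
  · have h1 : IsEmpty ((Fin k → V) × V) := ⟨fun x => hV.elim x.2⟩
    have h2 : IsEmpty (Fin k → V) := ⟨fun x => hV.elim (x m)⟩
    unfold dens
    simp
  · -- the involution exchanging `a m` and `z`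
    let e : ((Fin k → V) × V) ≃ ((Fin k → V) × V) :=
      { toFun := fun x => (update x.1 m x.2, x.1 m)
        invFun := fun x => (update x.1 m x.2, x.1 m)
        left_inv := by intro x; simp
        right_inv := by intro x; simp }
    have h := dens_equiv e (fun x : (Fin k → V) × V => P x.1)
    have h2 : dens (fun x : (Fin k → V) × V => P x.1) = dens P := dens_fst P
    rw [h2] at h
    exact h

/-- the point of a random plane is a random point -/
theorem dens_update2 (i l : Fin k) (P : (Fin k → V) → Prop) :
    dens (fun x : (Fin k → V) × (V × V) => P (update (update x.1 l x.2.1) i x.2.2)) = dens P := by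
  have h1 := dens_update l P
  have h2 : dens (fun x : (Fin k → V) × (V × V) => P (update (update x.1 l x.2.1) i x.2.2)) =
      dens (fun y : ((Fin k → V) × V) × V => P (update (update y.1.1 l y.1.2) i y.2)) :=
    dens_equiv (Equiv.prodAssoc (Fin k → V) V V).symm
      (fun y : ((Fin k → V) × V) × V => P (update (update y.1.1 l y.1.2) i y.2))
  rw [h2, dens_prod (fun (y : (Fin k → V) × V) (q : V) => P (update (update y.1 l y.2) i q))]
  rcases isEmpty_or_nonempty V with hV | hV
  · have h4 : IsEmpty (Fin k → V) := ⟨fun x => hV.elim (x l)⟩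
    unfold dens
    simp
  · have h3 := dens_update i P
    rw [dens_prod (fun (a : Fin k → V) (q : V) => P (update a i q))] at h3
    rw [← h3]
    have hV0 : (Fintype.card V : ℝ) ≠ 0 := by exact_mod_cast Fintype.card_ne_zero
    have hV1 : (Fintype.card (Fin k → V) : ℝ) ≠ 0 := by exact_mod_cast Fintype.card_ne_zero
    rw [Fintype.card_prod]
    push_cast
    rw [div_eq_div_iff (mul_ne_zero hV1 hV0) hV1]
    have h5 : ∑ y : (Fin k → V) × V, dens (fun q => P (update (update y.1 l y.2) i q)) =
        ∑ y : (Fin k → V) × V, dens (fun q => P (update y.1 i q)) := by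
      let e : ((Fin k → V) × V) ≃ ((Fin k → V) × V) :=
        { toFun := fun x => (update x.1 l x.2, x.1 l)
          invFun := fun x => (update x.1 l x.2, x.1 l)
          left_inv := by intro x; simp
          right_inv := by intro x; simp }
      exact Equiv.sum_comp e (fun y : (Fin k → V) × V => dens (fun q => P (update y.1 i q)))
    rw [h5, Fintype.sum_prod_type]
    simp only [Finset.sum_const, Finset.card_univ, nsmul_eq_mul]
    rw [← Finset.mul_sum]
    ring

end tuples

section more

variable {k : ℕ} {V : Type} [Fintype V]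

/-- product density -/
theorem dens_pi (Q : Fin k → V → Prop) : dens (fun a : Fin k → V => ∀ m, Q m (a m)) = ∏ m, dens (Q m) := by
  unfold dens
  rw [Finset.prod_div_distrib, Fintype.card_fun, Fintype.card_fin, Finset.prod_const, Finset.card_univ,
    Fintype.card_fin]
  push_cast
  congr 1
  rw [← Nat.cast_prod, Nat.cast_inj, ← Fintype.card_piFinset]
  refine congrArg Finset.card ?_
  ext a
  simp

/-- every two distinct labels can be moved to `i0, i1` -/
theorem exists_perm {i l i0 i1 : Fin k} (h : i ≠ l) (h' : i0 ≠ i1) :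
    ∃ σ : Equiv.Perm (Fin k), σ i = i0 ∧ σ l = i1 := by
  refine ⟨(Equiv.swap i i0).trans (Equiv.swap (Equiv.swap i i0 l) i1), ?_, ?_⟩
  · rw [Equiv.trans_apply, Equiv.swap_apply_left]
    apply Equiv.swap_apply_of_ne_of_ne _ h'
    intro h1
    have h2 := (Equiv.swap i i0).injective (a₁ := l) (a₂ := i) (by rw [← h1, Equiv.swap_apply_left])
    exact h h2.symm
  · rw [Equiv.trans_apply, Equiv.swap_apply_left]

theorem update_comp_perm (a : Fin k → V) (σ : Equiv.Perm (Fin k)) (i : Fin k) (v : V) :
    update (a ∘ σ) i v = update a (σ i) v ∘ σ := by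
  funext x
  by_cases h : x = i
  · subst h; simp
  · rw [update_of_ne h, comp_apply, comp_apply, update_of_ne (fun h' => h (σ.injective h'))]

theorem nb_perm {E : (Fin k → V) → Prop} (hE : Symm E) (σ : Equiv.Perm (Fin k)) (a : Fin k → V)
    (i : Fin k) : nb E (a ∘ σ) i = nb E a (σ i) := by
  funext q
  simp only [nb]
  rw [update_comp_perm]
  exact propext (hE σ _)

theorem nb_update_self (E : (Fin k → V) → Prop) (a : Fin k → V) (i : Fin k) (v : V) :
    nb E (update a i v) i = nb E a i := by
  funext q
  simp [nb]

theorem G0_perm (E : (Fin k → V) → Prop) (D : Fin k → (Fin k → V) → Prop) (β : ℝ)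
    (σ : Equiv.Perm (Fin k)) (a : Fin k → V) : G0 E D β (a ∘ σ) ↔ G0 E D β a := by
  constructor
  · intro h τ i l hil
    have h1 := h (τ.trans σ.symm) i l hil
    have h2 : (a ∘ σ) ∘ (τ.trans σ.symm) = a ∘ τ := by
      funext x; simp
    rwa [h2] at h1
  · intro h τ i l hil
    exact h (τ.trans σ) i l hil

theorem G0_self {E : (Fin k → V) → Prop} {D : Fin k → (Fin k → V) → Prop} {β : ℝ}
    {a : Fin k → V} (h : G0 E D β a) {i l : Fin k} (hil : i ≠ l) :
    stG E D β a i l ∧ plG E D β a i l ∧ lnG D β a i l := h 1 i l hil

theorem lev_succ_le {δ : ℝ} {G : (Fin k → V) → Prop} {s : ℕ} {a : Fin k → V}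
    (h : lev δ G (s + 1) a) : lev δ G s a := h.1

theorem lev_le {δ : ℝ} {G : (Fin k → V) → Prop} {s t : ℕ} (hst : s ≤ t) {a : Fin k → V}
    (h : lev δ G t a) : lev δ G s a := by
  induction hst with
  | refl => exact h
  | step _ ih => exact ih (lev_succ_le h)

theorem lev_perm {δ : ℝ} {G : (Fin k → V) → Prop} (hG : ∀ (σ : Equiv.Perm (Fin k)) a, G (a ∘ σ) ↔ G a)
    (s : ℕ) (σ : Equiv.Perm (Fin k)) (a : Fin k → V) : lev δ G s (a ∘ σ) ↔ lev δ G s a := by
  induction s generalizing a with
  | zero => exact hG σ a
  | succ s ih =>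
    simp only [lev]
    rw [ih a]
    refine and_congr Iff.rfl ⟨fun h m => ?_, fun h m => ?_⟩
    · have h1 := h (σ.symm m)
      rw [dens_congr (Q := fun z => ¬ lev δ G s (update a m z)) (fun z => ?_)] at h1
      · exact h1
      · rw [update_comp_perm, ih, Equiv.apply_symm_apply]
    · rw [dens_congr (Q := fun z => ¬ lev δ G s (update a (σ m) z)) (fun z => ?_)]
      · exact h (σ m)
      · rw [update_comp_perm, ih]

end more

section pm

variable {V : Type} [Fintype V] {A B C : V → Prop} {κ κ' : ℝ}

theorem near_refl (h : 0 ≤ κ) : near κ A A := by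
  unfold near
  have : dens (fun v => ¬ (A v ↔ A v)) = dens (fun _ : V => False) := dens_congr (by simp)
  rw [this, dens_false]; exact h

theorem near_symm (h : near κ A B) : near κ B A := by
  unfold near at *
  refine (dens_mono fun v hv => ?_).trans h
  tauto

theorem near_trans (h : near κ A B) (h' : near κ' B C) : near (κ + κ') A C := by
  unfold near at *
  refine (dens_mono (Q := fun v => ¬ (A v ↔ B v) ∨ ¬ (B v ↔ C v)) fun v hv => ?_).trans
    ((dens_or_le _ _).trans (add_le_add h h'))
  tauto

theorem near_not (h : near κ A B) : near κ (fun v => ¬ A v) (fun v => ¬ B v) := by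
  unfold near at *
  refine (dens_mono fun v hv => ?_).trans h
  tauto

theorem near_not' (h : near κ A (fun v => ¬ B v)) : near κ (fun v => ¬ A v) B := by
  unfold near at *
  refine (dens_mono fun v hv => ?_).trans h
  tauto

theorem near_mono (hk : κ ≤ κ') (h : near κ A B) : near κ' A B := le_trans h hk

theorem pm_refl (h : 0 ≤ κ) : pm κ A A := Or.inl (near_refl h)

theorem pm_symm (h : pm κ A B) : pm κ B A := by
  rcases h with h | h
  · exact Or.inl (near_symm h)
  · exact Or.inr (near_symm (near_not' h))

theorem pm_trans (h : pm κ A B) (h' : pm κ' B C) : pm (κ + κ') A C := by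
  rcases h with h | h <;> rcases h' with h' | h'
  · exact Or.inl (near_trans h h')
  · exact Or.inr (near_trans h h')
  · exact Or.inr (near_trans h (near_not h'))
  · refine Or.inl (near_mono le_rfl (near_trans h (near_not' h')))

theorem pm_mono (hk : κ ≤ κ') (h : pm κ A B) : pm κ' A B :=
  h.imp (near_mono hk) (near_mono hk)

theorem dens_le_of_near (h : near κ A B) : dens A ≤ dens B + κ := by
  unfold near at h
  refine (dens_mono (Q := fun v => B v ∨ ¬ (A v ↔ B v)) fun v hv => ?_).trans
    ((dens_or_le _ _).trans (by linarith))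
  tauto

/-- if `A` has density within `κ'` of `1/2` and `pm κ B A` then `B` has density within `κ + κ'` -/
theorem abs_of_pm [Nonempty V] (h : pm κ B A) (h' : |dens A - 1 / 2| ≤ κ') :
    |dens B - 1 / 2| ≤ κ + κ' := by
  rw [abs_le] at h' ⊢
  rcases h with h | h
  · have h1 := dens_le_of_near h
    have h2 := dens_le_of_near (near_symm h)
    constructor <;> linarith
  · have h1 := dens_le_of_near h
    have h2 := dens_le_of_near (near_symm h)
    rw [dens_not] at h1 h2
    constructor <;> linarith

end pm

end Pool.Agent.KK.B
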