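import Mathlib
import Pool.Agent.KK.BBasic

/-! MP_747bc0_co, block B (structure of nearly closed systems of states). Statements with complete
proofs in the docstrings. Everything is self-contained: a finite set `V` (no `n₀`), a symmetric set
`E` of labelled edges with at least one half edges on every line (`Symm E`, `Deg E`), systems of
states `D` (`Indep D`). `BBasic.lean` has the basic facts (Fubini `dens_prod`, `dens_update`,
`dens_update2`, Markov, `dens_perm`, `pm_trans`, `nb_perm`, `G0_perm`, `lev_perm`, `exists_perm`). -/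

namespace Pool.Agent.KK.B

open Function
open scoped Classical

/-- PLT (plane trichotomy). PROOF. Put `G p q := E (update (update a l p) i q)`,
`A p := D i (update a l p)`, `B q := D l (update a i q)`. `Deg` at `update a l p` gives
`dens (G p) ≥ 1/2` for every `p`; as `i ≠ l`, `update (update a l p) i q = update (update a i q) l p`
(`update_comm`) and `Deg` at `update a i q` gives `dens_p (G p q) ≥ 1/2` for every `q`. `Symm` with
`Equiv.swap i l` gives `G p q ↔ G q p`. Let `bad p := dens_q (G p q ∧ ¬ (A p ↔ B q))`. By `plG` and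
`markov` (threshold `β`) `dens {p : β < bad p} ≤ β`.
(1) If `dens A > β` there is `p` with `A p`, `bad p ≤ β`, so `1/2 ≤ dens (G p) ≤ β + dens B`.
If `dens ¬A > β` then `1/2 ≤ β + dens ¬B`. The same with `A, B` exchanged (bad measured in `q`).
(2) If `dens A ≤ β` then `dens B ≤ β` (otherwise `dens A ≥ 1/2 - β > β`): first alternative. If
`dens ¬A ≤ β`: second alternative. Otherwise `dens A > β`, `dens ¬A > β`, so `|dens B - 1/2| ≤ β`
(`dens_not`), so also `dens B > β`, `dens ¬B > β`, so `|dens A - 1/2| ≤ β`, and `Sp` since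
`β ≤ 1/16`.
(3) In the last case: if `bad p ≤ β` and `A p` then `dens (G p ∧ ¬B) ≤ β`, so
`dens (B ∧ ¬ G p) = dens B - dens (B ∧ G p) ≤ (1/2 + β) - (1/2 - β) = 2β`, so
`dens_q ¬ (G p q ↔ B q) ≤ 3β`; if `¬ A p` the same with `¬B`. So
`dens_(p,q) ¬ (G p q ↔ (A p ↔ B q)) ≤ β + 3β = 4β`. By symmetry of `G`,
`dens_(p,q) ¬ (G p q ↔ (A q ↔ B p)) ≤ 4β`, so `dens_(p,q) ¬ ((A p ↔ B q) ↔ (A q ↔ B p)) ≤ 8β`. With
`c p := (A p ↔ B p)` the last event is `¬ (c p ↔ c q)`, of density `2 κ (1 - κ)`, `κ = dens c`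
(`dens_prod`). As `max κ (1 - κ) ≥ 1/2`, `min κ (1 - κ) ≤ 8β`: that is `pm (8β) A B`. -/
def PltStmt : Prop :=
  ∀ (k : ℕ) (V : Type) [Fintype V] [Nonempty V] (E : (Fin k → V) → Prop)
    (D : Fin k → (Fin k → V) → Prop) (β : ℝ) (a : Fin k → V) (i l : Fin k),
    0 < β → β ≤ 1 / 16 → Symm E → Deg E → i ≠ l → plG E D β a i l →
    (dens (fun p => D i (update a l p)) ≤ β ∧ dens (fun q => D l (update a i q)) ≤ β) ∨
    (dens (fun p => ¬ D i (update a l p)) ≤ β ∧ dens (fun q => ¬ D l (update a i q)) ≤ β) ∨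
    (Sp D a i l ∧ |dens (fun p => D i (update a l p)) - 1 / 2| ≤ β ∧
      |dens (fun q => D l (update a i q)) - 1 / 2| ≤ β ∧
      pm (8 * β) (fun p => D i (update a l p)) (fun q => D l (update a i q)))

/-- NSP (the neighbourhood of a good point of a split plane). PROOF. By PLT and `Sp`
(`dens ∈ [1/4, 3/4]` excludes the first two alternatives) the last alternative of PLT holds. Put
`B q := D l (update a i q)`, `N := nb E a i`, `dens N ≥ 1/2` (`Deg`). If `D i a`, then `stG` says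
`dens (N ∧ ¬B) ≤ β`, so `dens (B ∧ ¬N) = dens B - dens (N ∧ B) ≤ (1/2 + β) - (1/2 - β) = 2β` and
`near (3β) N B`. If `¬ D i a`, then `dens (N ∧ B) ≤ β` and in the same way `near (3β) N (¬B)`.
With `pm (8β) A B` and `pm_trans`, `pm_symm`: `pm (11β) N A`. -/
def NspStmt : Prop :=
  ∀ (k : ℕ) (V : Type) [Fintype V] [Nonempty V] (E : (Fin k → V) → Prop)
    (D : Fin k → (Fin k → V) → Prop) (β : ℝ) (a : Fin k → V) (i l : Fin k),
    0 < β → β ≤ 1 / 16 → Symm E → Deg E → i ≠ l → stG E D β a i l → plG E D β a i l →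
    Sp D a i l → pm (11 * β) (nb E a i) (fun p => D i (update a l p)) ∧
      |dens (nb E a i) - 1 / 2| ≤ 12 * β

/-- G0D (almost all points are good). PROOF. For fixed `σ, i ≠ l` let `Q e := E e ∧ ¬ (D i e ↔ D l e)`,
`dens Q ≤ β^3` (`¬ Mono`). By `dens_perm` we may take `σ = 1`.
`stG` fails: `β < dens_q Q (update a i q)` (as `D i a ↔ D i (update a i q)`); by `markov` and
`dens_update i Q` the density is at most `β^3/β ≤ β`.
`plG` fails: `β^2 < dens_(p,q) Q (update (update a l p) i q)` (by `Indep`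
`D i (update a l p) ↔ D i (update (update a l p) i q)` and `D l (update a i q) ↔
D l (update (update a i q) l p)`, `update_comm`); by `markov` and `dens_update2` at most
`β^3/β^2 = β`.
`lnG` fails: either `dens_z (¬ D i (update a l z)) ≤ β` and `¬ D i a`: call this `R a`; by
`dens_update l`, `dens R = dens_(a,z) R (update a l z)` and for fixed `a` the event
`R (update a l z)` implies `¬ D i (update a l z)` and `dens_z' (¬ D i (update a l z')) ≤ β` (as
`update (update a l z) l z' = update a l z'`), so its density in `z` is `≤ β` (`dens_prod_le`); or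
the same with `D i` and `¬ D i` exchanged. Altogether `≤ β + β + 2β = 4β` for each `(σ, i, l)`;
union bound (`dens_exists_le`) over `k! * k^2` triples (`Fintype.card_perm`). -/
def G0dStmt : Prop :=
  ∀ (k : ℕ) (V : Type) [Fintype V] [Nonempty V] (E : (Fin k → V) → Prop)
    (D : Fin k → (Fin k → V) → Prop) (β : ℝ),
    0 < β → β ≤ 1 → Indep D → Closed E (β ^ 3) D →
    dens (fun a => ¬ G0 E D β a) ≤ 4 * (k.factorial : ℝ) * (k : ℝ) ^ 2 * β

/-- LEV (typical points of every level). PROOF. Induction on `s`. `¬ lev (s+1) a` implies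
`¬ lev s a` or, for some `m`, `δ < dens_z (¬ lev s (update a m z))`; by `markov` and
`dens_update m` the latter has density `≤ dens (¬ lev s) / δ`. Union over `m : Fin k`. -/
def LevStmt : Prop :=
  ∀ (k : ℕ) (V : Type) [Fintype V] (G : (Fin k → V) → Prop) (δ : ℝ) (s : ℕ), 0 < δ →
    dens (fun a => ¬ lev δ G s a) ≤ (1 + (k : ℝ) / δ) ^ s * dens (fun a => ¬ G a)

/-- EXC (exchange). `a` is a good point, some labelling of its plane with free labels `i0, i1` is
split. Then for every other label `m` there is a side `Z` of the partition `{nb, ¬nb}` such that for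
almost all `z ∈ Z` the plane of `update a m z` is split as well, with nearly the same partition.
PROOF. Let `σ` be given by `SS`, `b := a ∘ σ`, `i := σ⁻¹ i0`, `l := σ⁻¹ i1`, `m' := σ⁻¹ m` (distinct),
`A u := D i (update b l u)`. Note `update b l u = update a i1 u ∘ σ`, `update b m' z =
update a m z ∘ σ` (`update_comp_perm`). Let `P1 u := Sp D (update b l u) i m'`,
`U1 := {u : A u ∧ ¬ P1 u}`, `U0 := {u : ¬ A u ∧ ¬ P1 u}`,
`g z := G0 (update a m z) ∧ G0 (update a i1 z)`, `dens (¬g) ≤ 2δ`.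
CASE 1: `dens U1 ≤ θ`. All `z` with `A z`, outside `U1` and with `g z`, work: `P1 z` holds. Put
`τ := σ * swap l m'` (apply the swap first): `(update a m z ∘ τ)` takes the value `z` at `l`,
`a i1 = b l` at `m'` and `b x` elsewhere, so `c := update a m z ∘ τ = update (update b l z) m' (b l)`;
`τ i = i0`, `τ m' = i1`. `Sp D c i m' ↔ P1 z` (coordinate `m'` of `c` is overwritten), so
`SS D i0 i1 (update a m z)`. NSP at `c` (plane `i, m'`), at `update b l z` (plane `i, m'`), at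
`update b l z` (plane `i, l`; `Sp` by `Sp D b i l`) and at `b` (plane `i, l`); the points are good by
`G0 (update a m z)`, `G0 (update a i1 z)`, `G0 a` and `G0_perm`; `nb E c i = nb E (update a m z) i0`,
`nb E b i = nb E a i0` (`nb_perm`). Together `pm (44β) (nb E (update a m z) i0) (nb E a i0)`.
So `dens {z : A z ∧ not good} ≤ θ + 2δ`, and by NSP at `b`, `pm (11β) (nb E a i0) A`: with
`Z := nb E a i0` or its complement, `dens {z : Z z ∧ ¬ A z} ≤ 11β` and the total is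
`≤ θ + 2δ + 11β ≤ 2θ`.
CASE 2: `dens U0 ≤ θ`: the same with `¬A`.
CASE 3: `dens U1 > θ`, `dens U0 > θ`. Let `U1' := {u ∈ U1 : G0 (update a i1 u)}`, `dens ≥ θ - δ`.
For `u ∈ U1'` the point `update b l u` is good; its plane `(i, m')` is not split, so by PLT
`dens_z D i (update (update b l u) m' z) ≤ β` or `dens_z ¬D i (...) ≤ β`; the first is excluded by
`lnG` (direction `m'`) since `A u`, i.e. `D i (update b l u)`. So
`dens_z ¬D i (update (update b l u) m' z) ≤ β`. By `dens_prod_le`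
`dens_(u,z) (u ∈ U1' ∧ ¬ D i (update (update b l u) m' z)) ≤ β`, so by `markov` (with `z` as the
first variable; threshold `t := θ/4`), outside a set of `z` of density `≤ 4β/θ`,
`dens_u (u ∈ U1' ∧ ¬D i ..) ≤ θ/4` and `dens_u D i (update (update b m' z) l u) ≥ θ - δ - θ/4 ≥ θ/2 > β`
(`update_comm`). In the same way with `U0'`: `dens_u ¬D i (update (update b m' z) l u) > β`. So for
all `z` outside a set of density `8β/θ + 2δ` (`g z` also holds) the plane `(i, l)` of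
`update b m' z = update a m z ∘ σ` is good and by PLT split: `SS D i0 i1 (update a m z)` (with `σ`).
NSP at `update b m' z` (plane `i, l`), at `c' := update (update b l z) l' ..`, precisely
`c' := (update b l z) ∘ swap l m' = update (update b m' z) l (b m')` (plane `i, l`, the same plane),
`nb E c' i = nb E (update b l z) i` (`nb_perm`, `swap l m' i = i`), at `update b l z` (plane `i, l`
of `b`) and at `b`: `pm (44β)`. `8β/θ + 2δ ≤ 8θ/22 + θ/2 ≤ 2θ`; take `Z := nb E a i0`. -/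
def ExcStmt : Prop :=
  ∀ (k : ℕ) (V : Type) [Fintype V] [Nonempty V] (E : (Fin k → V) → Prop)
    (D : Fin k → (Fin k → V) → Prop) (β δ θ : ℝ) (a : Fin k → V) (i0 i1 m : Fin k),
    0 < β → β ≤ 1 / 16 → 0 < θ → θ ≤ 1 / 8 → 0 ≤ δ → δ ≤ θ / 4 → β ≤ θ ^ 2 / 22 →
    Symm E → Deg E → Indep D → i0 ≠ i1 → m ≠ i0 → m ≠ i1 →
    lev δ (G0 E D β) 1 a → SS D i0 i1 a →
    ∃ Z : V → Prop, (Z = nb E a i0 ∨ Z = fun v => ¬ nb E a i0 v) ∧
      dens (fun z => Z z ∧ ¬ (SS D i0 i1 (update a m z) ∧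
        pm (44 * β) (nb E (update a m z) i0) (nb E a i0))) ≤ 2 * θ

/-- CHN (chain: all typical split planes, even of different systems, have the same partition).
PROOF. Induction on `s`.
`M = ∅` (in particular `s = 0`): `a` and `a'` agree off `{i0, i1}`. `σ` from `SS D i0 i1 a`,
`b = a ∘ σ`, `i = σ⁻¹ i0`, `l = σ⁻¹ i1`. As `2δ < 1` there is `p` with `G0 E D β (update a i1 p)` and
`G0 E D' β (update a' i1 p)` (levels `≥ 1`). NSP at `b` and at `update b l p = update a i1 p ∘ σ`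
(same plane): `pm (22β) (nb E a i0) (nb E (update a i1 p) i0)`, the same for `a'`, and
`nb E (update a i1 p) i0 = nb E (update a' i1 p) i0` as these points agree off `i0`. So `pm (44β)`.
STEP (`s + 1`, `M ≠ ∅`): `m ∈ M`, `M' = M.erase m`. EXC for `a` and for `a'` (levels `≥ 1`) gives
`Z`, `Z'`. The set of `w` with `Z w ∧ Z' w` which fail one of: the EXC conclusion for `a` or `a'`,
`lev (s+1) (update a m w)`, `lev (s+1) (update a' m w)` has density `≤ 4θ + 2δ ≤ 5θ`.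
(i) If `dens (Z ∧ Z') > 5θ` choose such a `w` satisfying everything. `update a m w` and
`update a' m w` agree off `M' ∪ {i0, i1}`; induction hypothesis and EXC twice:
`pm (44β + (12θ + 88(s+1)β) + 44β)`.
(ii) If `dens (Z ∧ Z') ≤ 5θ`: `dens Z, dens Z' ≥ 1/2 - 12β` (NSP at `a ∘ σ`, `nb_perm`, `dens_not`).
`dens (¬Z ∧ ¬Z') = 1 - dens Z - dens Z' + dens (Z ∧ Z') ≤ 24β + 5θ`, so
`near (10θ + 24β) Z (¬Z')`, `24β ≤ 2θ`, and `pm (12θ) (nb E a i0) (nb E a' i0)`. -/
def ChnStmt : Prop :=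
  ∀ (k : ℕ) (V : Type) [Fintype V] [Nonempty V] (E : (Fin k → V) → Prop)
    (D D' : Fin k → (Fin k → V) → Prop) (β δ θ : ℝ) (i0 i1 : Fin k) (s : ℕ) (M : Finset (Fin k))
    (a a' : Fin k → V),
    0 < β → β ≤ 1 / 16 → 0 < θ → θ ≤ 1 / 8 → 0 ≤ δ → δ ≤ θ / 4 → β ≤ θ ^ 2 / 22 →
    Symm E → Deg E → Indep D → Indep D' → i0 ≠ i1 → i0 ∉ M → i1 ∉ M → M.card ≤ s →
    lev δ (G0 E D β) (s + 1) a → lev δ (G0 E D' β) (s + 1) a' → SS D i0 i1 a → SS D' i0 i1 a' →
    (∀ x, x ∉ M → x ≠ i0 → x ≠ i1 → a x = a' x) →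
    pm (12 * θ + 88 * ((s : ℝ) + 1) * β) (nb E a i0) (nb E a' i0)

/-- GLB (one partition for all systems). PROOF. Let `i ≠ l`. `a` is good, so `plG E D β a i l`. If
not `Sp D a i l` then PLT gives one of the first two alternatives (`β ≤ 14θ`). Otherwise let `σ` be
as in `exists_perm` with `σ i = i0`, `σ l = i1`, `a' := a ∘ σ⁻¹`, so `a' ∘ σ = a` and
`SS D i0 i1 a'` by `σ`; `lev δ _ k a'` by `lev_perm`, `G0_perm`. CHN with `s := k - 1`,
`M := univ \ {i0, i1}` (card `k - 2`), `D0, a0` and `D, a'`: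
`pm (12θ + 88kβ) (nb E a0 i0) (nb E a' i0)`, `nb E a' i0 = nb E a i` (`nb_perm`), NSP at `a` (plane
`i, l`): `pm (11β) (nb E a i) (fun z => D i (update a l z))`. `88kβ ≤ θ`, `11β ≤ θ`. -/
def GlbStmt : Prop :=
  ∀ (k : ℕ) (V : Type) [Fintype V] [Nonempty V] (E : (Fin k → V) → Prop)
    (D0 D : Fin k → (Fin k → V) → Prop) (β δ θ : ℝ) (i0 i1 : Fin k) (a0 a : Fin k → V),
    0 < β → β ≤ 1 / 16 → 0 < θ → θ ≤ 1 / 8 → 0 ≤ δ → δ ≤ θ / 4 → β ≤ θ ^ 2 / 22 →
    88 * (k : ℝ) * β ≤ θ →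
    Symm E → Deg E → Indep D0 → Indep D → i0 ≠ i1 →
    lev δ (G0 E D0 β) k a0 → SS D0 i0 i1 a0 → lev δ (G0 E D β) k a →
    LineDet (14 * θ) (nb E a0 i0) D a

/-- RES (resampling). PROOF. Fix `i`, write `f a := D i a`. For `l : Fin k` let
`R a z := (X (a l) ↔ X z) ∧ ¬ (f a ↔ f (update a l z))`. CLAIM 1: `dens_(a,z) R ≤ 3κ`. For `l = i`
it is `0` (`Indep`). For `l ≠ i`: by the involution of `dens_update` (apply it to the event on
`(a, z)`, or average over the line) `dens_(a,z) R a z = dens_(a,y,z) R (update a l y) z`, where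
`R (update a l y) z` says `(X y ↔ X z) ∧ ¬ (f (update a l y) ↔ f (update a l z))`. If
`LineDet κ X D a`, then for `φ z := f (update a l z)`: `dens φ ≤ κ` or `dens ¬φ ≤ κ` (then
`dens_(y,z) ¬(φ y ↔ φ z) ≤ 2κ`) or `near κ φ X` or `near κ φ ¬X` (then `(X y ↔ X z)` and
`¬(φ y ↔ φ z)` force `y` or `z` to be one of the exceptions: `≤ 2κ`). So the total is
`≤ κ + 2κ = 3κ`.
CLAIM 2: for `M : Finset (Fin k)` let `pw M a a' x := if x ∈ M then a' x else a x`;
`Q M := dens_(a,a') ((∀ x ∈ M, X (a x) ↔ X (a' x)) ∧ ¬ (f a ↔ f (pw M a a'))) ≤ 3κ * M.card`.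
Induction on `M`: `pw (insert l M) a a' = update (pw M a a') l (a' l)`; the event for `insert l M`
implies the event for `M` or `R (pw M a a') (a' l)` (as `pw M a a' l = a l` for `l ∉ M`). The
bijection `(a, a') ↦ (pw M a a', pw M a' a)` (an involution) and `a' l = (pw M a' a) l` show
`dens_(a,a') R (pw M a a') (a' l) = dens_(a,a') R a (a' l) = dens_(a,z) R a z ≤ 3κ` (the last by
Fubini over the coordinate `l` of `a'`: `dens_update`/`dens_fst` type).
CONCLUSION: `M = univ`, `pw univ a a' = a'`. `x := dens (D i ∧ wd W)`, `y := dens (¬ D i ∧ wd W)`: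
`x * y = dens_(a,a') (D i a ∧ wd W a ∧ ¬ D i a' ∧ wd W a') ≤ Q univ ≤ 3kκ ≤ ν^2`, so `x ≤ ν` or
`y ≤ ν`. -/
def ResStmt : Prop :=
  ∀ (k : ℕ) (V : Type) [Fintype V] [Nonempty V] (X : V → Prop)
    (D : Fin k → (Fin k → V) → Prop) (κ ν : ℝ),
    0 ≤ κ → 0 ≤ ν → 3 * (k : ℝ) * κ ≤ ν ^ 2 → Indep D →
    dens (fun a => ¬ LineDet κ X D a) ≤ κ → WDet ν X D

/-- NTR (no typical split plane: trivial). PROOF. (1) Let `lev δ _ k a`, `i ≠ l`. `σ` with `σ i = i0`,
`σ l = i1`, `a' := a ∘ σ⁻¹`: `lev_perm`, so `¬ SS D i0 i1 a'`, so `¬ Sp D a i l`. PLT: `dens ≤ β` or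
`dens ¬ ≤ β` on the line. So `LineDet κ (fun _ => True) D a` (`β ≤ κ`). RES with `X := True`,
`W := fun _ => true` (`wd` is always true): for every `i`, `dens (D i) ≤ ν` or `dens (¬ D i) ≤ ν`.
(2) `dens (D i) ≤ ν` and `dens (¬ D l) ≤ ν` with `i ≠ l` is impossible: by `markov`, `dens_update`
the set of `a` with `1/2 < dens_p D i (update a l p)` has density `≤ 2ν`, the set of `a` with
`1/2 < dens_q ¬ D l (update a i q)` too, and `¬ lev` has density `≤ κ`; `4ν + κ < 1`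
(`κ ≤ ν^2/6`, `ν ≤ 1/8`, `k ≥ 2` because `i0 ≠ i1`). For a remaining `a`, not split, PLT:
`dens_q D l (update a i q) ≤ β`, so `dens ¬ ≥ 1 - β > 1/2`, or `dens_p ¬ D i ≤ β`, contradiction.
(3) So all `dens (D i) ≤ ν` or all `dens (¬ D i) ≤ ν`. -/
def NtrStmt : Prop :=
  ∀ (k : ℕ) (V : Type) [Fintype V] [Nonempty V] (E : (Fin k → V) → Prop)
    (D : Fin k → (Fin k → V) → Prop) (β δ κ ν : ℝ) (i0 i1 : Fin k),
    0 < β → β ≤ 1 / 16 → β ≤ κ → 3 * (k : ℝ) * κ ≤ ν ^ 2 → 0 < ν → ν ≤ 1 / 8 →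
    Symm E → Deg E → Indep D → i0 ≠ i1 →
    dens (fun a => ¬ lev δ (G0 E D β) k a) ≤ κ →
    (∀ a, lev δ (G0 E D β) k a → ¬ SS D i0 i1 a) → Triv ν D

/-- the system of all states of type `≥ j` -/
noncomputable def TD {k : ℕ} {V : Type} (X : V → Prop) (j : ℕ) : Fin k → (Fin k → V) → Prop :=
  fun i a => j ≤ (Finset.univ.filter (fun l : Fin k => l ≠ i ∧ X (a l))).card

/-- TYP (the system of the states of type `≥ j`). PROOF. `Indep`: the coordinate `i` is not used.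
A tuple `e` which is not monochromatic has type exactly `j`: if `TD i e`, `¬ TD l e` then
`typ X e ≥ j` and `typ X e - [X (e l)] ≤ j - 1`, so `typ X e = j`; hence `Closed` with
`tden E X j`. Let `T := univ \ {i0, i1}`, card `k - 2 ≥ j - 1`; choose `J ⊆ T` with card `j - 1`. If
`X (a m) ↔ m ∈ J` for all `m ∈ T`, then `TD X j i0 (update a i1 p) ↔ X p`, so the plane is split
(`dens X ∈ [3/8, 5/8]`). The density of these `a` is (`dens_pi`) a product of `k - 2` factors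
`dens X` or `1 - dens X`, all `≥ 3/8 ≥ 1/4`, and two factors `1`. -/
def TypStmt : Prop :=
  ∀ (k : ℕ) (V : Type) [Fintype V] [Nonempty V] (E : (Fin k → V) → Prop) (X : V → Prop) (j : ℕ)
    (i0 i1 : Fin k), i0 ≠ i1 → 1 ≤ j → j ≤ k - 1 → |dens X - 1 / 2| ≤ 1 / 8 →
    Indep (TD (k := k) X j) ∧ Closed E (tden E X j) (TD (k := k) X j) ∧
    (1 / 4 : ℝ) ^ k ≤ dens (fun a : Fin k → V => Sp (TD X j) a i0 i1 ∧
      ∀ p, (TD X j i0 (update a i1 p) ↔ X p))

/-- UNI (a missing type determines all closed systems). PROOF. We may assume `ν ≤ 1/8` (`WDet` is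
monotone in `ν`). Constants: `κ := ν^2/(3k)`, `θ := κ/15` (so `θ ≤ 1/8`), `δ := θ/4`,
`C := 4 k! k^2 (1 + k/δ)^k`, `β` positive with `β ≤ 1/16`, `β ≤ θ^2/22`, `88kβ ≤ θ`, `Cβ ≤ κ`,
`Cβ < (1/4)^k`, `ε := β^3`. By G0D and LEV every `ε`-closed system has
`dens (¬ lev δ (G0 ..) k) ≤ Cβ`. Let `i0 := 0`, `i1 := 1` (`k ≥ 2`). TYP: `TD X j` is `ε`-closed, and
as `Cβ < (1/4)^k` there is `a0` with `lev δ (G0 E (TD X j) β) k a0`, `Sp (TD X j) a0 i0 i1` (so `SS`
with `σ = 1`) and `TD X j i0 (update a0 i1 p) ↔ X p`. NSP at `a0`: `pm (11β) (nb E a0 i0) X`. GLB: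
for every `a` with `lev δ (G0 E D β) k a`, `LineDet (14θ) (nb E a0 i0) D a`, hence
`LineDet κ X D a` (`14θ + 11β ≤ 15θ ≤ κ`, `pm_trans`). RES. -/
def UniStmt : Prop :=
  ∀ (k : ℕ) (ν : ℝ), 2 ≤ k → 0 < ν → ∃ ε : ℝ, 0 < ε ∧
    ∀ (V : Type) [Fintype V] [Nonempty V] (E : (Fin k → V) → Prop) (X : V → Prop) (j : ℕ),
      Symm E → Deg E → 1 ≤ j → j ≤ k - 1 → |dens X - 1 / 2| ≤ ε → tden E X j ≤ ε →
      ∀ D : Fin k → (Fin k → V) → Prop, Indep D → Closed E ε D → WDet ν X D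

/-- GBX (a non-trivial closed system gives the partition). PROOF. `Triv` and `WDet` are monotone in
`ν`, so we may assume `ν ≤ 1/8`. Constants `κ, θ, δ, C, β, ε` as in UNI with also `12β ≤ ν`,
`β ≤ κ`. By NTR (contrapositive) for `D0` there is `a0` with `lev δ (G0 E D0 β) k a0` and
`SS D0 i0 i1 a0`. `X := nb E a0 i0`; `|dens X - 1/2| ≤ 12β` by NSP at `a0 ∘ σ` (`σ` from `SS`) and
`nb_perm`. GLB: `LineDet (14θ) X D a` for every `a` with `lev δ (G0 E D β) k a`. RES. -/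
def GbxStmt : Prop :=
  ∀ (k : ℕ) (ν : ℝ), 2 ≤ k → 0 < ν → ∃ ε : ℝ, 0 < ε ∧
    ∀ (V : Type) [Fintype V] [Nonempty V] (E : (Fin k → V) → Prop)
      (D0 : Fin k → (Fin k → V) → Prop), Symm E → Deg E → Indep D0 → Closed E ε D0 → ¬ Triv ν D0 →
      ∃ X : V → Prop, |dens X - 1 / 2| ≤ ν ∧
        ∀ D : Fin k → (Fin k → V) → Prop, Indep D → Closed E ε D → WDet ν X D

/-- MIS (a word on which the majority values of two labels differ has a missing type). PROOF. Say
`maj i W` and `¬ maj l W`. By `WDet` and `maj`: `dens (¬ D i ∧ wd W) ≤ ν`, `dens (D l ∧ wd W) ≤ ν`.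
A tuple `e` with `E e`, `wd X W e` is not monochromatic, or `¬ D i e`, or `D l e`. So
`dens (E ∧ wd W) ≤ ε + 2ν`. If `wt W' = wt W` there is a permutation `σ` with `W' = W ∘ σ`, and
`dens (E ∧ wd W') = dens (E ∧ wd W)` (`dens_perm`, `Symm`). `tden E X (wt W)` is the sum over the
at most `2^k` words `W'` with `wt W' = wt W` of `dens (E ∧ wd W')` (`dens_exists_le`). -/
def MisStmt : Prop :=
  ∀ (k : ℕ) (V : Type) [Fintype V] [Nonempty V] (E : (Fin k → V) → Prop)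
    (D : Fin k → (Fin k → V) → Prop) (X : V → Prop) (ε ν : ℝ) (i l : Fin k) (W : Fin k → Bool),
    Symm E → Closed E ε D → WDet ν X D → ¬ (maj D X i W ↔ maj D X l W) →
    tden E X (wt W) ≤ 2 ^ k * (ε + 2 * ν)

/-- MIN (the majority value of `D i` does not depend on the letter `i`). PROOF. For a predicate `P`
with `P (update a i v) ↔ P a` and `c b := dens (fun v => (X v ↔ b = true))` one has
`dens (P ∧ wd W) = c (W i) * dens (P ∧ ∀ l ≠ i, (X (a l) ↔ W l = true))`: write `wd X W a` as the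
last condition and `X (a i) ↔ W i = true`, replace `a i` by an independent `z` (`dens_update i`,
`dens_prod`). `c b > 0` as `0 < dens X < 1`. Apply it to `D i` and `¬ D i`. -/
def MinStmt : Prop :=
  ∀ (k : ℕ) (V : Type) [Fintype V] [Nonempty V] (D : Fin k → (Fin k → V) → Prop) (X : V → Prop)
    (i : Fin k) (W : Fin k → Bool) (b : Bool), Indep D → 0 < dens X → dens X < 1 →
    (maj D X i (update W i b) ↔ maj D X i W)

/-- WGR (word graph; `F t`: type `t` is missing). PROOF. For `W` with `¬ F (wt W)` let `ψ W` be the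
common value of `φ i W`. If `W, W'` differ only at `m` and both types are not missing then
`ψ W ↔ φ m W ↔ φ m W' ↔ ψ W'`. FIRST PART: let all types in `[a, b]`, `a < b`, be present. If `W`
has type in `[a, b]` and `W p = true`, `W q = false`, the word `W'` with these two letters exchanged
satisfies `ψ W ↔ ψ W'` (go through the word with both letters false if `wt W > a`, through the
word with both letters true if `wt W = a < b`). So `ψ` has the same value on all words of the same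
type in `[a, b]` (exchange letters until they are equal; induction on the number of differences),
and on neighbouring types (change one letter). SECOND PART: `k ≥ 3`, `[a, b] = [1, k-1]`, `1 < k-1`
if `k ≥ 3`. So `ψ` is constant on types `1, .., k-1`. If `wt W = 0`: `φ i W ↔ φ i (update W i true)`,
type 1. If `wt W = k`: `φ i W ↔ φ i (update W i false)`, type `k-1`. -/
def WgrStmt : Prop :=
  ∀ (k : ℕ) (φ : Fin k → (Fin k → Bool) → Prop) (F : ℕ → Prop),
    (∀ i W b, φ i (update W i b) ↔ φ i W) → (∀ W, ¬ F (wt W) → ∀ i l, (φ i W ↔ φ l W)) →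
    (∀ a b : ℕ, a < b → (∀ t, a ≤ t → t ≤ b → ¬ F t) → ∀ W W', a ≤ wt W → wt W ≤ b →
      a ≤ wt W' → wt W' ≤ b → ∀ i l, (φ i W ↔ φ l W')) ∧
    (3 ≤ k → (∀ t, 1 ≤ t → t ≤ k - 1 → ¬ F t) → ∀ W W' i l, (φ i W ↔ φ l W'))

/-- MSX (a non-trivial closed system gives a missing type). PROOF. Let `ν' := min ν (1/8) / 4^(k+1)`,
`ε'` from GBX for `ν'`, `ε := min ε' ν'`. `¬ Triv ν D0` implies `¬ Triv ν' D0`. Let `X` be from GBX,
`WDet ν' X D0`, `|dens X - 1/2| ≤ ν' ≤ 1/8`. Suppose `tden E X j > ν` for all `1 ≤ j ≤ k-1`. As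
`2^k (ε + 2ν') ≤ ν`, MIS gives `maj D0 X i W ↔ maj D0 X l W` if `1 ≤ wt W ≤ k-1`. MIN and WGR
(second part, `F t := ¬ (1 ≤ t ∧ t ≤ k-1)`): `maj D0 X i W` is constant in `i, W`. If it is true,
`dens (¬ D0 i) ≤ sum over W of dens (¬ D0 i ∧ wd W) ≤ 2^k ν' ≤ ν` for all `i` (each `a` has a word
`W l := decide (X (a l))`); if it is false, `dens (D0 i) ≤ 2^k ν'`. So `Triv ν D0`,
contradiction. -/
def MsxStmt : Prop :=
  ∀ (k : ℕ) (ν : ℝ), 3 ≤ k → 0 < ν → ∃ ε : ℝ, 0 < ε ∧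
    ∀ (V : Type) [Fintype V] [Nonempty V] (E : (Fin k → V) → Prop)
      (D0 : Fin k → (Fin k → V) → Prop), Symm E → Deg E → Indep D0 → Closed E ε D0 → ¬ Triv ν D0 →
      ∃ (X : V → Prop) (j : ℕ), 1 ≤ j ∧ j ≤ k - 1 ∧ |dens X - 1 / 2| ≤ ν ∧ tden E X j ≤ ν

/-- NBR (the types next to a missing type are nearly complete). PROOF. We may assume `ν ≤ 1`, because
otherwise the right sides are `≥ 1`. Fix `i`, `s a := card {l | l ≠ i ∧ X (a l)}`. FIRST PART:
`dens_(a,q) (s a = j ∧ ¬ X q ∧ E (update a i q)) = dens_e (s e = j ∧ ¬ X (e i) ∧ E e) ≤ tden ≤ ν`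
(`dens_update i`). `markov` with threshold `√ν`: outside a set of `a` of density `≤ √ν`,
`dens_q (s a = j ∧ ¬ X q ∧ E (update a i q)) ≤ √ν`; for such `a` with `s a = j`:
`dens_q (X q ∧ E ..) ≥ 1/2 - √ν` (`Deg`), so `dens_q (X q ∧ ¬ E ..) ≤ dens X - 1/2 + √ν ≤ ν + √ν`.
So `dens_(a,q) (s a = j ∧ X q ∧ ¬ E (update a i q)) ≤ √ν + ν + √ν ≤ 3√ν`, i.e.
`dens_e (s e = j ∧ X (e i) ∧ ¬ E e) ≤ 3√ν`. A tuple with `typ X e = j + 1` has some `i` with
`X (e i)`, and then `s e = j`. Union over `i`. SECOND PART: the same with `s a = j - 1`, `X q` in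
the place of `¬ X q`, and conversely; a tuple with `typ X e = j - 1 < k` has some `i` with
`¬ X (e i)`. -/
def NbrStmt : Prop :=
  ∀ (k : ℕ) (V : Type) [Fintype V] [Nonempty V] (E : (Fin k → V) → Prop) (X : V → Prop) (j : ℕ)
    (ν : ℝ), 1 ≤ k → Deg E → 0 < ν → |dens X - 1 / 2| ≤ ν → tden E X j ≤ ν →
    dens (fun e => typ X e = j + 1 ∧ ¬ E e) ≤ 3 * (k : ℝ) * Real.sqrt ν ∧
    (1 ≤ j → j ≤ k → dens (fun e => typ X e = j - 1 ∧ ¬ E e) ≤ 3 * (k : ℝ) * Real.sqrt ν)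

/-- STR (THE STRUCTURE THEOREM of block B). `b` = wanted precision as a function of the scale `μ`,
`h` = closedness needed for it, `g` = arbitrary (later) growth function.
PROOF. Let `εU ν'` be the `ε` of UNI and `εM ν'` that of MSX (`choose`). Put
`b' x := min (b x) (x / 2^(k+3))`, `h x := min (εU (b' x)) (x / 2^(k+3))` (for `x > 0`, otherwise
`1`). Given `g`, `ν`: `ν_0 := min ν 1`, `ν_(m+1) := min` of `ν_m / 2`, `g ν_m`, `(g ν_m / (3k))^2`,
`εU (b' ν_m)`, `(1 / (8 k 4^k))^2`. `K := k + 2`, `c0 := min (εM ν_K) ν_K`, `S := {ν_0, .., ν_K}`.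
If every `c0`-closed `Indep` system is `ν`-trivial: (I). Otherwise some `D0` is `c0`-closed and not
`ν`-trivial, so not `ν_K`-trivial, and MSX gives `X, j0` with `|dens X - 1/2| ≤ ν_K`,
`tden E X j0 ≤ ν_K`. The `k + 1` numbers `tden E X j`, `0 ≤ j ≤ k`, miss one of the `k + 2` disjoint
intervals `(ν_(m+1), ν_m)`, `0 ≤ m ≤ k + 1`. Take this `m`, `μ := ν_m`,
`F := {j ≤ k : tden E X j ≤ ν_(m+1)}`; `j0 ∈ F`; `μ ∈ S`. For `j ∈ F`: `tden ≤ ν_(m+1) ≤ g μ`;
for `j ∉ F`: `tden ≥ μ`. NBR with `ν_(m+1)`: `3k √ν_(m+1) ≤ g μ`. Two consecutive `j, j+1 ∈ F`: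
`dens (typ = j+1) ≤ ν_(m+1) + 3k √ν_(m+1) < (1/4)^k`, but `dens (typ = j+1) ≥ (3/8)^k` (`dens_pi`,
one word of type `j + 1 ≤ k`). If `D` is `h μ`-closed, UNI with `b' μ` (as `tden E X j0 ≤ ν_K ≤
ν_(m+1) ≤ εU (b' μ)`, same for `|dens X - 1/2|`) gives `WDet (b' μ) X D`, and if
`maj D X i W ↔ maj D X l W` fails, MIS gives `tden E X (wt W) ≤ 2^k (h μ + 2 b' μ) ≤ 3μ/8 < μ`, so
`wt W ∈ F` (`wt W ≤ k`). -/
def StrStmt : Prop :=
  ∀ k : ℕ, 3 ≤ k → ∀ b : ℝ → ℝ, (∀ x, 0 < x → 0 < b x) →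
    ∃ h : ℝ → ℝ, (∀ x, 0 < x → 0 < h x) ∧ ∀ g : ℝ → ℝ, (∀ x, 0 < x → 0 < g x) → ∀ ν : ℝ, 0 < ν →
    ∃ (c0 : ℝ) (S : Finset ℝ), 0 < c0 ∧ (∀ x ∈ S, 0 < x ∧ x ≤ ν) ∧
    ∀ (V : Type) [Fintype V] [Nonempty V] (E : (Fin k → V) → Prop),
      Symm E → Deg E →
      (∀ D : Fin k → (Fin k → V) → Prop, Indep D → Closed E c0 D → Triv ν D) ∨
      ∃ (X : V → Prop) (μ : ℝ) (F : Finset ℕ), μ ∈ S ∧ |dens X - 1 / 2| ≤ g μ ∧
        (∀ j ∈ F, j ≤ k) ∧ (∃ j ∈ F, 1 ≤ j ∧ j ≤ k - 1) ∧ (∀ j ∈ F, j + 1 ∉ F) ∧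
        (∀ j ∈ F, tden E X j ≤ g μ) ∧ (∀ j, j ≤ k → j ∉ F → μ ≤ tden E X j) ∧
        (∀ j ∈ F, dens (fun e => typ X e = j + 1 ∧ ¬ E e) ≤ g μ) ∧
        (∀ j ∈ F, 1 ≤ j → dens (fun e => typ X e = j - 1 ∧ ¬ E e) ≤ g μ) ∧
        ∀ D : Fin k → (Fin k → V) → Prop, Indep D → Closed E (h μ) D → WDet (b μ) X D ∧
          ∀ W : Fin k → Bool, wt W ∉ F → ∀ i l, (maj D X i W ↔ maj D X l W)

end Pool.Agent.KK.B
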