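import Pool.Agent.KK.StmtsC

/-!
# Block D: the case tree, classes from the structure theorem, tour, interfaces

Notation in the docstrings: `n = |V|`, `k = d + 2`.  The type of a tuple or an edge is the number of
its vertices in `X`.
-/

set_option autoImplicit false

open scoped BigOperators

namespace Pool.Agent.KK

section
variable {V : Type} [Fintype V] [DecidableEq V]

/-- Number of entries in `X`. -/
def xc (X : Finset V) {m : ℕ} (f : Fin m → V) : ℕ := (Finset.univ.filter fun i => f i ∈ X).card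

/-- Number of labelled edges of type `j`. -/
noncomputable def td (H : Finset (Finset V)) (k : ℕ) (X : Finset V) (j : ℕ) : ℕ :=
  {f : Fin k → V | Finset.univ.image f ∈ H ∧ xc X f = j}.ncard

/-- The canonical states of type `s`: at the times `0, ..., s-1` (modulo `k`) vertices of `X`, at
the times `s, ..., k-1` vertices outside `X`. -/
def can (X : Finset V) (d s : ℕ) : Set (Sta V d) :=
  {z | ∀ i : Fin (d + 1), (z.1 i ∈ X ↔ (z.2 + ((i : ℕ) : ZMod (d + 2))).val < s)}

/-- The class of the run of types `a, ..., b`: all states with tuples of the types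
`a - 1, ..., b` if `a < b`, the canonical ones if `a = b`. -/
def cls (X : Finset V) (d a b : ℕ) : Set (Sta V d) :=
  if a = b then can X d a else {z | a ≤ xc X z.1 + 1 ∧ xc X z.1 ≤ b}

/-- The structure in case (II): the vertex partition `X, V \ X` and the runs of types
`a i, ..., b i`, `i < q`; between two runs exactly one missing type. -/
structure Struc (H : Finset (Finset V)) (d : ℕ) (X : Finset V) (q : ℕ) (a b : ℕ → ℕ)
    (μ γ : ℝ) : Prop where
  two_le : 2 ≤ q
  first : a 0 ≤ 1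
  le : ∀ i < q, a i ≤ b i
  gap : ∀ i, i + 1 < q → a (i + 1) = b i + 2
  last1 : d + 1 ≤ b (q - 1)
  last2 : b (q - 1) ≤ d + 2
  bal : |(X.card : ℝ) - Fintype.card V / 2| ≤ γ * Fintype.card V
  miss : ∀ j ≤ d + 2, (∀ i < q, ¬ (a i ≤ j ∧ j ≤ b i)) →
    (td H (d + 2) X j : ℝ) ≤ γ * (Fintype.card V : ℝ) ^ (d + 2)
  pres : ∀ i < q, ∀ j, a i ≤ j → j ≤ b i →
    μ * (Fintype.card V : ℝ) ^ (d + 2) ≤ (td H (d + 2) X j : ℝ)

/-- The exchange condition: across every partition into two parts of size `≥ n / 18` there are at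
least `κ n²` pairs of vertices with at least `μ n^(k-1)` common link tuples. -/
def Exch (H : Finset (Finset V)) (k : ℕ) (μ κ : ℝ) : Prop :=
  ∀ A : Set V, 1 / 18 * (Fintype.card V : ℝ) ≤ A.ncard →
    1 / 18 * (Fintype.card V : ℝ) ≤ Aᶜ.ncard → κ * (Fintype.card V : ℝ) ^ 2 ≤
      ({p : V × V | p.1 ∈ A ∧ p.2 ∉ A ∧
        μ * (Fintype.card V : ℝ) ^ (k - 1) ≤ comm H k p.1 p.2}.ncard : ℝ)

/-- `H` is `η`-close to the parity hypergraph of `(A, V \ A)` with residue `p`, and both parts are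
large. -/
def NearPar (H : Finset (Finset V)) (k : ℕ) (A : Finset V) (p : ℕ) (η : ℝ) : Prop :=
  (Fintype.card V : ℝ) / 18 ≤ A.card ∧ (Fintype.card V : ℝ) / 18 ≤ Aᶜ.card ∧
  ({f : Fin k → V | Function.Injective f ∧
    ¬ (Finset.univ.image f ∈ H ↔ xc A f % 2 = p % 2)}.ncard : ℝ) ≤ η * (Fintype.card V : ℝ) ^ k

/-- Supply of crossings from `S` to `T`: either outside every set of `C` vertices, or there are at
least `k` vertices `z` such that outside every set of `C` vertices not containing `z` there is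
one. -/
def Cross (H : Finset (Finset V)) (k : ℕ) (S T : Set (List V)) (C₀ C : ℕ) : Prop :=
  (∀ W : Finset V, W.card ≤ C → ∃ p, Seg H k S T p ∧ p.length ≤ C₀ ∧ ∀ v ∈ p, v ∉ W) ∨
  ∃ Z : Finset V, k ≤ Z.card ∧ ∀ z ∈ Z, ∀ W : Finset V, W.card ≤ C → z ∉ W →
    ∃ p, Seg H k S T p ∧ p.length ≤ C₀ ∧ ∀ v ∈ p, v ∉ W

end

/-! ## The five interfaces -/

/-- **STR** (structure theorem, block B, helper80).  `e` is a fixed function; after that for every
function `g` there is a finite set of scales `S` such that every `H` has, for some scale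
`μ ∈ S`, either all states as one indecomposable class, or a structure whose missing types have
density at most `g μ` while all classes are indecomposable with constant `e μ`. -/
def StrStmt : Prop :=
  ∀ (d : ℕ) (β : ℝ), 1 ≤ d → 0 < β → ∃ e : ℝ → ℝ, (∀ x, 0 < x → 0 < e x) ∧
    ∀ g : ℝ → ℝ, (∀ x, 0 < x → 0 < g x) →
    ∃ (S : Finset ℝ) (n₀ : ℕ), (∀ x ∈ S, 0 < x) ∧
    ∀ (V : Type) [Fintype V] [DecidableEq V] (H : Finset (Finset V)),
      n₀ ≤ Fintype.card V → Uni H (d + 2) → Dirac H (d + 2) →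
      ∃ μ ∈ S, Indec H (Set.univ : Set (Sta V d)) (e μ) β ∨
        ∃ (X : Finset V) (q : ℕ) (a b : ℕ → ℕ), Struc H d X q a b μ (g μ) ∧
          ∀ i < q, Indec H (cls X d (a i) (b i)) (e μ) β

/-- **CRS** (crossings at the gap `j`, block E, helper68): from the tuples of type next below the
gap (almost all canonical states of type `j - 1` have their tuple in `S`) to those next above it
(type `j + 1`, `T`).  The crossing in the other direction is the same statement for `Xᶜ`, `k - j`.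
`C₀` depends only on `d`. -/
def CrsStmt : Prop :=
  ∀ d : ℕ, 1 ≤ d → ∃ C₀ : ℕ, ∀ C : ℕ, ∃ (γ : ℝ) (n₀ : ℕ), 0 < γ ∧
    ∀ (V : Type) [Fintype V] [DecidableEq V] (H : Finset (Finset V)) (X : Finset V) (j : ℕ)
      (S T : Set (List V)), n₀ ≤ Fintype.card V → Uni H (d + 2) → Dirac H (d + 2) →
      1 ≤ j → j ≤ d + 1 → |(X.card : ℝ) - Fintype.card V / 2| ≤ γ * Fintype.card V →
      (td H (d + 2) X j : ℝ) ≤ γ * (Fintype.card V : ℝ) ^ (d + 2) →
      ({z : Sta V d | z ∈ can X d (j - 1) ∧ List.ofFn z.1 ∉ S}.ncard : ℝ) ≤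
        γ * (Fintype.card V : ℝ) ^ (d + 1) →
      ({z : Sta V d | z ∈ can X d (j + 1) ∧ List.ofFn z.1 ∉ T}.ncard : ℝ) ≤
        γ * (Fintype.card V : ℝ) ^ (d + 1) →
      Cross H (d + 2) S T C₀ C

/-- **BET** (beta theorem, helper5 and helper13). -/
def BetStmt : Prop :=
  ∀ k : ℕ, 3 ≤ k → ∃ (η : ℝ) (n₀ : ℕ), 0 < η ∧
    ∀ (V : Type) [Fintype V] [DecidableEq V] (H : Finset (Finset V)) (A : Finset V) (p : ℕ),
      n₀ ≤ Fintype.card V → Uni H k → Dirac H k → NearPar H k A p η → Ham H k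

/-- **DIC** (exchange dichotomy).

PROOF.  Let `μ ≤ 1/8` and `κ` be small, and let `A` violate `Exch`: `|A|, |Aᶜ| ≥ n / 18` and less
than `κ n²` pairs `(u, v)`, `u ∈ A`, `v ∉ A` (call them exchange pairs) have
`comm u v ≥ μ n^(k-1)`.  `L_u` = set of `f : Fin (k-1) → V` with `u ∉ image f` and
`insert u (image f) ∈ H`.  For large `n`, `|L_u| ≥ (1/2 - μ) n^(k-1)`: choose all but the last entry
distinct and `≠ u` (all but `k² n^(k-3)` of the `n^(k-2)` choices), then `Dirac`.  If `(u, v)` is not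
an exchange pair then `|L_u ∩ L_v| ≤ μ n^(k-1)`, hence at most `3 μ n^(k-1)` tuples are in neither,
so `L_v` and the complement of `L_u` differ in at most `4 μ n^(k-1)` tuples.
Choose `v₀ ∉ A` with at most `18 κ n` exchange pairs `(u, v₀)` (average).  Choose `u₀ ∈ A` with
`(u₀, v₀)` not an exchange pair and at most `36 κ n` exchange pairs `(u₀, v)` (at most
`κ n² / (36 κ n) = n / 36` vertices `u₀` violate the second, `18 κ n` the first, fewer than `n / 18`
together).  Let `L` be the complement of `L_(v₀)`.  For all `u ∈ A` but `18 κ n`: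
`|L_u Δ L| ≤ 4 μ n^(k-1)`.  For all `v ∉ A` but `36 κ n`: `L_v` differs from the complement of
`L_(u₀)` in at most `4 μ n^(k-1)` tuples, so from the complement of `L` in at most `8 μ n^(k-1)`.
Let `h(x) = 1` if the image of `x : Fin k → V` is in `H`, `α(v) = 1` if `v ∉ A`, `l(f) = 1` if
`f ∈ L`, all modulo 2.  So `h(x) = l(x without x 0) + α (x 0)` for all but `δ n^k` tuples `x`,
`δ = 8 μ + 54 κ`.  `h' = h + ∑_j α (x j)`: if `x, y` differ only in coordinate `0` then
`h'(x) = h'(y)`, except for `2 δ n^(k+1)` pairs; by symmetry of `h` the same for every coordinate `j`.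
Changing the coordinates one by one: `h'(x) = h'(y)` for all but `2 k δ n^(2k)` pairs `(x, y)` of
tuples (the pair in step `j` is a function of `(x, y)` with all fibres of size `n^(k-1)`).  Choose `y`
with at most `2 k δ n^k` exceptions `x`: `h(x) = ∑_j α (x j) + const = k - xc A x + const`.  So
`η = 2 k δ`. -/
def DicStmt : Prop :=
  ∀ (k : ℕ) (η : ℝ), 3 ≤ k → 0 < η → ∃ (μ κ : ℝ) (n₀ : ℕ), 0 < μ ∧ μ ≤ 1 / 8 ∧ 0 < κ ∧
    ∀ (V : Type) [Fintype V] [DecidableEq V] (H : Finset (Finset V)),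
      n₀ ≤ Fintype.card V → Uni H k → Dirac H k → Exch H k μ κ ∨
        ∃ (A : Finset V) (p : ℕ), NearPar H k A p η

/-! ## Classes from the structure -/

/-- **CLO** (classes are closed).

PROOF.  A step `s → t` is given by the tuple `(s.1, v)` (a labelled edge) and the time of `s`.  Claim:
if `s ∈ cls` and `t ∉ cls`, or `s ∉ cls` and `t ∈ cls` (`cls X d (a i) (b i)`), the type `j` of the
edge is missing; then there are at most `(d + 2)` times and `(d + 3) γ n^(d+2)` labelled edges.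
Case `a i < b i`: if `a i ≤ j ≤ b i` then both tuples have a type in `{j - 1, j}`, so both are in the
class.  One of the tuples is in the class, so `a i - 1 ≤ j ≤ b i + 1`.  So if `j` is not in
`[a i, b i]`, then `j = a i - 1` (`a i ≥ 1`) or `j = b i + 1 ≤ d + 2`; these types are missing (`first`,
`gap`, `last1`; the runs are increasing).  Case `a i = b i = m` (canonical): the letters at all
`d + 1` times of the tuple in the class are canonical; the remaining vertex of the edge is at the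
remaining time; if its letter is the canonical one then the other tuple is also in the class;
otherwise the type is `m - 1` or `m + 1`, which is missing as before. -/
def CloStmt : Prop :=
  ∀ (d : ℕ) (V : Type) [Fintype V] [DecidableEq V] (H : Finset (Finset V)) (X : Finset V)
    (q : ℕ) (a b : ℕ → ℕ) (μ γ : ℝ), Uni H (d + 2) → 0 ≤ γ → Struc H d X q a b μ γ →
    ∀ i < q, Closed H (cls X d (a i) (b i)) ((d + 2) * (d + 3) * γ)

/-- **CVR** (the classes cover all tuples and all edges of present types; sizes).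

PROOF.  (1) The intervals `[a i - 1, b i]`, `i < q`, cut with `[0, d + 1]`, are a partition of
`[0, d + 1]`.  Let `g` have type `m`, `a i ≤ m + 1`, `m ≤ b i`.  If `a i < b i`: `(g, 0)` is in the
class.  If `a i = b i = s` then `m = s` or `m + 1 = s`; let `f` be the rearrangement of `g` with the
entries in `X` first; `m = s`: `(f, 0)` is canonical; `m + 1 = s`: `(f, 1)` is canonical (the times are
`1, ..., d + 1`).  (2) `e` a labelled edge of type `j`, `a i ≤ j ≤ b i`.  If `a i < b i` take `f = e`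
(`init`, `tail` have type `j - 1` or `j`).  If `a i = b i = j`: `f` = rearrangement with the entries in
`X` first, `t = 0`: the entry at position (= time) `l` is in `X` iff `l < j`.  So only edges of missing
types are counted: `(d + 3) γ n^(d+2)`.  (3) `|X|, |Xᶜ| ≥ n / 3`, so there are at least `(n / 3)^(d+1)`
tuples with any prescribed letters; `a i = b i`: the canonical letters at time `0`; `a i < b i`: a
word of weight `m = min (b i) (d + 1)`.  (4) `can X d s ⊆ cls X d a b` for `a ≤ s ≤ b`, `s ≤ d + 2`: a canonical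
tuple of type `s` has `s` or `s - 1` entries in `X`.  (5) classes `a < b` do not depend on the time;
`can X d 0` = all tuples outside `X`, `can X d (d + 2)` = all tuples inside `X`. -/
def CvrStmt : Prop :=
  (∀ (d : ℕ) (V : Type) [Fintype V] [DecidableEq V] (H : Finset (Finset V)) (X : Finset V)
    (q : ℕ) (a b : ℕ → ℕ) (μ γ : ℝ), Uni H (d + 2) → 0 ≤ γ → γ ≤ 1 / 6 →
    Struc H d X q a b μ γ →
    (∀ g : Fin (d + 1) → V, ∃ i < q, ∃ (f : Fin (d + 1) → V) (t : ZMod (d + 2)),
      Finset.univ.image f = Finset.univ.image g ∧ (f, t) ∈ cls X d (a i) (b i)) ∧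
    ({e : Fin (d + 2) → V | Finset.univ.image e ∈ H ∧ ¬ ∃ i < q, ∃ (f : Fin (d + 2) → V)
        (t : ZMod (d + 2)), Finset.univ.image f = Finset.univ.image e ∧
        (Fin.init f, t) ∈ cls X d (a i) (b i) ∧ (Fin.tail f, t + 1) ∈ cls X d (a i) (b i)}.ncard
        : ℝ) ≤ (d + 3) * γ * (Fintype.card V : ℝ) ^ (d + 2) ∧
    ∀ i < q, (1 / 3 : ℝ) ^ (d + 1) * (Fintype.card V : ℝ) ^ (d + 1) ≤
      (cls X d (a i) (b i)).ncard) ∧
  (∀ (d : ℕ) (V : Type) [Fintype V] [DecidableEq V] (X : Finset V) (a b s : ℕ),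
    a ≤ s → s ≤ b → s ≤ d + 2 → can X d s ⊆ cls X d a b) ∧
  (∀ (d : ℕ) (V : Type) [Fintype V] [DecidableEq V] (X : Finset V) (a b : ℕ),
    (a < b ∨ b = 0 ∨ a = d + 2) → a ≤ b → ∀ (f : Fin (d + 1) → V) (t t' : ZMod (d + 2)),
      (f, t) ∈ cls X d a b → (f, t') ∈ cls X d a b)

/-- **TIM** (a class which is invariant under time shifts).

PROOF.  Suppose that all runs are single types, `a 0 = 1` and `b (q-1) = d + 1`.  Then (`gap`)
`a i = 2 i + 1`, so exactly the odd types are present and all even types `≤ d + 2` are missing.  For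
`u ∈ X`, `v ∉ X` and `f` counted by `comm u v` the tuples `(u, f)` and `(v, f)` are labelled edges of
consecutive types, so one of them has a missing type.  So the number of triples `(u, v, f)` is at most
`2 (d + 3) γ n^(d+2) · n`.  By `Exch` for `A = X` (`|X|, |Xᶜ| ≥ n / 18` by `bal`) it is at least
`κ n² · μ' n^(d+1)`.  Contradiction. -/
def TimStmt : Prop :=
  ∀ (d : ℕ) (V : Type) [Fintype V] [DecidableEq V] (H : Finset (Finset V)) (X : Finset V)
    (q : ℕ) (a b : ℕ → ℕ) (μ γ μ' κ : ℝ), 0 < Fintype.card V → Uni H (d + 2) → 0 ≤ γ →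
    γ ≤ 1 / 6 → 2 * (d + 3) * γ < κ * μ' → 0 < μ' → Struc H d X q a b μ γ → Exch H (d + 2) μ' κ →
    ∃ i < q, a i < b i ∨ b i = 0 ∨ a i = d + 2

/-- **CSY** (crossing downwards).

PROOF.  `CrsStmt` for `Xᶜ` and `d + 2 - j`: `td H (d+2) Xᶜ (d + 2 - j) = td H (d+2) X j`,
`|Xᶜ| - n / 2 = n / 2 - |X|`; `(c, t) ∈ can Xᶜ d (d + 2 - s)` iff `(c, t + (d + 2 - s)) ∈ can X d s`
hence the same tuples, and the same number of states (`s = j + 1` and `s = j - 1`). -/
def CsyStmt : Prop :=
  ∀ (d C₀ C n₀ : ℕ) (γ : ℝ),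
    (∀ (V : Type) [Fintype V] [DecidableEq V] (H : Finset (Finset V)) (X : Finset V) (j : ℕ)
      (S T : Set (List V)), n₀ ≤ Fintype.card V → Uni H (d + 2) → Dirac H (d + 2) →
      1 ≤ j → j ≤ d + 1 → |(X.card : ℝ) - Fintype.card V / 2| ≤ γ * Fintype.card V →
      (td H (d + 2) X j : ℝ) ≤ γ * (Fintype.card V : ℝ) ^ (d + 2) →
      ({z : Sta V d | z ∈ can X d (j - 1) ∧ List.ofFn z.1 ∉ S}.ncard : ℝ) ≤
        γ * (Fintype.card V : ℝ) ^ (d + 1) →
      ({z : Sta V d | z ∈ can X d (j + 1) ∧ List.ofFn z.1 ∉ T}.ncard : ℝ) ≤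
        γ * (Fintype.card V : ℝ) ^ (d + 1) →
      Cross H (d + 2) S T C₀ C) →
    ∀ (V : Type) [Fintype V] [DecidableEq V] (H : Finset (Finset V)) (X : Finset V) (j : ℕ)
      (S T : Set (List V)), n₀ ≤ Fintype.card V → Uni H (d + 2) → Dirac H (d + 2) →
      1 ≤ j → j ≤ d + 1 → |(X.card : ℝ) - Fintype.card V / 2| ≤ γ * Fintype.card V →
      (td H (d + 2) X j : ℝ) ≤ γ * (Fintype.card V : ℝ) ^ (d + 2) →
      ({z : Sta V d | z ∈ can X d (j - 1) ∧ List.ofFn z.1 ∉ S}.ncard : ℝ) ≤
        γ * (Fintype.card V : ℝ) ^ (d + 1) →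
      ({z : Sta V d | z ∈ can X d (j + 1) ∧ List.ofFn z.1 ∉ T}.ncard : ℝ) ≤
        γ * (Fintype.card V : ℝ) ^ (d + 1) →
      Cross H (d + 2) T S C₀ C

/-- **TOU** (tour from crossings).

PROOF.  The classes in the order `i₀, i₀ + 1, ..., q - 1, q - 2, ..., 0, 1, ..., i₀`: `t = 2 (q - 1)`
steps between neighbouring classes.  For every step `l` of the second kind (set `Z l`) choose
`z l ∈ Z l`, all distinct: `|Z l| ≥ k ≥ t`.  Let `R` be the set of these `z l`.  Choose the paths `x l`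
one after the other, avoiding `W = (R \ {z l}) ∪ (vertices of the earlier paths)`,
`|W| ≤ k + k C₀ ≤ C`; `z l ∉ W` because the earlier paths avoid `z l`. -/
def TouStmt : Prop :=
  ∀ (k q C₀ C : ℕ) (V : Type) [Fintype V] [DecidableEq V] (H : Finset (Finset V))
    (T : Fin q → Set (List V)) (i₀ : Fin q), 2 * (q - 1) ≤ k → k * C₀ + k ≤ C →
    (∀ i j : Fin q, (i : ℕ) + 1 = j ∨ (j : ℕ) + 1 = i → Cross H k (T i) (T j) C₀ C) →
    Tour H k T i₀ (k * C₀)

/-- Alpha: the exchange condition gives a tight Hamilton cycle. -/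
def AlphaStmt : Prop :=
  ∀ (k : ℕ) (μ κ : ℝ), 3 ≤ k → 0 < μ → μ ≤ 1 / 8 → 0 < κ → ∃ n₀ : ℕ,
    ∀ (V : Type) [Fintype V] [DecidableEq V] (H : Finset (Finset V)),
      n₀ ≤ Fintype.card V → Uni H k → Dirac H k → Exch H k μ κ → Ham H k

/-- **ALF** (assembly of alpha): `AlphaStmt` from
`StrStmt, CrsStmt, AlpStmt, TclStmt, CloStmt, CvrStmt, TimStmt, CsyStmt, TouStmt`.

PROOF.  `d = k - 2`, `β = (1/3)^(d+4)`, `u₀ = (1/3)^(d+1)`, `c₁ = (1/2)^(d+3)`, so `2 β < u₀, c₁`.
`STR` gives `e`.  For `x > 0`, `1 ≤ q ≤ d + 3`: `TCL` (`ε = e x`) gives `M, c`; `CRS` gives `C₀` and, for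
`C = k C₀ + k`, constants `γ_C, n_C`; `ALP` with `M, q, C := k C₀, c' = min c .., κ, μ` gives `γ_A, n_A`;
`TCL` with `γ = min γ_A γ_C` gives `ε', n_T`.  `g x` = minimum over `q` of `γ_C`, `1/6`,
`ε' / ((d+2)(d+3))` and `κ μ / (4 (d + 3))` (for `CLO`, `CVR`, `TIM`).  `STR` gives `S, n_S`; `n₀` =
maximum of `n_S`, `n_C` and of `n_A, n_T` over `x ∈ S`, `q`.  Given `H`: `x ∈ S`.
CASE 1 (all states indecomposable): `q = 1`, `U 0 = univ`: size `(d+2) n^(d+1)`, closed, invariant,
nothing uncovered (`f = g`, `f = e`, `t = 0`); `TCL`; `TOU` with `q = 1`; `ALP`.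
CASE 2: `q` runs, `2 (q - 1) ≤ k` (as `a (i+1) ≥ a i + 2`, `b (q-1) ≤ k`), `U i = cls X d (a i) (b i)`;
`CLO`, `CVR`, `TIM` give the hypotheses of `TCL`; `T i = tups H (U i) c₁`.  For the gap
`j = b i + 1`, `1 ≤ j ≤ d + 1`, missing: `can X d (j - 1) ⊆ U i`, `can X d (j + 1) ⊆ U (i + 1)`, so by the
last conclusion of `TCL` the hypotheses of `CRS` and `CSY` hold (`S = T i`, `T = T (i+1)`): `Cross` in
both directions.  `TOU`: `Tour`.  `ALP`: `Ham`. -/
def AlfStmt : Prop :=
  StrStmt → CrsStmt → AlpStmt → TclStmt → CloStmt → CvrStmt → TimStmt → CsyStmt → TouStmt →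
    AlphaStmt

/-- Glue of the two cases. -/
theorem main_of (hA : AlphaStmt) (hB : BetStmt) (hD : DicStmt) : Main := by
  intro k hk
  obtain ⟨η, n₁, hη, hβ⟩ := hB k hk
  obtain ⟨μ, κ, n₂, hμ, hμ8, hκ, hdic⟩ := hD k η hk hη
  obtain ⟨n₃, hα⟩ := hA k μ κ hk hμ hμ8 hκ
  refine ⟨max n₁ (max n₂ n₃), ?_⟩
  intro V _ _ H hn hU hDi
  rcases hdic V H (le_trans (le_trans (le_max_left _ _) (le_max_right _ _)) hn) hU hDi with h | h
  · exact hα V H (le_trans (le_trans (le_max_right _ _) (le_max_right _ _)) hn) hU hDi h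
  · obtain ⟨A, p, hA'⟩ := h
    exact hβ V H A p (le_trans (le_max_left _ _) hn) hU hDi hA'

end Pool.Agent.KK
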