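import Mathlib
import Pool.Agent.KK.StmtsB
import Pool.Agent.KK.StmtsD

/-! MP_747bc0_co, block B, second part: the bridge from the structure theorem `B.StrStmt` (labelled
tuples) to `KK.StrStmt` of `StmtsD` (states `Sta V d`, `k = d + 2`). -/

namespace Pool.Agent.KK.B

open Function
open scoped Classical

section
variable {V : Type} [Fintype V] [DecidableEq V] {d : ℕ}

/-- labelled edges of `H` -/
def LE (H : Finset (Finset V)) (e : Fin (d + 2) → V) : Prop := Finset.univ.image e ∈ H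

/-- the augmented edge relation: all non-injective tuples are added -/
def augE (H : Finset (Finset V)) (e : Fin (d + 2) → V) : Prop := Injective e → Finset.univ.image e ∈ H

/-- the state of the labelled tuple `a` with missing label `i`: the coordinates
`i + 1, ..., i + d + 1`, at time `i + 1` (so the coordinate `j` of a state `(f, t)` has the label
`t + j`, and the missing label is `t - 1`) -/
def stOf (i : Fin (d + 2)) (a : Fin (d + 2) → V) : Sta V d :=
  (fun j => a (i + 1 + j.castSucc), (i + 1 : Fin (d + 2)))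

/-- the system of states of a set of states -/
def sys (U : Set (Sta V d)) : Fin (d + 2) → (Fin (d + 2) → V) → Prop := fun i a => stOf i a ∈ U

/-- the number of steps from `A` to `B` -/
noncomputable def stp (H : Finset (Finset V)) (A B : Set (Sta V d)) : ℝ :=
  ({p : Sta V d × Sta V d | p.1 ∈ A ∧ p.2 ∈ B ∧ St H p.1 p.2}.ncard : ℝ)

end

/-- AUG (the augmented relation). PROOF. `Symm`: injectivity and the image are invariant under
relabelling. `Deg`: if `a` is injective on the labels `≠ i`, let `S` be the image of these labels,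
`S.card = d + 1 = k - 1`, and by `Dirac` at least `n/2` vertices `v ∉ S` have `insert v S ∈ H`, which
is the image of `update a i v`. Otherwise `update a i v` is never injective and the density is `1`.
Last part: `augE e ∧ P e` implies `LE e ∧ P e` or `e` is not injective; for fixed `i ≠ j` the tuples
with `e i = e j` have density `1/n` (`dens_update`/`dens_prod`), at most `(d+2)^2` pairs. -/
def AugStmt : Prop :=
  ∀ (d : ℕ) (V : Type) [Fintype V] [DecidableEq V] [Nonempty V] (H : Finset (Finset V)),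
    Uni H (d + 2) → Dirac H (d + 2) →
    Symm (augE (d := d) H) ∧ Deg (augE (d := d) H) ∧
    ∀ P : (Fin (d + 2) → V) → Prop, dens (fun e => augE H e ∧ P e) ≤
      dens (fun e => LE H e ∧ P e) + ((d : ℝ) + 2) ^ 2 / (Fintype.card V : ℝ)

/-- CNV (dictionary). PROOF. (1) The labels `i + 1 + j`, `0 ≤ j ≤ d`, are exactly the labels `≠ i`,
so `stOf i a` does not depend on `a i`. (2) For every `i` the map `a ↦ (stOf i a, a i)` is a bijection
of `Fin (d+2) → V` onto (states at time `i + 1`) × `V`; sum over `i` (times `i + 1` run through all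
of `Fin (d+2) = ZMod (d+2)`). (3) `(e, i) ↦ (stOf i e, stOf (i+1) e)` is a bijection of
`{(e, i) | LE H e}` onto the pairs `(s, s')` with `St H s s'`: `init` of the second is `tail` of the
first, its last entry is `e (i + 2 + d) = e i`, and `insert (e i) (image of the others) = image e`;
conversely `s = (f, t)`, `s' = (f', t + 1)` determine `i = t - 1`, `e (t + j) = f j`,
`e (t - 1) = f' (last)`. It restricts to the pairs in `A × B`. -/
def CnvStmt : Prop :=
  ∀ (d : ℕ) (V : Type) [Fintype V] [DecidableEq V] [Nonempty V] (H : Finset (Finset V)),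
    Uni H (d + 2) →
    (∀ U : Set (Sta V d), Indep (sys U) ∧
      (U.ncard : ℝ) = (∑ i, dens (sys U i)) * (Fintype.card V : ℝ) ^ (d + 1)) ∧
    ∀ A B : Set (Sta V d), stp H A B =
      (∑ i, dens (fun e => LE H e ∧ sys A i e ∧ sys B (i + 1) e)) * (Fintype.card V : ℝ) ^ (d + 2)

/-- CNC (closedness in both languages). PROOF. From CNV (3). If `e` is not monochromatic for
`sys D` there is `i` with `sys D i e` and `¬ sys D (i + 1) e` (go around the cycle from a label with
`D` to a label without); so `dens (LE ∧ ¬ Mono) n^(d+2) ≤ stp H D Dᶜ ≤ stp H D (U \ D) + stp H U Uᶜ`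
(`Dᶜ = (U \ D) ∪ Uᶜ`, `D ⊆ U`). -/
def CncStmt : Prop :=
  ∀ (d : ℕ) (V : Type) [Fintype V] [DecidableEq V] [Nonempty V] (H : Finset (Finset V))
    (U : Set (Sta V d)), Uni H (d + 2) →
    ∀ D ⊆ U, dens (fun e => LE H e ∧ ¬ Mono (sys D) e) * (Fintype.card V : ℝ) ^ (d + 2) ≤
      stp H D (U \ D) + stp H U Uᶜ

/-- CLI (the explicit classes are indecomposable). The last hypothesis is the last conclusion of
`StrStmt` with `b μ = b₀`, `h μ = h` and `E = augE H`.
PROOF. Let `D ⊆ U := cls X d a b` with `stp H D (U \ D) < ε n^k`. By CNC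
`dens (LE ∧ ¬ Mono (sys D)) ≤ ε + ε1`, so by AUG `sys D` is `h`-closed for
`augE H` (`ε + ε1 + k^2/n ≤ h`), `Indep` by CNV. So `WDet b₀ X (sys D)` and `maj (sys D) X i W` does
not depend on `i` if `wt W ∉ F`. Let `𝒲` be the set of words `W` with `a ≤ wt W ≤ b`, and, if
`a = b`, `W l = decide (l.val < a)` (this word has type `a ≤ d + 2`). CLAIM: `maj (sys D) X i W` is the
same for all `i` and all `W ∈ 𝒲`: for `a = b` there is one word; for `a < b` it is the first part of
WGR (with `φ i W := maj (sys D) X i W` and MIN).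
If it is true: `dens (¬ sys D i ∧ wd W) ≤ b₀` for `W ∈ 𝒲` and all `i`. Now `sys U i x` means that the
word of `x` off the label `i`, completed by a suitable letter `c` at `i`, is in `𝒲`: the state
`stOf i x` has the entries `x l`, `l ≠ i`; its type `s` satisfies `a ≤ s + 1`, `s ≤ b`, so `s` or
`s + 1` is in `[a, b]`; for `a = b` the definition of `can` says `x l ∈ X ↔ l.val < a` for all `l ≠ i`
(the label of the coordinate `j` is `i + 1 + j`, which is the value in the definition of `can`). As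
`sys D i` does not depend on the coordinate `i`, for every `W ∈ 𝒲` the set of `x` with `¬ sys D i x`
whose word agrees with `W` off `i` has density at most `b₀ / (3/8) ≤ 3 b₀` (as in MIN:
`dens (P ∧ wd W) = c (W i) * dens (P ∧ off i)`, `c (W i) = dens X` or `1 - dens X`, `≥ 3/8`).
So `dens (sys U i ∧ ¬ sys D i) ≤ 2^(d+2) * 3 b₀` and by CNV (for `U \ D`)
`(U \ D).ncard ≤ (d+2) 2^(d+2) 3 b₀ n^(d+1) ≤ β n^(d+1)`. If it is false, the same for
`D.ncard` (`D ⊆ U`). -/
def CliStmt : Prop :=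
  ∀ (d : ℕ) (V : Type) [Fintype V] [DecidableEq V] [Nonempty V] (H : Finset (Finset V))
    (X : Finset V) (F : Finset ℕ) (a b : ℕ) (h b₀ β ε ε1 : ℝ), Uni H (d + 2) → Dirac H (d + 2) →
    |dens (fun v => v ∈ X) - 1 / 2| ≤ 1 / 8 → a ≤ b → b ≤ d + 2 →
    (∀ t, a ≤ t → t ≤ b → t ∉ F) → 0 ≤ b₀ → 0 < ε →
    3 * ((d : ℝ) + 2) * 2 ^ (d + 2) * b₀ ≤ β →
    ε + ε1 + ((d : ℝ) + 2) ^ 2 / (Fintype.card V : ℝ) ≤ h →
    stp H (cls X d a b) (cls X d a b)ᶜ ≤ ε1 * (Fintype.card V : ℝ) ^ (d + 2) →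
    (∀ D : Fin (d + 2) → (Fin (d + 2) → V) → Prop, Indep D → Closed (augE H) h D →
      WDet b₀ (fun v => v ∈ X) D ∧
      ∀ W : Fin (d + 2) → Bool, wt W ∉ F → ∀ i l,
        (maj D (fun v => v ∈ X) i W ↔ maj D (fun v => v ∈ X) l W)) →
    Indec H (cls X d a b) ε β

/-- CLU (alternative (I): the class of all states). PROOF. `D ⊆ univ` with
`stp H D Dᶜ < ε n^k`: as in CLI `sys D` is `(ε + k^2/n)`-closed for `augE H` (`stp H univ univᶜ = 0`),
hence `ν`-trivial, and by CNV `D.ncard` or `Dᶜ.ncard` is at most `(d+2) ν n^(d+1) ≤ β n^(d+1)`. -/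
def CluStmt : Prop :=
  ∀ (d : ℕ) (V : Type) [Fintype V] [DecidableEq V] [Nonempty V] (H : Finset (Finset V))
    (c0 ν β ε : ℝ), Uni H (d + 2) → Dirac H (d + 2) → 0 < ε →
    ((d : ℝ) + 2) * ν ≤ β → ε + ((d : ℝ) + 2) ^ 2 / (Fintype.card V : ℝ) ≤ c0 →
    (∀ D : Fin (d + 2) → (Fin (d + 2) → V) → Prop, Indep D → Closed (augE H) c0 D → Triv ν D) →
    Indec H (Set.univ : Set (Sta V d)) ε β

/-- RUN (the runs of present types). PROOF. Pure combinatorics of a set `F ⊆ [0, k]` without two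
consecutive elements, `k ≥ 2`. Let `a 0` be the smallest element of `[0, k] \ F` (`0` or `1`), and,
given `a i`, let `b i` be the largest number `≤ k` with `[a i, b i]` disjoint from `F`; if
`b i + 1 < k` then `b i + 1 ∈ F`, `b i + 2 ∉ F`, `a (i+1) := b i + 2`; if `b i + 1 ≥ k` stop,
`q := i + 1`. (Or: induction on `k`, or use the increasing enumeration of `F ∩ [1, k-1]`:
`F ∩ [1, k-1] = {f_1 < .. < f_(q-1)}`, `b i = f_(i+1) - 1`, `a i = f_i + 1`, with `a 0 = 0` or `1`
according to `0 ∉ F` or `0 ∈ F`, `b (q-1) = k` or `k - 1`.) `q ≥ 2` because `F` meets `[1, k-1]`. -/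
def RunStmt : Prop :=
  ∀ (k : ℕ) (F : Finset ℕ), 2 ≤ k → (∀ j ∈ F, j ≤ k) → (∀ j ∈ F, j + 1 ∉ F) →
    (∃ j ∈ F, 1 ≤ j ∧ j ≤ k - 1) →
    ∃ (q : ℕ) (a b : ℕ → ℕ), 2 ≤ q ∧ a 0 ≤ 1 ∧ (∀ i < q, a i ≤ b i) ∧
      (∀ i, i + 1 < q → a (i + 1) = b i + 2) ∧ k - 1 ≤ b (q - 1) ∧ b (q - 1) ≤ k ∧
      (∀ j ≤ k, (∀ i < q, ¬ (a i ≤ j ∧ j ≤ b i)) → j ∈ F) ∧
      (∀ i < q, b i ≤ k ∧ ∀ j, a i ≤ j → j ≤ b i → j ∉ F)

/-- BRG (bridge): `KK.StrStmt` from `B.StrStmt`, AUG, CLI, CLU, RUN and `KK.CloStmt`.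
PROOF. `k = d + 2 ≥ 3`. `b₀ := β / (3 k 2^k)`, `h` from `B.StrStmt` with `b := fun _ => b₀`,
`e x := min (h (2 x) / 4) x` for `x > 0` (and `1` otherwise). Given `g`, put for `y > 0`
`g' y := min (1/8) (min (g (y/2)) (h y / (4 (d+2) (d+3))))` (and `1` otherwise), `ν := β / k`;
`B.StrStmt` gives `c0, S₀`. `S := {c0/2} ∪ {y/2 : y ∈ S₀}`. `n₀ ≥ 1` so large that
`k^2 / n₀ ≤ c0/2` and, for all `y ∈ S₀`, `k^2 / n₀ ≤ h y / 4` and `k^2 / n₀ ≤ y/2`. Apply it to
`augE H` (AUG).
(I): `μ := c0/2`, `e μ ≤ c0/2`; CLU with `ε = e μ`.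
(II): `y ∈ S₀`, `μ := y/2`, `X' := univ.filter X`, RUN gives `q, a, b`. `Struc H d X' q a b μ (g' y)`:
`bal`: `X'.card = dens X * n`. `td H (d+2) X' j = dens (LE ∧ typ X = j) n^(d+2)` (`Set.ncard` of a
filter; `xc X' f = typ X f`). `miss`: `j ∈ F`, `LE ∧ typ = j` implies `augE ∧ typ = j`,
`tden ≤ g' y`. `pres`: `j ∉ F`, `j ≤ b i ≤ k`: `y ≤ tden (augE) ≤ dens (LE ∧ typ = j) + k^2/n`, so
`≥ y/2`. `KK.CloStmt` gives `KK.Closed H (cls X' d (a i) (b i)) ((d+2) (d+3) g' y)`, so
`ε1 := (d+2) (d+3) g' y ≤ h y / 4`. CLI with `ε = e μ ≤ h y / 4`, `|dens X - 1/2| ≤ g' y ≤ 1/8`.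
Finally `Struc` with `g' y` implies `Struc` with `g μ = g (y/2) ≥ g' y`. -/
def BrgStmt : Prop :=
  StrStmt → AugStmt → CliStmt → CluStmt → RunStmt → KK.CloStmt → KK.StrStmt

end Pool.Agent.KK.B
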