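import Pool.Agent.KK.Defs

/-!
# Block C: joining, absorbing, covering, assembly (case alpha)

Notation in the docstrings: `n = |V|`, `r = k - 1`.
All statements are independent; a row may use the rows listed in its column `uses` as hypotheses.
-/

set_option autoImplicit false

open scoped BigOperators

namespace Pool.Agent.KK

/-! ## Counting and random selection -/

/-- **FAM** (family lemma).  For `γ ≤ γ₀(M, ξ)` and `n ≥ n₀`: given at most `n ^ e` sets `D` of
`M`-tuples, each of size `≥ ξ n ^ M`, there is a family `F` of at most `γ n` pairwise disjoint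
injective `M`-tuples which has at least `(γ ξ / 8) n` members in every `D`.

PROOF.  `γ₀ = min 1 (ξ / (16 M²))`, `N = ⌊γ n⌋`.  Let `U` run over all functions
`Fin N → (Fin M → V)` (there are `n ^ (M N)`).  (1) For `D` let `h(U)` be the number of `i` with
`U i ∈ D`.  `∑_U 2 ^ (- h(U)) = (n ^ M - |D| / 2) ^ N ≤ n ^ (M N) (1 - ξ / 2) ^ N
≤ n ^ (M N) exp (- ξ N / 2)` (the sum over functions is a product of sums).  Hence at most
`n ^ (M N) 2 ^ (ξ N / 4) exp (- ξ N / 2) ≤ n ^ (M N) exp (- ξ N / 4)` functions `U` have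
`h(U) < ξ N / 4`; over all `D`: at most `n ^ e exp (- ξ N / 4) n ^ (M N) < n ^ (M N) / 2` for large
`n`.  (2) Let `bad(U)` be the number of `i` with `U i` not injective plus the number of pairs
`i < j` with `range (U i) ∩ range (U j) ≠ ∅`.  A tuple is not injective with probability at most
`M² / (2 n)`, two tuples meet with probability at most `M² / n`, so the sum of `bad` over all `U` is
at most `n ^ (M N) (N M² / (2 n) + N² M² / (2 n)) ≤ n ^ (M N) (γ M² / 2 + γ² M² n / 2)`; so at most
half of all `U` have `bad(U) ≥ γ M² + γ² M² n`.  By (1) and (2) some `U` has `h(U) ≥ ξ N / 4` for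
every `D` and `bad(U) < γ M² + γ² M² n`.  Delete the indices `i` with `U i` not injective, and one
index of every intersecting pair; the remaining tuples are injective and pairwise disjoint, hence
distinct (`M > 0`); let `F` be the set of them, `|F| ≤ N ≤ γ n`, and in every `D` there remain at
least `ξ N / 4 - γ M² - γ² M² n ≥ ξ (γ n - 1) / 4 - γ M² - ξ γ n / 16 ≥ γ ξ n / 8` members for
large `n`. -/
def FamStmt : Prop :=
  ∀ (M e : ℕ) (ξ : ℝ), 0 < M → 0 < ξ → ∃ γ₀ : ℝ, 0 < γ₀ ∧ ∀ γ : ℝ, 0 < γ → γ ≤ γ₀ →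
    ∃ n₀ : ℕ, ∀ (V : Type) [Fintype V] [DecidableEq V], n₀ ≤ Fintype.card V →
    ∀ 𝒟 : Finset (Finset (Fin M → V)), (𝒟.card : ℝ) ≤ (Fintype.card V : ℝ) ^ e →
      (∀ D ∈ 𝒟, ξ * (Fintype.card V : ℝ) ^ M ≤ D.card) →
      ∃ F : Finset (Fin M → V), (F.card : ℝ) ≤ γ * Fintype.card V ∧
        (∀ u ∈ F, Function.Injective u) ∧
        (∀ u ∈ F, ∀ v ∈ F, u ≠ v → Disjoint (Set.range u) (Set.range v)) ∧
        ∀ D ∈ 𝒟, γ * ξ / 8 * Fintype.card V ≤ (D ∩ F).card

/-- **CKQ** (counting complete partite copies).  A set `E` of `r`-tuples with `|E| ≥ ρ n ^ r` has at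
least `ρ ^ (q ^ r) n ^ (q r)` families `x : Fin r → Fin q → V` all of whose transversals
`i ↦ x i (g i)`, `g : Fin r → Fin q`, are in `E`.

PROOF.  Induction on `r`; `r = 0`: `n ^ 0 = 1`, `E` is everything or `ρ ≤ 0` (if `0 < ρ` then
`|E| ≥ ρ > 0`, so `E` is the one point set).  Step `r + 1`: for `z : Fin r → V` let
`e(z) = #{v : (v, z) ∈ E}`; for `y : Fin q → V` let `E_y` be the set of `z` with `(y j, z) ∈ E` for
all `j`.  `∑_y |E_y| = ∑_z e(z) ^ q ≥ n ^ r (ρ n) ^ q` by the power mean inequality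
(`∑_z e(z) = |E| ≥ ρ n ^ (r+1)`).  By induction `E_y` has at least
`(|E_y| / n ^ r) ^ (q ^ r) n ^ (q r)` families; sum over `y` and use the power mean inequality again
(exponent `q ^ r ≥ 1`): the sum over the `n ^ q` functions `y` is at least
`n ^ q (ρ ^ q) ^ (q ^ r) n ^ (q r) = ρ ^ (q ^ (r+1)) n ^ (q (r+1))`. -/
def CkqStmt : Prop :=
  ∀ (r q : ℕ) (ρ : ℝ), 0 < q → 0 < ρ → ∀ (V : Type) [Fintype V] [DecidableEq V],
    0 < Fintype.card V → ∀ E : Set (Fin r → V), ρ * (Fintype.card V : ℝ) ^ r ≤ E.ncard →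
    ρ ^ (q ^ r) * (Fintype.card V : ℝ) ^ (q * r) ≤
      ({x : Fin r → Fin q → V | ∀ g : Fin r → Fin q, (fun i => x i (g i)) ∈ E}.ncard : ℝ)

/-- **ERD** (Erdos).  A set `E` of `r`-tuples of elements of `U` with `|E| ≥ ρ n ^ r` contains all
transversals of pairwise disjoint `t`-sets `A 0, ..., A (r-1)`, if `n ≥ n₀(r, t, ρ)`.

PROOF.  By CKQ with `q = t` there are at least `ρ ^ (t ^ r) n ^ (t r)` families `x`; at most
`(t r)² n ^ (t r - 1)` families `x : Fin r → Fin t → V` are not injective as functions of `(i, j)`;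
so for large `n` there is an injective one; `A i = {x i j}`. -/
def ErdStmt : Prop :=
  ∀ (r t : ℕ) (ρ : ℝ), 0 < r → 0 < t → 0 < ρ → ∃ n₀ : ℕ,
    ∀ (V : Type) [Fintype V] [DecidableEq V], n₀ ≤ Fintype.card V →
    ∀ E : Set (Fin r → V), ρ * (Fintype.card V : ℝ) ^ r ≤ E.ncard →
    ∃ A : Fin r → Finset V, (∀ i, (A i).card = t) ∧ (∀ i j, i ≠ j → Disjoint (A i) (A j)) ∧
      ∀ x : Fin r → V, (∀ i, x i ∈ A i) → x ∈ E

/-! ## Walks and joining -/

/-- Number of walks with `m` steps in the digraph `E`. -/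
noncomputable def wk {Ω : Type} [Fintype Ω] (E : Ω → Ω → Prop) : ℕ → Ω → Ω → ℕ
  | 0, s, t => by classical exact if s = t then 1 else 0
  | m + 1, s, t => by classical exact ∑ z : Ω, wk E m s z * (if E z t then 1 else 0)

/-- **REA** (reach lemma).  Digraph `E` on `Ω`, all degrees `≤ N`, at most one walk with exactly `r`
steps between two states, `|U| ≤ C N ^ r`, `U` indecomposable: every `D ⊆ U` sends at least
`ε N ^ (r+1)` steps into `U \ D`, or `|D| ≤ β N ^ r`, or `|U \ D| ≤ β N ^ r`.  If at least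
`c₁ N ^ r` walks with `r` steps lead from `s` into `U` and from `U` to `t` then for some
`m ≤ M` (`m ≥ 2 r`) there are at least `c N ^ (m - r)` walks with `m` steps from `s` to `t`.

PROOF.  For `m ≥ r`: `wk m s z ≤ N ^ (m - r)` (induction on `m`: `wk (m+1) s z'` is the sum of
`wk m s z` over the at most `N` states `z` with `E z z'`).  `θ 0 = c₁ / (2 C)`,
`θ (i+1) = θ i · min 1 (ε / (2 C (i+1)))`.  Let `R i` be the set of `z ∈ U` such that
`wk m s z ≥ θ i N ^ (m - r)` for some `m` with `r ≤ m ≤ r + i`.  `R i ⊆ R (i+1)`.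
`|R 0| ≥ (c₁ / 2) N ^ r`: `∑_{z ∈ U} wk r s z ≥ c₁ N ^ r`, each term is `≤ 1`, the terms `< θ 0`
contribute at most `θ 0 |U| ≤ (c₁ / 2) N ^ r`.  So `|R i| > β N ^ r` for all `i`.  If
`|U \ R i| > β N ^ r` then at least `ε N ^ (r+1)` pairs `(z, z')`, `E z z'`, `z ∈ R i`,
`z' ∈ U \ R i`; the `z'` with less than `(ε / (2 C)) N` such `z` account for at most
`(ε / (2 C)) N |U| ≤ (ε / 2) N ^ (r+1)` pairs; every other `z'` for at most `N`; so there are at
least `(ε / 2) N ^ r` states `z' ∈ U \ R i` with at least `(ε / (2 C)) N` in-neighbours in `R i`; by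
pigeonhole (`i + 1` lengths) one `m` serves `(ε / (2 C (i+1))) N` of them, and
`wk (m+1) s z' ≥ (ε / (2 C (i+1))) N θ i N ^ (m - r) ≥ θ (i+1) N ^ (m + 1 - r)`, so
`z' ∈ R (i+1)`.  So `|R (i+1)| ≥ |R i| + (ε / 2) N ^ r` as long as `|U \ R i| > β N ^ r`, hence
`|U \ R I| ≤ β N ^ r` for `I = ⌈2 C / ε⌉ + 1`.  The same for the reversed digraph: the set `B` of
`z ∈ U` with `wk m' z t ≥ θ I N ^ (m' - r)` for some `m'` in `[r, r + I]` has `|U \ B| ≤ β N ^ r`.
So `|R I ∩ B| ≥ (u₀ - 2 β) N ^ r`; by pigeonhole at least `(u₀ - 2 β) / (I+1)² N ^ r` states `z`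
have the same pair `(m, m')`, and `wk (m + m') s t ≥ ∑_z wk m s z · wk m' z t`. -/
def ReaStmt : Prop :=
  ∀ (r : ℕ) (C ε β c₁ u₀ : ℝ), 0 < C → 0 < ε → 0 < β → 2 * β < c₁ → 2 * β < u₀ →
    ∃ (M : ℕ) (c : ℝ), 0 < c ∧
    ∀ (Ω : Type) [Fintype Ω] (E : Ω → Ω → Prop) (N : ℝ) (U : Set Ω), 0 < N →
      (∀ t, ({z | E z t}.ncard : ℝ) ≤ N) → (∀ s, ({z | E s z}.ncard : ℝ) ≤ N) →
      (∀ s t, wk E r s t ≤ 1) → (U.ncard : ℝ) ≤ C * N ^ r → u₀ * N ^ r ≤ U.ncard →
      (∀ D ⊆ U, ε * N ^ (r + 1) ≤ ({p : Ω × Ω | p.1 ∈ D ∧ p.2 ∈ U \ D ∧ E p.1 p.2}.ncard : ℝ) ∨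
        (D.ncard : ℝ) ≤ β * N ^ r ∨ ((U \ D).ncard : ℝ) ≤ β * N ^ r) →
      ∀ s t : Ω, c₁ * N ^ r ≤ (∑ᶠ z ∈ U, (wk E r s z : ℝ)) →
        c₁ * N ^ r ≤ (∑ᶠ z ∈ U, (wk E r z t : ℝ)) →
        ∃ m ≤ M, 2 * r ≤ m ∧ c * N ^ (m - r) ≤ wk E m s t

section
variable {V : Type} [Fintype V] [DecidableEq V]

/-- States: an ordered tuple of `d + 1 = k - 1` vertices and a time modulo `k = d + 2`. -/
abbrev Sta (V : Type) (d : ℕ) : Type := (Fin (d + 1) → V) × ZMod (d + 2)

/-- Tight step: forget the first vertex, append a new one which forms an edge with the tuple. -/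
def St (H : Finset (Finset V)) {d : ℕ} (s t : Sta V d) : Prop :=
  t.2 = s.2 + 1 ∧ Fin.init t.1 = Fin.tail s.1 ∧
    insert (t.1 (Fin.last d)) (Finset.univ.image s.1) ∈ H

/-- `U` is indecomposable: no `D ⊆ U` with `β n^(k-1) < |D|, |U \ D|` and less than `ε n^k`
steps from `D` to `U \ D`. -/
def Indec (H : Finset (Finset V)) {d : ℕ} (U : Set (Sta V d)) (ε β : ℝ) : Prop :=
  ∀ D ⊆ U, ε * (Fintype.card V : ℝ) ^ (d + 2) ≤
      ({p : Sta V d × Sta V d | p.1 ∈ D ∧ p.2 ∈ U \ D ∧ St H p.1 p.2}.ncard : ℝ) ∨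
    (D.ncard : ℝ) ≤ β * (Fintype.card V : ℝ) ^ (d + 1) ∨
    ((U \ D).ncard : ℝ) ≤ β * (Fintype.card V : ℝ) ^ (d + 1)

/-- Many walks with `k - 1` steps lead from `s` into `U`. -/
def GoodF (H : Finset (Finset V)) {d : ℕ} (U : Set (Sta V d)) (c : ℝ) (s : Sta V d) : Prop :=
  c * (Fintype.card V : ℝ) ^ (d + 1) ≤ ∑ᶠ z ∈ U, (wk (St H) (d + 1) s z : ℝ)

/-- Many walks with `k - 1` steps lead from `U` to `s`. -/
def GoodB (H : Finset (Finset V)) {d : ℕ} (U : Set (Sta V d)) (c : ℝ) (s : Sta V d) : Prop :=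
  c * (Fintype.card V : ℝ) ^ (d + 1) ≤ ∑ᶠ z ∈ U, (wk (St H) (d + 1) z s : ℝ)

end

/-- **WKT** (walks = sequences).  For `m ≥ d + 1` the number of walks with `m` steps from `(a, t)` to
`(b, t')` is the number of `w : Fin (m - (d+1)) → V` such that `a w b` is tight (every `d + 2`
consecutive entries form an edge) if `t' = t + m`, and `0` otherwise.

PROOF.  A walk with `m` steps from `(a, t)` is a sequence `x_1, ..., x_m` of vertices such that every
window of length `d + 2` of `a x_1 ... x_m` is an edge (as a set; an edge has `d + 2` elements by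
`Uni`, so windows have distinct entries), it ends in the tuple of the last `d + 1` entries of
`a x_1 ... x_m` and at time `t + m` (induction on `m`, one step = one more window).  For
`m ≥ d + 1` this last tuple is `x_(m-d), ..., x_m`, so walks to `b` are the sequences `w b`. -/
def WktStmt : Prop :=
  ∀ (d m : ℕ) (V : Type) [Fintype V] [DecidableEq V] (H : Finset (Finset V)), Uni H (d + 2) →
    d + 1 ≤ m → ∀ (a b : Fin (d + 1) → V) (t t' : ZMod (d + 2)),
      (t' = t + m → wk (St H) m (a, t) (b, t') =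
        {w : Fin (m - (d + 1)) → V |
          Tight H (d + 2) (List.ofFn a ++ List.ofFn w ++ List.ofFn b)}.ncard) ∧
      (t' ≠ t + m → wk (St H) m (a, t) (b, t') = 0)

/-- **JON** (joining inside an indecomposable class).

PROOF.  REA with `Ω = Sta V d`, `E = St H`, `N = n`, `r = d + 1`, `C = d + 2`: a state has at most
`n` successors and at most `n` predecessors (the new vertex / the dropped vertex determines it), two
states are joined by at most one walk with exactly `d + 1` steps (WKT with `m = d + 1`: the only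
candidate is `w` empty), `|Ω| = (d + 2) n ^ (d + 1)`.  It gives `m` (`2 (d+1) ≤ m ≤ M`) and at least
`c n ^ (m - (d+1))` walks; by WKT `t' = t + m` and, with `m' = m - (d+1)`, there are at least
`c n ^ m'` functions `w : Fin m' → V` with `a w b` tight.  Remove those for which `a w b` has a
repeated entry: `a`, `b` are injective and disjoint, so a repetition involves an entry of `w`; at most
`(m' + 2 (d+1))² n ^ (m' - 1) ≤ (c / 2) n ^ m'` functions for large `n` (`m' ≥ d + 1 ≥ 1`). -/
def JonStmt : Prop :=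
  ∀ (d : ℕ) (ε β c₁ u₀ : ℝ), 0 < ε → 0 < β → 2 * β < c₁ → 2 * β < u₀ →
    ∃ (M : ℕ) (c : ℝ) (n₀ : ℕ), 0 < c ∧
    ∀ (V : Type) [Fintype V] [DecidableEq V] (H : Finset (Finset V)), n₀ ≤ Fintype.card V →
      Uni H (d + 2) → ∀ U : Set (Sta V d), u₀ * (Fintype.card V : ℝ) ^ (d + 1) ≤ U.ncard →
      Indec H U ε β →
      ∀ (a b : Fin (d + 1) → V) (t t' : ZMod (d + 2)), Function.Injective a →
        Function.Injective b → Disjoint (Set.range a) (Set.range b) →
        GoodF H U c₁ (a, t) → GoodB H U c₁ (b, t') →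
        ∃ m ≤ M, t' = t + m + (d + 1) ∧
          c * (Fintype.card V : ℝ) ^ m ≤ con H (d + 2) m (List.ofFn a) (List.ofFn b)

/-! ## Swap chains and gadgets -/

/-- **CHN** (swap chains of length exactly 4).  `S` a graph on `V` such that of any three vertices two
are adjacent, all degrees are `≥ δ n`, and every partition `(A, V \ A)` with both parts of size
`≥ (δ / 2) n` has at least `κ n²` crossing pairs.  Then any two vertices `y, z` are joined by at least
`c n³` chains `y, v₁, v₂, v₃, z`.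

PROOF.  `κ' = δ² / 16`, `N(x)` = neighbourhood.  For a set `A` the nonadjacent pairs in `A` form a
triangle-free graph, so (Mantel) there are at least `|A|² / 2 - |A|` ordered adjacent pairs in `A`
(*).  CASE A: at least `κ' n²` pairs `(u, w)`, `u ∈ N(y)`, `w ∈ N(z)`, `S u w`.  Let `A` be the set of
`u ∈ N(y)` with at least `κ' n / 2` neighbours in `N(z)`; `|A| ≥ κ' n / 2`; by (*) there are at least
`|A|² / 2 - |A|` ordered pairs `(v, u)` in `A`, `S v u`, and each gives at least `κ' n / 2` chains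
`y, v, u, w, z`.  CASE B: less than `κ' n²` such pairs.  `I = N(y) ∩ N(z)`: by (*) `|I|² / 2 - |I| <
κ' n²`, so `|I| < (δ / 2) n` for large `n`.  Let `W = N(z) \ I ⊆ V \ N(y)`, `|W| ≥ (δ / 2) n`.  The
partition `(N(y), V \ N(y))` has both parts `≥ (δ / 2) n`, so at least `κ n²` pairs `(u, v)`,
`u ∈ N(y)`, `v ∉ N(y)`, `S u v`.  If `v ≠ y`, `w ∈ W`, `w ≠ v`, `w ≠ y` then `v` and `w` are not
adjacent to `y`, so `S v w` (three distinct vertices `y, v, w`), and `y, u, v, w, z` is a chain: at
least `(κ n² - n) ((δ / 2) n - 2)`. -/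
def ChnStmt : Prop :=
  ∀ (δ κ : ℝ), 0 < δ → δ ≤ 1 → 0 < κ → ∃ (c : ℝ) (n₀ : ℕ), 0 < c ∧
    ∀ (V : Type) [Fintype V] [DecidableEq V], n₀ ≤ Fintype.card V →
    ∀ S : V → V → Prop, (∀ x y, S x y → S y x) →
      (∀ x y z, x ≠ y → y ≠ z → x ≠ z → S x y ∨ S y z ∨ S x z) →
      (∀ x, δ * Fintype.card V ≤ {y | S x y}.ncard) →
      (∀ A : Set V, δ / 2 * Fintype.card V ≤ A.ncard → δ / 2 * Fintype.card V ≤ Aᶜ.ncard →
        κ * (Fintype.card V : ℝ) ^ 2 ≤ ({p : V × V | p.1 ∈ A ∧ p.2 ∉ A ∧ S p.1 p.2}.ncard : ℝ)) →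
      ∀ y z : V, c * (Fintype.card V : ℝ) ^ 3 ≤
        ({v : V × V × V | S y v.1 ∧ S v.1 v.2.1 ∧ S v.2.1 v.2.2 ∧ S v.2.2 z}.ncard : ℝ)

/-- `u` and `v` can be exchanged in many segments: at least `c n^(2(k-1))` tuples `p` such that
`p₁ .. p_(k-1) u p_k .. p_(2k-2)` and the same with `v` are tight paths with both end tuples in one
class. -/
def Swp {V I : Type} [Fintype V] [DecidableEq V] (H : Finset (Finset V)) (k : ℕ)
    (T : I → Set (List V)) (c : ℝ) (u v : V) : Prop :=
  c * (Fintype.card V : ℝ) ^ (2 * (k - 1)) ≤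
    ({p : (Fin (k - 1) → V) × (Fin (k - 1) → V) | ∃ i,
      Seg H k (T i) (T i) (List.ofFn p.1 ++ [u] ++ List.ofFn p.2) ∧
      Seg H k (T i) (T i) (List.ofFn p.1 ++ [v] ++ List.ofFn p.2)}.ncard : ℝ)

/-- Lengths of the pieces of a `k`-gadget: `4 k` segments `p u p'` and one block `b b'`. -/
def gadLen (k : ℕ) : List ℕ := List.replicate (4 * k) (2 * (k - 1) + 1) ++ [2 * k]

/-- **GDC** (number of gadgets).  If there are many optional blocks (`b b'` segment, `b z b'` path)
and every two vertices are joined by many swap chains of length 4 then every `k`-tuple `y` has at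
least `c n ^ M` gadgets, `M = (gadLen k).sum`.

PROOF.  Choose an optional block `(b, z, b')` (`≥ c_b n ^ (3k)`), for every `i < k` a chain
`y i = v i 0, v i 1, v i 2, v i 3, v i 4 = z i` with `Swp` consecutive (`≥ c₃ n³` each), and for every
`i < k`, `j = 1..4` a tuple `p i j` exchanging `v i (j-1)` and `v i j` (`≥ c_s n ^ (2(k-1))` each).
The vertex list `u`: the pieces `p₁ v i j p₂` (`i < k`, `1 ≤ j ≤ 4`; here `v i 4 = z i`) followed by
`b b'`; it determines all choices, so there are at least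
`c_b c₃ ^ k c_s ^ (4k) n ^ (3k + 3k + 8k(k-1))` lists `u`, and `M = 4k(2(k-1)+1) + 2k` is the same
exponent.  Remove those with a repetition in `u ++ y` (at most `(M + k)² n ^ (M-1)`, `y` injective).
For the others `Gad` holds: the pieces are segments by `Swp` and by the choice of the block; the
replaced pieces are `p₁ v i (j-1) p₂` and `b z b'`; they have the same first and last `k - 1` entries
and their vertices are all `p`, all `v i j` with `0 ≤ j ≤ 3` (`v i 0 = y i`), `z i = v i 4`, `b`, `b'`: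
exactly `u` and `y`. -/
def GdcStmt : Prop :=
  ∀ (k : ℕ) (c_b c₃ c_s : ℝ), 2 ≤ k → 0 < c_b → 0 < c₃ → 0 < c_s →
    ∃ (c : ℝ) (n₀ : ℕ), 0 < c ∧
    ∀ (V I : Type) [Fintype V] [DecidableEq V] (H : Finset (Finset V)) (T : I → Set (List V)),
      n₀ ≤ Fintype.card V → (∀ i, Tup k (T i)) →
      c_b * (Fintype.card V : ℝ) ^ (3 * k) ≤
        ({b : (Fin k → V) × (Fin k → V) × (Fin k → V) |
          (∃ i, Seg H k (T i) (T i) (List.ofFn b.1 ++ List.ofFn b.2.2)) ∧
          Path H k (List.ofFn b.1 ++ List.ofFn b.2.1 ++ List.ofFn b.2.2)}.ncard : ℝ) →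
      (∀ y z : V, c₃ * (Fintype.card V : ℝ) ^ 3 ≤
        ({v : V × V × V | Swp H k T c_s y v.1 ∧ Swp H k T c_s v.1 v.2.1 ∧
          Swp H k T c_s v.2.1 v.2.2 ∧ Swp H k T c_s v.2.2 z}.ncard : ℝ)) →
      ∀ y : Fin k → V, Function.Injective y →
        c * (Fintype.card V : ℝ) ^ (gadLen k).sum ≤
          ({u : Fin (gadLen k).sum → V |
            Gad H k T (gadLen k) (List.ofFn u) (List.ofFn y)}.ncard : ℝ)

/-! ## Weaving segments together -/

/-- `p₁ w₁ p₂ w₂ p₃ ...` (connectors `w` between consecutive segments `p`; a missing connector is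
empty). -/
def weave {V : Type} : List (List V) → List (List V) → List V
  | [], _ => []
  | [p], _ => p
  | p :: q :: ps, [] => p ++ weave (q :: ps) []
  | p :: q :: ps, w :: ws => p ++ w ++ weave (q :: ps) ws

/-- **RPL** (replacing segments).  If `weave ps ws` is tight, all segments have length `≥ k - 1`, and
each `p` is replaced by a tight `q` with the same first and last `k - 1` entries, then
`weave qs ws` is tight and has the same first and last `k - 1` entries.  Also in the cyclic version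
(last connector `e` leading back to the start).

PROOF.  (`r = k - 1`.)  A window of length `k = r + 1` of `weave qs ws` which is not inside one `q`
meets a connector or two segments; since every `q` has length `≥ r`, a window which contains an entry
outside `q` contains at most `r` entries of `q`, and they are among its first `r` or last `r` entries
(it cannot contain entries on both sides of `q`).  So the window occurs also in `weave ps ws`, where
`q` is replaced by `p` with the same first and last `r` entries.  A clean induction: if `u ++ a` and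
`a ++ v` are tight and `|a| ≥ r` then `u ++ a ++ v` is tight; write `q = a ++ q' ++ b`
(`a`, `b` = first and last `r` entries, overlapping if `|q| < 2 r`). -/
def RplStmt : Prop :=
  ∀ (k : ℕ) (V : Type) [Fintype V] [DecidableEq V] (H : Finset (Finset V)), 2 ≤ k →
    ∀ (ps qs ws : List (List V)), ps ≠ [] →
      List.Forall₂ (fun p q => SameEnds (k - 1) p q ∧ k - 1 ≤ p.length ∧ k - 1 ≤ q.length ∧
        Tight H k q) ps qs →
      (Tight H k (weave ps ws) → Tight H k (weave qs ws) ∧
        SameEnds (k - 1) (weave ps ws) (weave qs ws)) ∧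
      ∀ e : List V, Tight H k (weave ps ws ++ e ++ (weave ps ws).take (k - 1)) →
        Tight H k (weave qs ws ++ e ++ (weave qs ws).take (k - 1))

/-- **GRJ** (greedy joining).  Segments with both ends in `T`, few compared with `c n`, can be joined
to one segment by connectors which avoid a given small set `W`.

PROOF.  Induction on the number of segments: join the last tuple `a` of the path constructed so far
with the first tuple `b` of the next segment (`a`, `b` disjoint, in `T`): `Joins` gives `m ≤ M` and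
`≥ c n ^ m` functions `w` with `a w b` a tight path; at most `m |Z| n ^ (m-1)` of them meet the set
`Z` of all vertices in `W`, in segments or in earlier connectors, `|Z| ≤ |W| + (number of vertices of
the segments) + M (number of segments)`; since `M |Z| < c n` some `w` avoids `Z` (if `m = 0` there is
nothing to avoid).  The longer list is tight by the concatenation lemma in RPL. -/
def GrjStmt : Prop :=
  ∀ (k M : ℕ) (c : ℝ) (V : Type) [Fintype V] [DecidableEq V] (H : Finset (Finset V))
    (T : Set (List V)), 2 ≤ k → 0 < c → Tup k T → Joins H k T c M →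
    ∀ (ps : List (List V)) (W : Finset V), ps ≠ [] → (∀ p ∈ ps, Seg H k T T p) →
      ps.flatten.Nodup →
      (M : ℝ) * (W.card + ps.flatten.length + M * ps.length) < c * Fintype.card V →
      ∃ ws : List (List V), ws.length + 1 = ps.length ∧ (∀ w ∈ ws, w.length ≤ M) ∧
        (∀ w ∈ ws, ∀ v ∈ w, v ∉ W) ∧ (ps.flatten ++ ws.flatten).Nodup ∧
        (weave ps ws).Perm (ps.flatten ++ ws.flatten) ∧ Seg H k T T (weave ps ws)

/-- `T` contains tuples outside every set of at most `c n` vertices. -/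
def Rich {V : Type} [Fintype V] (T : Set (List V)) (c : ℝ) : Prop :=
  ∀ W : Finset V, (W.card : ℝ) ≤ c * Fintype.card V → ∃ a ∈ T, ∀ v ∈ a, v ∉ W

/-- **ABS** (absorbing paths).  For `γ ≤ γ₀` and large `n`: one path `A i` in every class, at most
`γ n` vertices in total, avoiding a given set of at most `C` vertices, such that any `≤ c' γ n`
disjoint `k`-lists outside can be absorbed.

PROOF.  `M' = ls.sum`, `I = Fin q`.  FAM (with `M'`, `e = k`, `ξ = c`) for the demands
`D_y = {u : Gad ...}`, `y` injective: family `F₀`, `|F₀| ≤ γ' n`, at least `(γ' c / 8) n` members in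
every `D_y`; here `γ' = γ / K`, `K = 2 (M' + M ls.length + 1)`.  Let `F` be the set of `u ∈ F₀` which
are disjoint from `W` and which are gadgets for at least one `y`; at least `(γ' c / 8) n - C` members
of every `D_y` remain.  All pieces `ls.splitLengths u`, `u ∈ F`, are segments of some class.  For
`i : I` let `ps i` be the list of all pieces of class `i` (choose one class for every piece) and one
extra tuple `a i ∈ T i` (by `Rich`, disjoint from everything used).  By GRJ, for one class after the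
other, join `ps i` to `A i = weave (ps i) (ws i)`, avoiding `W`, all pieces and all former
connectors; the total number of vertices is at most
`γ' n M' + (number of pieces) M + q (k - 1 + M) ≤ γ n`, and `M · (total) < c n` for small `γ`.
ABSORBING: given lists `y 1, .., y s` (`s ≤ c' γ n`, `c' γ < γ' c / 8` minus a bit; for instance
`c' = c / (32 K)`), choose distinct `u 1, .., u s ∈ F` with `Gad (u j) (y j)` greedily; replace the
pieces of `u j` by the pieces `Q` of the definition of `Gad`; by RPL the woven lists stay tight with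
the same end tuples, and the vertices are those of the `A i` together with the `y j`. -/
def AbsStmt : Prop :=
  ∀ (k M q C : ℕ) (ls : List ℕ) (c : ℝ), 2 ≤ k → 0 < c → 0 < q → 0 < ls.sum →
    ∃ (c' γ₀ : ℝ), 0 < c' ∧ 0 < γ₀ ∧ ∀ γ : ℝ, 0 < γ → γ ≤ γ₀ → ∃ n₀ : ℕ,
    ∀ (V : Type) [Fintype V] [DecidableEq V] (H : Finset (Finset V))
      (T : Fin q → Set (List V)), n₀ ≤ Fintype.card V → (∀ i, Tup k (T i)) →
      (∀ i, Joins H k (T i) c M) → (∀ i, Rich (T i) c) →
      (∀ y : Fin k → V, Function.Injective y → c * (Fintype.card V : ℝ) ^ ls.sum ≤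
        ({u : Fin ls.sum → V | Gad H k T ls (List.ofFn u) (List.ofFn y)}.ncard : ℝ)) →
      ∀ W : Finset V, W.card ≤ C →
      ∃ A : Fin q → List V, (∀ i, Seg H k (T i) (T i) (A i)) ∧
        (List.ofFn A).flatten.Nodup ∧ (∀ i, ∀ v ∈ A i, v ∉ W) ∧
        ((List.ofFn A).flatten.length : ℝ) ≤ γ * Fintype.card V ∧
        ∀ ys : List (List V), (∀ y ∈ ys, y.length = k) →
          ((List.ofFn A).flatten ++ ys.flatten).Nodup →
          (ys.length : ℝ) ≤ c' * γ * Fintype.card V →
          ∃ B : Fin q → List V, (∀ i, Path H k (B i) ∧ SameEnds (k - 1) (A i) (B i)) ∧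
            (List.ofFn B).flatten.Perm ((List.ofFn A).flatten ++ ys.flatten)

/-- **CNF** (connector family).  For `γ ≤ γ₀` and large `n`, given a set `W` of at most `c' n`
vertices, there is a set `F` of pairwise disjoint lists outside `W` with at most `γ n` vertices in
total such that any two disjoint tuples `a, b` of the same class either form a path `a b` or have at
least `c' γ n` connectors `w ∈ F` (`a w b` a tight path).

PROOF.  For `m = 1, .., M` one after the other apply FAM (tuple length `m`, `ξ = c / 2`) to the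
demands `D_(i,a,b)` = set of `w : Fin m → V` with `a w b` a tight path and `w` disjoint from `W` and
from the families for smaller `m`, for all `i`, `a, b ∈ T i` disjoint for which `Joins` provides
exactly this `m`.  (At most `q n ^ (2(k-1)) ≤ n ^ (2k-1)` demands; `|D| ≥ c n ^ m -
m |Z| n ^ (m-1) ≥ (c / 2) n ^ m` if `|Z| ≤ (c / (2 M)) n`.)  The family for `m` has at most
`(γ / (M (M+1))) n` members, hence at most `(γ / (M+1)) n` vertices.  If `Joins` provides `m = 0` then
`con > 0` says that `a b` is a tight path. -/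
def CnfStmt : Prop :=
  ∀ (k M q : ℕ) (c : ℝ), 2 ≤ k → 0 < c →
    ∃ (c' γ₀ : ℝ), 0 < c' ∧ 0 < γ₀ ∧ ∀ γ : ℝ, 0 < γ → γ ≤ γ₀ → ∃ n₀ : ℕ,
    ∀ (V : Type) [Fintype V] [DecidableEq V] (H : Finset (Finset V))
      (T : Fin q → Set (List V)), n₀ ≤ Fintype.card V → (∀ i, Tup k (T i)) →
      (∀ i, Joins H k (T i) c M) →
      ∀ W : Finset V, (W.card : ℝ) ≤ c' * Fintype.card V →
      ∃ F : List (List V), F.flatten.Nodup ∧ F.Nodup ∧ (∀ w ∈ F, w ≠ []) ∧
        (∀ v ∈ F.flatten, v ∉ W) ∧
        (F.flatten.length : ℝ) ≤ γ * Fintype.card V ∧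
        ∀ i, ∀ a ∈ T i, ∀ b ∈ T i, a.Disjoint b → Path H k (a ++ b) ∨
          c' * γ * Fintype.card V ≤ ({w : List V | w ∈ F ∧ Path H k (a ++ w ++ b)}.ncard : ℝ)

/-- **JSQ** (joining a sequence with connectors from a family).  `ps` a list of disjoint segments,
consecutive ones `p, p'` have last tuple and first tuple in a common class; `F` a list of disjoint
connectors, disjoint from the segments, with at least `ps.length` connectors for every pair of
disjoint tuples of a class which do not form a path directly.  Then `ps` can be joined.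

PROOF.  Induction (from the left): for the next pair either use the empty connector or one of the
at least `ps.length` suitable connectors which has not been used (at most `ps.length - 1` are used).
Concatenation lemma as in RPL: `u ++ a`, `a ++ w ++ b`, `b ++ v` tight with `|a|, |b| ≥ k - 1`. -/
def JsqStmt : Prop :=
  ∀ (k q : ℕ) (V : Type) [Fintype V] [DecidableEq V] (H : Finset (Finset V))
    (T : Fin q → Set (List V)) (F : List (List V)) (ps : List (List V)), 2 ≤ k →
    (∀ i, Tup k (T i)) → F.Nodup → ps ≠ [] →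
    (ps.flatten ++ F.flatten).Nodup → (∀ w ∈ F, w ≠ []) →
    (∀ p ∈ ps, Path H k p ∧ k - 1 ≤ p.length) →
    ps.IsChain (fun p p' => ∃ i, p.drop (p.length - (k - 1)) ∈ T i ∧ p'.take (k - 1) ∈ T i) →
    (∀ i, ∀ a ∈ T i, ∀ b ∈ T i, a.Disjoint b → Path H k (a ++ b) ∨
      ps.length ≤ {w : List V | w ∈ F ∧ Path H k (a ++ w ++ b)}.ncard) →
    ∃ ws : List (List V), ws.length + 1 = ps.length ∧ (∀ w ∈ ws, w = [] ∨ w ∈ F) ∧
      (ps.flatten ++ ws.flatten).Nodup ∧
      (weave ps ws).Perm (ps.flatten ++ ws.flatten) ∧ Path H k (weave ps ws) ∧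
      (weave ps ws).take (k - 1) = (ps.head!).take (k - 1) ∧
      (weave ps ws).drop ((weave ps ws).length - (k - 1)) =
        (ps.getLast!).drop ((ps.getLast!).length - (k - 1))

/-! ## Assembly -/

/-- Covering property: outside every set `W` of at most `γ n` vertices there are disjoint segments
(each with both ends in one class), each with at least `L` vertices, which cover all but `ξ n`
vertices. -/
def Cov {V : Type} [Fintype V] [DecidableEq V] {q : ℕ} (H : Finset (Finset V)) (k : ℕ)
    (T : Fin q → Set (List V)) (γ ξ : ℝ) (L : ℕ) : Prop :=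
  ∀ W : Finset V, (W.card : ℝ) ≤ γ * Fintype.card V →
    ∃ ps : List (List V), ps.flatten.Nodup ∧ (∀ v ∈ ps.flatten, v ∉ W) ∧
      (∀ p ∈ ps, L ≤ p.length ∧ ∃ i, Seg H k (T i) (T i) p) ∧
      (Fintype.card V : ℝ) - W.card - ps.flatten.length ≤ ξ * Fintype.card V

/-- A closed tour through all classes: classes `j 0, ..., j t`, `j 0 = j t = i₀`, every class
occurs, and disjoint crossing paths `x l` from `j l` to `j (l+1)` with at most `C` vertices in
total. -/
def Tour {V : Type} [Fintype V] [DecidableEq V] {q : ℕ} (H : Finset (Finset V)) (k : ℕ)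
    (T : Fin q → Set (List V)) (i₀ : Fin q) (C : ℕ) : Prop :=
  ∃ (t : ℕ) (j : ℕ → Fin q) (x : Fin t → List V), j 0 = i₀ ∧ j t = i₀ ∧
    (∀ i, ∃ l ≤ t, j l = i) ∧ (∀ l : Fin t, Seg H k (T (j l)) (T (j (l + 1))) (x l)) ∧
    (List.ofFn x).flatten.Nodup ∧ (List.ofFn x).flatten.length ≤ C

/-- **ASM** (assembly theorem).  Classes `T i` with `Joins`, one class `i₀` with `JoinsAll`, gadgets
for all `k`-tuples, a closed tour and the covering property give a tight Hamilton cycle.

PROOF.  Constants: `c₁, γ₁₀` from ABS with `C' = C + 2 k + k (M + 1)`, `c₂, γ₂₀` from CNF.  Choose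
`γ₁ ≤ γ₁₀`, `2 γ₁ ≤ c₂ / 2`, `3 γ₁ ≤ 1 / 200`; then `γ₂ ≤ γ₂₀` with `γ₂ ≤ c₁ γ₁ k / 4`,
`γ₂ ≤ γ₁`, `ξ = c₁ γ₁ k / 4`, `L` with `2 / L ≤ c₂ γ₂`, `n₀` large (so `C' ≤ γ₁ n`).
(1) `W₀` = vertices of the crossing paths.  Choose `a, b ∈ T i₀` disjoint from each other and from
`W₀` (`Rich`), and for `t < k` connectors `w t` with `a (w t) b` a tight path, `|w t| ≡ t` mod `k`,
`|w t| ≤ M`, pairwise disjoint and disjoint from `W₀` (`JoinsAll`, greedily).
`W₁ = W₀ ∪ a ∪ b ∪ ⋃ w t`, `|W₁| ≤ C'`.
(2) ABS: paths `A i`, avoiding `W₁`, at most `γ₁ n` vertices.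
(3) CNF with `W₂ = W₁ ∪ ⋃ A i`: family `F`, at most `γ₂ n` vertices, `c₂ γ₂ n` connectors for each
pair.
(4) `Cov` with `W₃ = W₂ ∪ F` (at most `(γ₁ + γ₂) n + C' ≤ n / 200`): segments `ps`, at most `n / L` of
them, uncovered at most `ξ n`.
(5) The sequence of segments: `b`, [group `0`], `x 0`, [group 1], `x 1`, ..., `x (t-1)`, [group `t`],
`a`; here every class `i` is assigned to one index `l(i) ≤ t` with `j (l(i)) = i`, and group `l`
consists of `A i` and all `p ∈ ps` of class `i`, for the `i` with `l(i) = l`.  Consecutive ends lie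
in the class `j l`.  Number of segments `≤ n / L + q + t + 2 ≤ c₂ γ₂ n`.  JSQ gives a path `P` from
`b` to `a` through all of them with connectors from `F`.
(6) Let `u = |P|`, `t₀ ≡ n - u` mod `k`, `t₀ < k`.  Close by `w t₀`: `P ++ w t₀ ++ b` is tight
(first tuple of `P` is `b`).  The vertices outside `P` and `w t₀` are unused connectors, the other
`w t` and the uncovered ones: at most `γ₂ n + k (M+1) + ξ n ≤ c₁ γ₁ k n` and their number is divisible
by `k`; cut them into lists `ys` of length `k`, `|ys| ≤ c₁ γ₁ n`.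
(7) ABS: replace `A i` by `B i`.  By RPL (cyclic version, only the segments `A i` are replaced) the
cyclic list stays tight, it is a permutation of all vertices. -/
def AsmStmt : Prop :=
  ∀ (k M q C : ℕ) (ls : List ℕ) (c : ℝ), 2 ≤ k → 0 < c → 0 < q → 0 < ls.sum →
    ∃ (ξ : ℝ) (L n₀ : ℕ), 0 < ξ ∧
    ∀ (V : Type) [Fintype V] [DecidableEq V] (H : Finset (Finset V))
      (T : Fin q → Set (List V)) (i₀ : Fin q), n₀ ≤ Fintype.card V → (∀ i, Tup k (T i)) →
      (∀ i, Joins H k (T i) c M) → JoinsAll H k (T i₀) c M → (∀ i, Rich (T i) c) →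
      (∀ y : Fin k → V, Function.Injective y → c * (Fintype.card V : ℝ) ^ ls.sum ≤
        ({u : Fin ls.sum → V | Gad H k T ls (List.ofFn u) (List.ofFn y)}.ncard : ℝ)) →
      Tour H k T i₀ C → Cov H k T (1 / 200) ξ L → Ham H k

/-! ## From classes to swaps, blocks, covering -/

/-- Number of `(k-1)`-tuples `f` which form an edge with `u` and with `v`. -/
noncomputable def comm {V : Type} [Fintype V] [DecidableEq V] (H : Finset (Finset V)) (k : ℕ)
    (u v : V) : ℕ :=
  {f : Fin (k - 1) → V | u ∉ Finset.univ.image f ∧ v ∉ Finset.univ.image f ∧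
    insert u (Finset.univ.image f) ∈ H ∧ insert v (Finset.univ.image f) ∈ H}.ncard

/-- **SWC** (swaps from common links).

PROOF.  By pigeonhole one class `i` has at least `(ρ / q) n ^ (k-1)` of the tuples; let `E` be the set
of them.  CKQ with `r = k - 1`, `q = 2`: at least `(ρ / q) ^ (2 ^ (k-1)) n ^ (2(k-1))` families
`x : Fin (k-1) → Fin 2 → V` with all transversals in `E`; at most `(2 k)² n ^ (2(k-1) - 1)` of them
are not injective as functions of both indices (`u`, `v` are never among the entries because every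
entry lies on a transversal in `E`).  For the others put `p.1 = x · 0`, `p.2 = x · 1`.  Every window
of length `k` of `p.1 ++ [u] ++ p.2` (length `2k - 1`) contains the middle entry `u`, and the rest of
it is the transversal with `x j 1` for `j ≤ l` and `x j 0` for `j > l`, so it is an edge; the same for
`v`.  The end tuples `p.1`, `p.2` are in `E`, so in `T i`. -/
def SwcStmt : Prop :=
  ∀ (k q : ℕ) (ρ : ℝ), 2 ≤ k → 0 < q → 0 < ρ → ∃ (c : ℝ) (n₀ : ℕ), 0 < c ∧
    ∀ (V : Type) [Fintype V] [DecidableEq V] (H : Finset (Finset V))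
      (T : Fin q → Set (List V)), n₀ ≤ Fintype.card V → Uni H k → (∀ i, Tup k (T i)) →
      ∀ u v : V, ρ * (Fintype.card V : ℝ) ^ (k - 1) ≤
        ({f : Fin (k - 1) → V | (∃ i, List.ofFn f ∈ T i) ∧
          u ∉ Finset.univ.image f ∧ v ∉ Finset.univ.image f ∧
          insert u (Finset.univ.image f) ∈ H ∧ insert v (Finset.univ.image f) ∈ H}.ncard : ℝ) →
        Swp H k T c u v

/-- The list `l` is an edge with initial and final `(k-1)`-tuple in `T`. -/
def EdgeIn {V : Type} [Fintype V] [DecidableEq V] (H : Finset (Finset V)) (k : ℕ)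
    (T : Set (List V)) (l : List V) : Prop :=
  l.Nodup ∧ l.length = k ∧ l.toFinset ∈ H ∧ l.take (k - 1) ∈ T ∧ l.drop 1 ∈ T

/-- **BLK** (optional blocks).

PROOF.  Pigeonhole for the class, then CKQ with `r = k`, `q = 3` for `E` = tuples `f` with
`EdgeIn H k (T i) (ofFn f)`; remove the non-injective families; `b = x · 0`, `z = x · 1`,
`b' = x · 2`.  Windows of length `k` of `b b'` and of `b z b'` are (rotated) transversals, so they are
edges; first `k - 1` entries of `b`: `take` of a transversal; last `k - 1` entries of `b'`: `drop 1` of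
a transversal. -/
def BlkStmt : Prop :=
  ∀ (k q : ℕ) (ρ : ℝ), 2 ≤ k → 0 < q → 0 < ρ → ∃ (c : ℝ) (n₀ : ℕ), 0 < c ∧
    ∀ (V : Type) [Fintype V] [DecidableEq V] (H : Finset (Finset V))
      (T : Fin q → Set (List V)), n₀ ≤ Fintype.card V → Uni H k → (∀ i, Tup k (T i)) →
      ρ * (Fintype.card V : ℝ) ^ k ≤
        ({f : Fin k → V | ∃ i, EdgeIn H k (T i) (List.ofFn f)}.ncard : ℝ) →
      c * (Fintype.card V : ℝ) ^ (3 * k) ≤
        ({b : (Fin k → V) × (Fin k → V) × (Fin k → V) |
          (∃ i, Seg H k (T i) (T i) (List.ofFn b.1 ++ List.ofFn b.2.2)) ∧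
          Path H k (List.ofFn b.1 ++ List.ofFn b.2.1 ++ List.ofFn b.2.2)}.ncard : ℝ)

/-- `B` is a block of size `s`: disjoint `s`-sets `B 0, ..., B (k-1)`, all transversals (in this
order) are edges with both end tuples in one class. -/
def Block {V : Type} [Fintype V] [DecidableEq V] {q : ℕ} (H : Finset (Finset V)) (k : ℕ)
    (T : Fin q → Set (List V)) (s : ℕ) (B : Fin k → Finset V) : Prop :=
  (∀ j, (B j).card = s) ∧ (∀ i j, i ≠ j → Disjoint (B i) (B j)) ∧
    ∃ i, ∀ x : Fin k → V, (∀ j, x j ∈ B j) → EdgeIn H k (T i) (List.ofFn x)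

/-- `S` is an edge which has an ordering with both end tuples in one class. -/
def OrdIn {V : Type} [Fintype V] [DecidableEq V] {q : ℕ} (H : Finset (Finset V)) (k : ℕ)
    (T : Fin q → Set (List V)) (S : Finset V) : Prop :=
  ∃ i, ∃ l : List V, l.toFinset = S ∧ EdgeIn H k (T i) l

/-- Good neighbours of the tuple `f`. -/
noncomputable def gn {V : Type} [Fintype V] [DecidableEq V] {q : ℕ} (H : Finset (Finset V))
    (k : ℕ) (T : Fin q → Set (List V)) (f : Fin (k - 1) → V) : Finset V := by
  classical exact Finset.univ.filter fun v => OrdIn H k T (insert v (Finset.univ.image f))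

/-- Almost all `(k-1)`-tuples have at least `(1/2 - γ) n` good neighbours. -/
def P3 {V : Type} [Fintype V] [DecidableEq V] {q : ℕ} (H : Finset (Finset V)) (k : ℕ)
    (T : Fin q → Set (List V)) (γ : ℝ) : Prop :=
  ({f : Fin (k - 1) → V | ((gn H k T f).card : ℝ) < (1 / 2 - γ) * Fintype.card V}.ncard : ℝ) ≤
    γ * (Fintype.card V : ℝ) ^ (k - 1)

/-- Almost all `(k-1)`-tuples have a rearrangement in one of the classes. -/
def P2 {V : Type} [Fintype V] [DecidableEq V] {q : ℕ} (k : ℕ) (T : Fin q → Set (List V))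
    (γ : ℝ) : Prop :=
  ({f : Fin (k - 1) → V | ¬ ∃ i, ∃ l ∈ T i, l.toFinset = Finset.univ.image f}.ncard : ℝ) ≤
    γ * (Fintype.card V : ℝ) ^ (k - 1)

/-- **COA** (two new blocks from one old block).

PROOF.  `K = q (k!)`.  For `f` in the given set `E₀` and a good neighbour `v` choose a class `c` and a
permutation `π` of the `k` positions such that the list `(f 0, ..., f (k-2), v)` rearranged by `π` is
`EdgeIn (T c)`.  Among the at least `η t ≥ s K` good neighbours of `f` in `B i` some `s` have the same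
`(c, π)`; the same in `B j`.  So `f` gets the data `(i, j, P, c, π, P', c', π')`, `P ⊆ B i`,
`P' ⊆ B j` of size `s`; there are at most `k² 4 ^ t K²` data, so one of them occurs for a set `E` of at
least `θ / (k² 4 ^ t K²) n ^ (k-1)` tuples `f`.  ERD (`r = k - 1`, sets of size `2 s`): disjoint sets
`W 0, ..., W (k-2)` of size `2 s` with all transversals in `E`; they lie in `U`.  Split every `W l` into
two sets of size `s`; the first halves together with `P`, arranged by `π`, are a block of class `c`;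
the second halves with `P'` and `π'` another one. -/
def CoaStmt : Prop :=
  ∀ (k q t s : ℕ) (η θ : ℝ), 2 ≤ k → 0 < q → 0 < s → 0 < θ → (s * q * k.factorial : ℝ) ≤ η * t →
    ∃ n₀ : ℕ, ∀ (V : Type) [Fintype V] [DecidableEq V] (H : Finset (Finset V))
      (T : Fin q → Set (List V)), n₀ ≤ Fintype.card V → Uni H k → (∀ i, Tup k (T i)) →
      ∀ (B : Fin k → Finset V) (U : Finset V), (∀ j, (B j).card = t) →
        (∀ i j, i ≠ j → Disjoint (B i) (B j)) → (∀ j, Disjoint (B j) U) →
        θ * (Fintype.card V : ℝ) ^ (k - 1) ≤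
          ({f : Fin (k - 1) → V | (∀ l, f l ∈ U) ∧ ∃ i j, i ≠ j ∧
            η * t ≤ ((gn H k T f ∩ B i).card : ℝ) ∧
            η * t ≤ ((gn H k T f ∩ B j).card : ℝ)}.ncard : ℝ) →
        ∃ (i j : Fin k) (P P' W W' : Finset V) (C C' : Fin k → Finset V), i ≠ j ∧
          P ⊆ B i ∧ P' ⊆ B j ∧ W ⊆ U ∧ W' ⊆ U ∧ Disjoint W W' ∧ P.card = s ∧ P'.card = s ∧
          W.card = (k - 1) * s ∧ W'.card = (k - 1) * s ∧
          Block H k T s C ∧ Block H k T s C' ∧
          Finset.univ.biUnion C = P ∪ W ∧ Finset.univ.biUnion C' = P' ∪ W'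

/-- `𝓑` is a list of disjoint blocks of size `s` outside `W`. -/
def Tiling {V : Type} [Fintype V] [DecidableEq V] {q : ℕ} (H : Finset (Finset V)) (k : ℕ)
    (T : Fin q → Set (List V)) (s : ℕ) (W : Finset V) (𝓑 : List (Fin k → Finset V)) : Prop :=
  (∀ B ∈ 𝓑, Block H k T s B) ∧ (∀ B ∈ 𝓑, ∀ j, Disjoint (B j) W) ∧
    𝓑.Pairwise fun B C => ∀ i j, Disjoint (B i) (C j)

/-- **COB** (one round of the covering).  If every tiling with blocks of size `t = ℓ s` leaves more
than `ξ n` vertices uncovered then the maximal number of vertices covered by blocks of size `s` is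
larger than for blocks of size `t` by at least `δ n`, where `δ`, `ℓ` depend only on `k, q, ξ`.

PROOF.  `η = 1 / (10 k)`, `ℓ = ⌈q k! / η⌉ + 1`, `κ = min (1/(100 k)) (ξ ℓ / (16 k))`,
`δ = κ k / (2 ℓ)`, `t = ℓ s`.  Let `𝓑` be a tiling with blocks of size `t` outside `W` with the
maximal number of blocks, `U` the uncovered set outside `W`, `|U| ≥ ξ n`.  No block of size `t` lies
in `U`.  Hence (ERD for `k`-tuples, pigeonhole over classes and orderings) for every fixed `θ' > 0`
and large `n` at most `θ' n ^ k` pairs `(f, v)`, `f ∈ U^(k-1)`, `v ∈ U`, `v` good neighbour of `f`.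
Processing: go through rounds `1, .., m`, `m = ⌈κ n / t⌉`; at every round the remaining uncovered set
`U' ⊆ U` has `|U'| ≥ ξ n / 2` (each round uses `2 (k-1) s` vertices of `U`, in total
`≤ 2 k s (κ n / t + 1) ≤ ξ n / 4`).  By `P3`, for at least `(1/2)(ξ n / 2)^(k-1)` tuples
`f ∈ U'^(k-1)` the good neighbours are at least `(1/2 - γ) n` many and at most `√θ' n` of them are in
`U`, at most `n / 200` in `W`, so (`γ + √θ' ≤ 1/200`) at least `(49/100) n ≥ (49/100) k t |𝓑|` are in
the blocks (`k t |𝓑| ≤ n`); in particular `|𝓑| k t ≥ (49/100) n`.  For such `f` at least `(15/100) |𝓑|` blocks contain at least `(4/10) k t` of them (average), at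
most `m ≤ (5/100) |𝓑|` blocks have been processed (`|𝓑| k t ≥ (49/100) n`), so at least
`(1/10) |𝓑|` unprocessed ones; by double counting some unprocessed block `B` has at least
`(4/10) k t` good neighbours of `f` for at least `θ n ^ (k-1)` tuples `f ∈ U'^(k-1)`,
`θ = (1/20) (ξ/2)^(k-1)`; as `(4/10) k t > t + (k-1) η t` for `k ≥ 3`, two different parts of `B`
contain at least `η t` of them.  COA: two new blocks `C, C'` of size `s`, using `s` vertices of each
of two parts `B i, B j` and `2 (k-1) s` vertices of `U'`.  The rest of `B` contains `ℓ - 1` disjoint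
blocks of size `s` (`(ℓ - 1) s` vertices of every part).  At the end cut every unprocessed block into
`ℓ` blocks of size `s`.  Net gain per processed block: `2 k s - k s = k s`, in total
`m k s ≥ κ n k / ℓ ≥ δ n`. -/
def CobStmt : Prop :=
  ∀ (k q : ℕ) (ξ : ℝ), 3 ≤ k → 0 < q → 0 < ξ → ∃ (ℓ : ℕ) (δ γ : ℝ), 0 < ℓ ∧ 0 < δ ∧ 0 < γ ∧
    ∀ s : ℕ, 0 < s → ∃ n₀ : ℕ, ∀ (V : Type) [Fintype V] [DecidableEq V] (H : Finset (Finset V))
      (T : Fin q → Set (List V)), n₀ ≤ Fintype.card V → Uni H k → (∀ i, Tup k (T i)) →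
      P3 H k T γ → ∀ (W : Finset V), (W.card : ℝ) ≤ 1 / 200 * Fintype.card V →
      ∀ x : ℝ, (∃ 𝓑, Tiling H k T (ℓ * s) W 𝓑 ∧
          x * Fintype.card V ≤ (k * (ℓ * s) * 𝓑.length : ℝ)) →
        (∀ 𝓑, Tiling H k T (ℓ * s) W 𝓑 →
          (k * (ℓ * s) * 𝓑.length : ℝ) + W.card + ξ * Fintype.card V ≤ Fintype.card V) →
        ∃ 𝓑, Tiling H k T s W 𝓑 ∧ (x + δ) * Fintype.card V ≤ (k * s * 𝓑.length : ℝ)

/-- **COV** (covering theorem).

PROOF.  Start with `x = 0` and block size `s_R = ℓ ^ R s₀`, `R = ⌈1/δ⌉ + 1`, `s₀ = L`; apply COB for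
the sizes `ℓ ^ (R-1) s₀, ..., s₀`: as long as no tiling with blocks of the current size leaves at most
`ξ n` vertices uncovered, the guaranteed fraction grows by `δ`; it cannot exceed `1`.  So for some size
`s ≥ L` there is a tiling of all but `ξ n` vertices outside `W`.  Every block of size `s` of class `i`
is the vertex set of the segment `b_(1,1) b_(2,1) ... b_(k,1) b_(1,2) ... b_(k,s)` (`b_(j,·)` = the
elements of `B j`): every window is a rotated transversal, the first `k - 1` entries are the `take` of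
a transversal, the last `k - 1` the `drop 1` of one; it has `k s ≥ L` vertices. -/
def CovStmt : Prop :=
  ∀ (k q L : ℕ) (ξ : ℝ), 3 ≤ k → 0 < q → 0 < ξ → ∃ (γ : ℝ) (n₀ : ℕ), 0 < γ ∧
    ∀ (V : Type) [Fintype V] [DecidableEq V] (H : Finset (Finset V))
      (T : Fin q → Set (List V)), n₀ ≤ Fintype.card V → Uni H k → (∀ i, Tup k (T i)) →
      P3 H k T γ → Cov H k T (1 / 200) ξ L

/-- **ALP** (alpha theorem, abstract form): classes + crossings + one exchange class.

PROOF.  Exchange graph `S u v := μ n ^ (k-1) ≤ comm H k u v`, `μ ≤ 1/8`.  (a) `|L_u| ≥ (1/2 - o(1))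
n ^ (k-1)` for the set `L_u` of `(k-1)`-tuples forming an edge with `u`: choose all but the last entry
arbitrarily (distinct, `≠ u`), then `Dirac`.  So of three distinct vertices two are adjacent
(`3/2 - 1 = 1/2`, one of three intersections is at least `1/6 - o(1) > 1/8`).  (b) Degrees: the sum
over `v` of `comm u v` is the sum over `f ∈ L_u` of the degree of the set of `f`, at least
`(1/4 - o(1)) n ^ k`, every term is `≤ n ^ (k-1)`, so at least `n / 9` vertices `v` have
`comm u v ≥ (1/8) n ^ (k-1)`.  (c) the hypothesis on partitions; so CHN (`δ = 1/9`) gives `c₃ n³`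
chains.  (d) If `S u v`: by `P2` all but `γ n ^ (k-1)` tuples `f` have a rearrangement in some class;
the property counted by `comm` is invariant under rearrangements, a set has `(k-1)!` orderings, hence
at least `((μ - γ) / (k-1)!) n ^ (k-1)` tuples `f` counted by `comm` are in some `T i`; SWC: `Swp`.
(e) `P3` gives at least `(1/4)(1 / k!) n ^ k` tuples `f : Fin k → V` with `EdgeIn`; BLK.  (f) GDC with
(c), (d), (e): gadgets for all `k`-tuples, `ls = gadLen k`.  (g) `Rich` from the size of `T i`: at most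
`(k-1) |W| n ^ (k-2)` tuples meet `W`.  (h) ASM gives `ξ, L`; COV gives `Cov`. -/
def AlpStmt : Prop :=
  ∀ (k M q C : ℕ) (c κ μ : ℝ), 3 ≤ k → 0 < c → 0 < κ → 0 < μ → μ ≤ 1 / 8 → 0 < q →
    ∃ (γ : ℝ) (n₀ : ℕ), 0 < γ ∧
    ∀ (V : Type) [Fintype V] [DecidableEq V] (H : Finset (Finset V))
      (T : Fin q → Set (List V)) (i₀ : Fin q), n₀ ≤ Fintype.card V → Uni H k → Dirac H k →
      (∀ i, Tup k (T i)) → (∀ i, Joins H k (T i) c M) → JoinsAll H k (T i₀) c M →
      (∀ i, c * (Fintype.card V : ℝ) ^ (k - 1) ≤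
        ({f : Fin (k - 1) → V | List.ofFn f ∈ T i}.ncard : ℝ)) →
      P2 k T γ → P3 H k T γ →
      (∀ A : Set V, 1 / 18 * (Fintype.card V : ℝ) ≤ A.ncard →
        1 / 18 * (Fintype.card V : ℝ) ≤ Aᶜ.ncard → κ * (Fintype.card V : ℝ) ^ 2 ≤
          ({p : V × V | p.1 ∈ A ∧ p.2 ∉ A ∧
            μ * (Fintype.card V : ℝ) ^ (k - 1) ≤ comm H k p.1 p.2}.ncard : ℝ)) →
      Tour H k T i₀ C → Ham H k

/-! ## From states to classes of tuples -/

section
variable {V : Type} [Fintype V] [DecidableEq V]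

/-- `U` is `ε'`-closed: at most `ε' n^k` steps leave `U` and at most `ε' n^k` steps enter it. -/
def Closed (H : Finset (Finset V)) {d : ℕ} (U : Set (Sta V d)) (ε' : ℝ) : Prop :=
  ({p : Sta V d × Sta V d | p.1 ∈ U ∧ p.2 ∉ U ∧ St H p.1 p.2}.ncard : ℝ) ≤
      ε' * (Fintype.card V : ℝ) ^ (d + 2) ∧
  ({p : Sta V d × Sta V d | p.1 ∉ U ∧ p.2 ∈ U ∧ St H p.1 p.2}.ncard : ℝ) ≤
      ε' * (Fintype.card V : ℝ) ^ (d + 2)

/-- The tuples of the class `U`: injective, and good (both ways) at some time. -/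
def tups (H : Finset (Finset V)) {d : ℕ} (U : Set (Sta V d)) (c₁ : ℝ) : Set (List V) :=
  {l | ∃ (f : Fin (d + 1) → V) (t : ZMod (d + 2)), l = List.ofFn f ∧ Function.Injective f ∧
    GoodF H U c₁ (f, t) ∧ GoodB H U c₁ (f, t)}

end

/-- **TCL** (classes of tuples).  `c₁ = 2 ^ (- (d+3))`.

PROOF.  `k = d + 2`.  (a) JON with `c₁` gives `Joins` (`M`, `c`), and `JoinsAll` for `i₀`: since
`U i₀` is invariant under time shifts, `GoodF`, `GoodB` hold for all times, so every residue of the
length occurs (`t' = t + m + (d+1)`).  (b) Most states of `U` are good: call `s = (f, t) ∈ U`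
exceptional if more than half of the walks with `d + 1` steps from `s` end outside `U`.  By `Dirac`
every `(d+1)`-set has degree `≥ n/2`, so from an injective `f` there are at least
`(n/2)^(d+1)` walks with `d+1` steps.  The number of walks with at most `d + 1` steps starting in `U`
and leaving `U` at some step is at most `(d + 1) ε' n ^ (d+2) n ^ d` (choose the leaving step; at most
`n` predecessors and successors per step, `d` further steps), so at most
`(d+1) ε' 2 ^ (d+2) n ^ (d+1)` injective states `s ∈ U` are exceptional; the others satisfy `GoodF`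
with `c₁`.  The same for `GoodB` (in-degree of a state = degree of its set).  Non-injective states:
at most `(d+2)³ n ^ d`.  So all but `γ' n ^ (d+1)` states of `U i` are good, `γ'` small with `ε'`
(last conclusion); hence the size bound for `tups` (`u₀ n ^ (d+1)` states of `U i`, at most `d + 2` times).
(c) `P2`: all but `ε' n ^ (d+1)` tuples `g` have a rearrangement `f` with `(f, t)` in some `U i`; those
for which `(f, t)` is not good are at most `q (d+2) (d+1)! γ' n ^ (d+1)`.  `P3`: by hypothesis all but `ε' n ^ k` labelled edges `e` have an ordering `f` and `i`, `t` with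
`(init f, t) ∈ U i`, `(tail f, t+1) ∈ U i`.  The edges for which one of these states is not good are at
most `2 q k! γ' n ^ (d+1) n` (a bad state and one more vertex).  So for all but `γ'' n ^ k` tuples
`e : Fin k → V` with image in `H` the image is `OrdIn`; by averaging all but `√γ'' n ^ (k-1)` tuples
`f : Fin (k-1) → V` have at most `√γ'' n` neighbours `v` which are not good, so at least
`(1/2 - √γ'') n` good ones (`f` injective, `Dirac`). -/
def TclStmt : Prop :=
  ∀ (d q : ℕ) (u₀ β ε : ℝ), 1 ≤ d → 0 < q → 0 < β → 0 < ε → 2 * β < u₀ →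
    2 * β < (1 / 2 : ℝ) ^ (d + 3) →
    ∃ (M : ℕ) (c : ℝ), 0 < c ∧ ∀ γ : ℝ, 0 < γ → ∃ (ε' : ℝ) (n₀ : ℕ), 0 < ε' ∧
    ∀ (V : Type) [Fintype V] [DecidableEq V] (H : Finset (Finset V))
      (U : Fin q → Set (Sta V d)) (i₀ : Fin q), n₀ ≤ Fintype.card V → Uni H (d + 2) →
      Dirac H (d + 2) → (∀ i, u₀ * (Fintype.card V : ℝ) ^ (d + 1) ≤ (U i).ncard) →
      (∀ i, Indec H (U i) ε β) → (∀ i, Closed H (U i) ε') →
      (∀ (f : Fin (d + 1) → V) (t t' : ZMod (d + 2)), (f, t) ∈ U i₀ → (f, t') ∈ U i₀) →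
      ({g : Fin (d + 1) → V | ¬ ∃ (i : Fin q) (f : Fin (d + 1) → V) (t : ZMod (d + 2)),
          Finset.univ.image f = Finset.univ.image g ∧ (f, t) ∈ U i}.ncard : ℝ) ≤
        ε' * (Fintype.card V : ℝ) ^ (d + 1) →
      ({e : Fin (d + 2) → V | Finset.univ.image e ∈ H ∧ ¬ ∃ (i : Fin q) (f : Fin (d + 2) → V)
          (t : ZMod (d + 2)), Finset.univ.image f = Finset.univ.image e ∧
          (Fin.init f, t) ∈ U i ∧ (Fin.tail f, t + 1) ∈ U i}.ncard : ℝ) ≤
        ε' * (Fintype.card V : ℝ) ^ (d + 2) →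
      (∀ i, Tup (d + 2) (tups H (U i) ((1 / 2 : ℝ) ^ (d + 3)))) ∧
      (∀ i, Joins H (d + 2) (tups H (U i) ((1 / 2 : ℝ) ^ (d + 3))) c M) ∧
      JoinsAll H (d + 2) (tups H (U i₀) ((1 / 2 : ℝ) ^ (d + 3))) c M ∧
      (∀ i, c * (Fintype.card V : ℝ) ^ (d + 1) ≤
        ({f : Fin (d + 1) → V |
          List.ofFn f ∈ tups H (U i) ((1 / 2 : ℝ) ^ (d + 3))}.ncard : ℝ)) ∧
      P2 (d + 2) (fun i => tups H (U i) ((1 / 2 : ℝ) ^ (d + 3))) γ ∧
      P3 H (d + 2) (fun i => tups H (U i) ((1 / 2 : ℝ) ^ (d + 3))) γ ∧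
      (∀ i, ({s : Sta V d | s ∈ U i ∧
          List.ofFn s.1 ∉ tups H (U i) ((1 / 2 : ℝ) ^ (d + 3))}.ncard : ℝ) ≤
        γ * (Fintype.card V : ℝ) ^ (d + 1))

end Pool.Agent.KK
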