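import Pool.Agent.KK.StmtsBeta

/-!
# Block BETA, atypical vertices: interface (author helper5)

`Tok` = connectors (each can be used once), `Pas` = neutral insertions at the base level, `GadStmt` =
all gadgets at one gap `j`, proved in the language of block E.
-/

set_option autoImplicit false

namespace Pool.Agent.KK

variable {V : Type} [Fintype V] [DecidableEq V]

/-- SUPPLY THROUGH `z`: outside every set `Z` of at most `K` vertices, `z ∉ Z`, there are distinct
vertices `l ∋ z` with letters `c` such that all windows of `uL l uR` are fine. -/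
def SupT (H : Finset (Finset V)) (X : Finset V) (k : ℕ) (ε K : ℝ) (z : V)
    (uL c uR : List Bool) : Prop :=
  ∀ Z : Finset V, (Z.card : ℝ) ≤ K → z ∉ Z → ∃ l : List V, l.Nodup ∧ z ∈ l ∧ (∀ v ∈ l, v ∉ Z) ∧
    l.map (fun v => decide (v ∈ X)) = c ∧ OKl H X k ε (fw uL ++ vx l ++ fw uR)

/-- CONNECTOR at `j`: `m₁` = letters of the classes `1, .., d-1`, `m₂` = letters of the classes
`d+1, .., k-1` (`d = m₁.length + 1`); the classes `0` and `d` are flipped from Y to X: the vertex `z`
at time `0`, a fixed vertex of `Y` at time `d - k`, a fixed vertex of `X` at time `d`; all windows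
containing `z` are fixed: the fixed times are `1-k, .., k-1`.  Before: period `Y m₁ Y m₂`,
afterwards period `X m₁ X m₂`. -/
def Tok (H : Finset (Finset V)) (X : Finset V) (k : ℕ) (ε K : ℝ) (j : ℕ) (z : V) : Prop :=
  ∀ m₁ m₂ : List Bool, m₁.length + m₂.length + 2 = k → wt m₁ + wt m₂ + 1 = j →
    SupT H X k ε K z (m₁ ++ false :: m₂ ++ [false]).tail
      (m₁ ++ false :: m₂ ++ decide (z ∈ X) :: (m₁ ++ true :: m₂))
      (true :: m₁ ++ true :: m₂).dropLast

/-- PASS of the vertex `v` at the level `t`: `v` takes the place of its letter in the periodic word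
`b m b m b ..` of weight `t`; all windows containing `v` are fixed. -/
def Pas (H : Finset (Finset V)) (X : Finset V) (k : ℕ) (ε K : ℝ) (t : ℕ) (v : V) : Prop :=
  ∀ m : List Bool, m.length + 1 = k → wt (decide (v ∈ X) :: m) = t →
    SupT H X k ε K v (m ++ [decide (v ∈ X)]).tail (m ++ decide (v ∈ X) :: m)
      (decide (v ∈ X) :: m).dropLast

/-- GADGETS OF ONE GAP (block E language, file StmtsG).  `X` = the partition of E24 without flipped
vertices, minus the connectors; `κ` does not depend on `ρ` (the closeness of `X` and `X₀`). -/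
def GadStmt : Prop :=
  ∀ k : ℕ, 3 ≤ k → ∀ (ε : ℝ) (K : ℕ), 0 < ε → ∃ κ : ℝ, 0 < κ ∧ ∀ ρ : ℝ, 0 < ρ →
    ∃ γ : ℝ, 0 < γ ∧ ∃ n₀ : ℕ,
    ∀ (V : Type) [Fintype V] [DecidableEq V] (H : Finset (Finset V)) (X₀ : Finset V) (j : ℕ),
      n₀ ≤ Fintype.card V → Uni H k → Dirac H k → 1 ≤ j → j + 1 ≤ k →
      |(X₀.card : ℝ) - (Fintype.card V : ℝ) / 2| ≤ γ * (Fintype.card V : ℝ) →
      ({f : Fin k → V | Finset.univ.image f ∈ H ∧
        (Finset.univ.filter fun i => f i ∈ X₀).card = j}.ncard : ℝ) ≤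
          γ * (Fintype.card V : ℝ) ^ k →
      ∃ X : Finset V, ((symmDiff X X₀).card : ℝ) ≤ ρ * (Fintype.card V : ℝ) ∧
        (2 ≤ j → ∀ v : V, Pas H X k ε (κ * (Fintype.card V : ℝ)) (j - 1) v) ∧
        ((∃ C : Finset V, k ≤ C.card ∧ ∀ z ∈ C, Tok H X k ε K j z) ∨
          KindP V H X k ε K j ∨ KindR V H X k ε K j ∨ KindL V H X k ε K j)

end Pool.Agent.KK
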