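import Pool.Agent.KK.StmtsE
import Pool.Agent.KK.VDefs

/-!
# Block G (gadgets at one gap in slot form), author helper68

`k = p + q + 2`, the missing type is `(p+1, q+1)`, `j = p + 1`.  No parity assumption.  Uses the
definitions and rows of StmtsE (`D`, `Mix`, `Non`, `Mst`, `Amb`, `Cst`, `GoodM`, `NF`, ...) and the
slots of BetaDefs (`BadC`, `OKs`, `OKl`, `Sup`, `RMoves`, `LMoves`, `KindP`, `KindR`, `KindL`).
Every row is `theorem gxx : StmtGxx` with earlier statements as hypotheses.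
-/

set_option autoImplicit false

namespace Pool.Agent.KK.E

/-! ## Definitions -/

/-- TWO-SIDED SUPPLY THROUGH `z`: outside every set `Z` of at most `κ` vertices, `z ∉ Z`, there are
lists `l₁`, `l₂` with letters `m`, `m'` such that all windows of `uL l₁ z l₂ uR` are fine. -/
def Two {V : Type} [Fintype V] [DecidableEq V] (H : Finset (Finset V)) (X : Finset V) (k : ℕ)
    (ε κ : ℝ) (z : V) (m m' uL uR : List Bool) : Prop :=
  ∀ Z : Finset V, (Z.card : ℝ) ≤ κ → z ∉ Z →
    ∃ l₁ l₂ : List V, l₁.map (fun v => decide (v ∈ X)) = m ∧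
      l₂.map (fun v => decide (v ∈ X)) = m' ∧ (l₁ ++ z :: l₂).Nodup ∧
      (∀ u ∈ l₁ ++ z :: l₂, u ∉ Z) ∧
      OKl H X k ε (fw uL ++ vx (l₁ ++ z :: l₂) ++ fw uR)

/-- Constants with the additional parameter `ε`. -/
structure CstG (k B : ℕ) (η θ : ℕ → ℝ) (h δ ε : ℝ) : Prop where
  cst : Cst k B η θ h δ
  epos : 0 < ε
  eone : ε ≤ 1
  stepG : ∀ i, i < k → 32 * (k : ℝ) * η i ≤ ε * η (i + 1)
  thetaG : ∀ i, 1 ≤ i → i < k → 32 * (k : ℝ) * η (i - 1) ≤ ε * (θ i) ^ (2 ^ k)
  delG : 100 * (k : ℝ) * δ ≤ ε * η 0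

/-! ## Rows -/

/-- **G01** Bad completions of a window with fixed vertices, by `D`.
PROOF. A list `e ∈ BadC H X s` is determined by its entries at the free slots, a function `f` in the
box of the letters of the free slots, and `e.toFinset = (fixed vertices) ∪ image f ∉ H`.  Re-index the
free slots with letter `true` by `Fin a`, `a = s.count (inr true)`, those with letter `false` by
`Fin b` (E02): at most `(1 - D H X M a b) |X|^a |Xᶜ|^b ≤ (1 - D) n^(a+b)` lists, `a + b = fr s`. -/
def StmtG01 : Prop :=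
  ∀ (V : Type) [Fintype V] [DecidableEq V] (H : Finset (Finset V)) (X : Finset V)
    (s : List (Slot V)), X.Nonempty → (Xᶜ).Nonempty →
    ((BadC H X s).ncard : ℝ) ≤
      (1 - D H X (fx s).toFinset (s.count (Sum.inr true)) (s.count (Sum.inr false))) *
        (Fintype.card V : ℝ) ^ fr s

/-- **G02** Markov: fixing some generic vertices.
PROOF. `D(M; a+s, b+t)` is the average over `z` in the box of `l` of `D(M ∪ image z; a, b)` (the same
event; E02 for a bijection `Fin (a+s) ⊕ Fin (b+t) ≃ ι ⊕ (Fin a ⊕ Fin b)` respecting letters,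
E03(1)).  So the average of `1 - D(M ∪ image z; a, b) ≥ 0` is `1 - D(M; a+s, b+t)`; Markov. -/
def StmtG02 : Prop :=
  ∀ (V : Type) [Fintype V] [DecidableEq V] (ι : Type) [Fintype ι] (H : Finset (Finset V))
    (X M : Finset V) (l : ι → Bool) (a b s t : ℕ) (ε : ℝ), X.Nonempty → (Xᶜ).Nonempty →
    0 < ε → (Finset.univ.filter fun i => l i = true).card = s →
    (Finset.univ.filter fun i => l i = false).card = t →
    ε * dens (fun i => sd X (l i)) (fun z => D H X (M ∪ Finset.univ.image z) a b < 1 - ε) ≤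
      1 - D H X M (a + s) (b + t)

/-- **G00** GENERAL SUPPLY LEMMA.  `k = p+q+2`; a block of `L ≤ 3k` positions with letters `c` between
the free letters `uL`, `uR`; `o` fixes some vertices; `P` is an event of density `≥ τ` for the block.
Every window of length `k` of `uL c uR` (start `a`; the block occupies `k-1, .., k-2+L`) is CORE
(inside the block, an edge as soon as `P f`) or ORDINARY (weight `p` or `p+2`, its fixed vertices have
the letters `c` and form a normal set with at most `p+1` elements in `X` and `q+1` outside).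
PROOF. Box `bx X (c.getD · false) o`.  (1) `P`: density `≥ τ`.  (2) Not injective, or a generic position
in `Z` or equal to a fixed vertex: density `≤ 3(L^2 + L(|Z| + L))/n ≤ δ + (9/100) τ` (E04 for
`W = Z ∪ fixed vertices`, `Amb.big`, `|Z| ≤ κ`).  (3) An ordinary window `a` with at least one position
outside the block (otherwise it is completely fixed, see below): fixed vertices `M' ∪ image z`, `z` =
generic positions of the block in the window (some injection `ι → Fin L`), `s`, `t` their numbers of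
letters X, Y, `a'`, `b'` the numbers of free letters of the window.  Weight `p`:
`D(M'; a'+s, b'+t) = D(M'; p-|M' ∩ X|, q+2-|M' \ X|) ≥ 1 - 3δ - η |M'|` (E17(2), `|M' ∩ X| ≤ p` because
the window has only `p` letters X); weight `p+2`: E17(1).  So by G02 (and E02) outside a density
`(3δ + e₀)/ε` we have `D(M' ∪ image z; a', b') ≥ 1 - ε`, and then `OKs` by G01.  This includes
ordinary windows inside the block (`a' = b' = 0`).
(4) At most `L + k - 1 ≤ 4k` windows: total failing density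
`≤ δ + (9/100) τ + 4k (3δ + e₀)/ε < τ`.  (5) A core window is an edge and completely fixed:
`BadC` is empty.  Take `f` in the box with all properties. -/
def StmtG00 : Prop :=
  ∀ (V : Type) [Fintype V] [DecidableEq V] (H : Finset (Finset V)) (X Z : Finset V)
    (p q B L : ℕ) (δ ε τ e₀ : ℝ) (η : ℕ → ℝ) (c uL uR : List Bool) (o : Fin L → Option V)
    (P : (Fin L → V) → Prop), Amb H X p q B δ → 0 < ε → ε ≤ 1 → 0 < τ → 0 ≤ e₀ →
    c.length = L → L ≤ 3 * (p + q + 2) → uL.length = p + q + 1 → uR.length = p + q + 1 →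
    (∀ i i' v, o i = some v → o i' = some v → i = i') → (∀ i v, o i = some v → v ∉ Z) →
    τ ≤ dens (bx X (fun i : Fin L => c.getD i false) o) P →
    (∀ a : ℕ, a + (p + q + 2) ≤ L + 2 * (p + q + 1) →
      ((p + q + 1 ≤ a ∧ a + (p + q + 2) ≤ L + (p + q + 1) ∧
          ∀ f : Fin L → V, (∀ i, f i ∈ bx X (fun i : Fin L => c.getD i false) o i) → P f →
            (Finset.univ.filter fun i : Fin L => a ≤ (i : ℕ) + (p + q + 1) ∧
              (i : ℕ) + (p + q + 1) < a + (p + q + 2)).image f ∈ H) ∨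
        ((wt (((uL ++ c ++ uR).drop a).take (p + q + 2)) = p ∨
            wt (((uL ++ c ++ uR).drop a).take (p + q + 2)) = p + 2) ∧
          (∀ (i : Fin L) (v : V), a ≤ (i : ℕ) + (p + q + 1) →
            (i : ℕ) + (p + q + 1) < a + (p + q + 2) → o i = some v →
            (v ∈ X ↔ c.getD i false = true)) ∧
          ∀ M' : Finset V, (∀ v, v ∈ M' ↔ ∃ i : Fin L, a ≤ (i : ℕ) + (p + q + 1) ∧
            (i : ℕ) + (p + q + 1) < a + (p + q + 2) ∧ o i = some v) →
            ¬ Non H X p q η M' ∧ (M' ∩ X).card ≤ p + 1 ∧ (M' \ X).card ≤ q + 1 ∧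
              η M'.card ≤ e₀))) →
    (Z.card : ℝ) ≤ τ / (100 * ((p + q + 2 : ℕ) : ℝ)) * (Fintype.card V : ℝ) →
    32 * ((p + q + 2 : ℕ) : ℝ) * e₀ ≤ ε * τ → 100 * ((p + q + 2 : ℕ) : ℝ) * δ ≤ ε * τ →
    ∃ f : Fin L → V, Function.Injective f ∧ (∀ i, f i ∉ Z) ∧
      (∀ i v, o i = some v → f i = v) ∧
      (∀ i, o i = none → (f i ∈ X ↔ c.getD i false = true)) ∧ P f ∧
      OKl H X (p + q + 2) ε (fw uL ++ vx (List.ofFn f) ++ fw uR)

/-- **G03** SINGLE WINDOW GADGET.  `c` = letters of the window (`p+1` letters X), `o` places the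
minimal non-normal set `M` into the window, the first and the last position are occupied.
PROOF. G00 with `L = k`, `P f` = (image of `f` is an edge), `τ = η |M|`, `e₀ = η (|M|-1)`: the density of
`P` is `D(M; p+1-|M ∩ X|, q+1-|M \ X|) > η |M|` (E05, `Non`).  The window starting at `k-1` is core.  Every
other window misses the first or the last position of the block, so its fixed vertices form a proper
subset of `M`, which is normal; `η` is increasing (`Cst.step`); weights by hypothesis.  Numbers: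
`stepG`, `delG`, `|Z| ≤ B` and `Amb.big` (`B ≤ δ n/(100 k^2) ≤ τ n/(100 k)`). -/
def StmtG03 : Prop :=
  ∀ (V : Type) [Fintype V] [DecidableEq V] (H : Finset (Finset V)) (X M Z : Finset V)
    (p q B : ℕ) (δ h ε : ℝ) (η θ : ℕ → ℝ) (c uL uR : List Bool)
    (o : Fin (p + q + 2) → Option V), Amb H X p q B δ → CstG (p + q + 2) B η θ h δ ε →
    Mst H X p q η M → Z.card ≤ B → Disjoint M Z →
    c.length = p + q + 2 → wt c = p + 1 → uL.length = p + q + 1 → uR.length = p + q + 1 →
    (∀ a, a < p + q + 1 → wt (((uL ++ c).drop a).take (p + q + 2)) = p ∨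
      wt (((uL ++ c).drop a).take (p + q + 2)) = p + 2) →
    (∀ a, 1 ≤ a → a ≤ p + q + 1 → wt (((c ++ uR).drop a).take (p + q + 2)) = p ∨
      wt (((c ++ uR).drop a).take (p + q + 2)) = p + 2) →
    (∀ v, v ∈ M ↔ ∃ i, o i = some v) → (∀ i i' v, o i = some v → o i' = some v → i = i') →
    (∀ i v, o i = some v → (v ∈ X ↔ c.getD i false = true)) →
    (o 0 ≠ none) → (o (Fin.last (p + q + 1)) ≠ none) →
    ∃ l : List V, l.Nodup ∧ (∀ v ∈ l, v ∉ Z) ∧ (∀ v ∈ M, v ∈ l) ∧
      l.map (fun v => decide (v ∈ X)) = c ∧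
      OKl H X (p + q + 2) ε (fw uL ++ vx l ++ fw uR)

/-- **G04** Placing `M` in a window with prescribed first and last element.
PROOF. `M ∩ X` has at most as many elements as `c` has letters `true`, `M \ X` at most as many as `c`
has letters `false`; put `m₁` first, `m₂` last, and the other elements injectively into the remaining
positions of their letter. -/
def StmtG04 : Prop :=
  ∀ (V : Type) [Fintype V] [DecidableEq V] (X M : Finset V) (p q : ℕ) (c : List Bool)
    (m₁ m₂ : V), c.length = p + q + 2 → wt c = p + 1 → (M ∩ X).card ≤ p + 1 →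
    (M \ X).card ≤ q + 1 → m₁ ∈ M → m₂ ∈ M → m₁ ≠ m₂ →
    (m₁ ∈ X ↔ c.getD 0 false = true) → (m₂ ∈ X ↔ c.getD (p + q + 1) false = true) →
    ∃ o : Fin (p + q + 2) → Option V, o 0 = some m₁ ∧ o (Fin.last (p + q + 1)) = some m₂ ∧
      (∀ v, v ∈ M ↔ ∃ i, o i = some v) ∧ (∀ i i' v, o i = some v → o i' = some v → i = i') ∧
      ∀ i v, o i = some v → (v ∈ X ↔ c.getD i false = true)

/-- **G05** RIGHT MOVES AND LEFT MOVES.
PROOF. (R) `m.length = k-2`, `wt m = p+1`: G03 with `c = false :: m ++ [false]` (weight `p+1`),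
`uL = m ++ [true]`, `uR = true :: m`, `o` from G04 for two elements `m₁ ≠ m₂` of `M \ X`.  The windows
of `uL ++ c = m ++ [true] ++ false :: m ++ [false]` starting at `a < k-1` contain `true :: false` and
rotated `m`, or, for `a = k-2`, `[true] ++ false :: m`: weight `p+2`; those of
`c ++ uR = false :: m ++ [false] ++ true :: m` starting at `1 ≤ a ≤ k-1` have weight `p+2`, too.
(L) `wt m + 1 = p` (so `p ≥ 1`): `c = true :: m ++ [true]`, `uL = m ++ [false]`, `uR = false :: m`,
weight `p` of all other windows, `m₁ ≠ m₂` in `M ∩ X`. -/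
def StmtG05 : Prop :=
  ∀ (V : Type) [Fintype V] [DecidableEq V] (H : Finset (Finset V)) (X M Z : Finset V)
    (p q B : ℕ) (δ h ε : ℝ) (η θ : ℕ → ℝ) (m : List Bool), Amb H X p q B δ →
    CstG (p + q + 2) B η θ h δ ε → Mst H X p q η M → Z.card ≤ B → Disjoint M Z →
    m.length = p + q →
    ((2 ≤ (M \ X).card → wt m = p + 1 → ∃ l : List V, l.Nodup ∧ (∀ v ∈ l, v ∉ Z) ∧
      l.map (fun v => decide (v ∈ X)) = false :: m ++ [false] ∧
      OKl H X (p + q + 2) ε (fw (m ++ [true]) ++ vx l ++ fw (true :: m))) ∧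
    (2 ≤ (M ∩ X).card → wt m + 1 = p → ∃ l : List V, l.Nodup ∧ (∀ v ∈ l, v ∉ Z) ∧
      l.map (fun v => decide (v ∈ X)) = true :: m ++ [true] ∧
      OKl H X (p + q + 2) ε (fw (m ++ [false]) ++ vx l ++ fw (false :: m))))

/-- **G06** CROSSING with a bi-coloured `M`: letters `Y^(q+1) X^(p+1)` between `low p q` and
`high p q`.
PROOF. G03 with `c = Y^(q+1) X^(p+1)`, `uL = low p q`, `uR = high p q`; first element of `M` in
`M \ X`, last one in `M ∩ X` (G04).  The window weights are E18 (`word p q = uL ++ c ++ uR`). -/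
def StmtG06 : Prop :=
  ∀ (V : Type) [Fintype V] [DecidableEq V] (H : Finset (Finset V)) (X M Z : Finset V)
    (p q B : ℕ) (δ h ε : ℝ) (η θ : ℕ → ℝ), Amb H X p q B δ →
    CstG (p + q + 2) B η θ h δ ε → Mst H X p q η M → Z.card ≤ B → Disjoint M Z →
    (M ∩ X).Nonempty → (M \ X).Nonempty →
    ∃ l : List V, l.Nodup ∧ (∀ v ∈ l, v ∉ Z) ∧
      l.map (fun v => decide (v ∈ X)) =
        List.replicate (q + 1) false ++ List.replicate (p + 1) true ∧
      OKl H X (p + q + 2) ε (fw (low p q) ++ vx l ++ fw (high p q))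

/-- **G07** FAR FLIPS with a bi-coloured pair `M = {y₀, x₀}`.
PROOF. G00 with the block of the times `d-k+1, .., k-1` (`d = m₁.length + 1`, `L = 2k-1-d`),
`c = m₂ ++ false :: m₁ ++ true :: m₂`, `y₀` at time `0` (position `m₂.length`), `x₀` at time `d`.
`E` = event on `(Fin p ⊕ Fin q)` that `M ∪ Q` is an edge; density `D(M; p, q) > η 2`.  Blow-up (E20,
`p+q ≤ k` coordinates): density `≥ (η 2)^(2^k) =: τ` for two copies; the classes of `m₂` use copy 0 before
time `0` and copy 1 after time `d`, the classes of `m₁` copy 0; `P f` = (all windows of the block which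
contain both positions are edges), density `≥ τ` (E02 for the injection of the used copies, E05-like
re-indexing).  Windows containing times `0` and `d` (starts `d-k+1, .., 0`) are core (inside the block).
The other windows contain at most one of `y₀, x₀` (normal, `M` is minimal), the ones
ending before time `d` have weight `p`, the ones starting after time `0` have weight `p+2`.
`e₀ = η 1`.  Numbers: `thetaG 2` (`2 < k` because `1 ≤ p+q`; `θ 2 ≤ η 2`), `delG`. -/
def StmtG07 : Prop :=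
  ∀ (V : Type) [Fintype V] [DecidableEq V] (H : Finset (Finset V)) (X M Z : Finset V)
    (p q B : ℕ) (δ h ε : ℝ) (η θ : ℕ → ℝ) (m₁ m₂ : List Bool), 1 ≤ p + q →
    Amb H X p q B δ → CstG (p + q + 2) B η θ h δ ε → Mst H X p q η M → Z.card ≤ B →
    Disjoint M Z → (M ∩ X).card = 1 → (M \ X).card = 1 →
    m₁.length + m₂.length = p + q → wt m₁ + wt m₂ = p →
    ∃ l : List V, l.Nodup ∧ (∀ v ∈ l, v ∉ Z) ∧
      l.map (fun v => decide (v ∈ X)) = m₂ ++ false :: m₁ ++ true :: m₂ ∧
      OKl H X (p + q + 2) ε (fw (m₂ ++ false :: m₁ ++ [false]).tail ++ vx l ++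
        fw (true :: m₁ ++ true :: m₂).dropLast)

/-- **G08** FAR FLIP with a connector `z` (either colour; `Z` may have linear size).
PROOF. G00 with `L = 2k-1`, `c = (m₁ ++ false :: m₂) ++ decide (z ∈ X) :: (m₁ ++ true :: m₂)`, `o` fixes only
`z`, at position `k-1` (time `0`).  `E` = event of `Mix H X {z} p q`
(letters of `Q` = letters of `m₁ ++ m₂`: `p` letters X, `q` letters Y; plus `x`, `y`): density
`> θ 1`; `k` coordinates; blow-up (E20) `≥ (θ 1)^(2^k) =: τ`: copies 0 before `z`, copies 1 after `z`; the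
class `d = m₁.length + 1` carries `y` before `z` and `x` after `z`; `P f` = (all windows of the block
which contain `z` are edges): such a window is `z ∪` (transversal of the `Q` classes) `∪ y` (if it ends
before time `d`) or `∪ x`, so `P` has density `≥ τ` (E02).  All windows inside the block contain `z`:
core.  The other windows have weight `p` (before) or `p+2` (after) and no fixed vertex, `∅` is
normal, `e₀ = η 0`.  Numbers: `thetaG 1`, `delG`.  Cut `List.ofFn f` into
`l₁ ++ z :: l₂`. -/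
def StmtG08 : Prop :=
  ∀ (V : Type) [Fintype V] [DecidableEq V] (H : Finset (Finset V)) (X : Finset V)
    (p q B : ℕ) (δ h ε κ : ℝ) (η θ : ℕ → ℝ) (z : V) (m₁ m₂ : List Bool), 1 ≤ p + q →
    Amb H X p q B δ → CstG (p + q + 2) B η θ h δ ε → ¬ Non H X p q η ∅ →
    θ 1 < Mix H X {z} p q → m₁.length + m₂.length = p + q → wt m₁ + wt m₂ = p →
    κ ≤ (θ 1) ^ (2 ^ (p + q + 2)) / (100 * ((p + q + 2 : ℕ) : ℝ)) * (Fintype.card V : ℝ) →
    Two H X (p + q + 2) ε κ z (m₁ ++ false :: m₂) (m₁ ++ true :: m₂)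
      (m₁ ++ false :: m₂ ++ [false]).tail (true :: m₁ ++ true :: m₂).dropLast

/-- **G09** CROSSING with a mixed `M ⊆ X`.
PROOF. G00; slot version of E21: `μ = |M|`, `L = 2k-μ`, the block consists of the positions
`k-1, .., 3k-2-μ` of E21: `y`, copies 0 of `Q` (letters `Y^q X^(p+1-μ)`), `M` (fixed by `o`, any order), `x`,
copies 1 of `Q`.  `P f` = (all windows of the block containing `M` are edges; `k-μ+1` windows, all inside the
block): density `≥ (θ μ)^(2^k) =: τ` (E20, E02, as in E21).  Free letters: `low p q` before, and afterwards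
the `k-1` letters `X^(μ+1) Y^q X^p` cut to length `k-1`; the letters of `uL c uR` from position `k` on are
`k`-periodic with weight `p+2`.  Every other window contains a proper
subset of `M` (normal) and has weight `p` (starts before `k-1`) or `p+2`; `e₀ = η (μ-1)`.  Numbers:
`thetaG μ` (`μ ≤ p+1 < k`), `delG`. -/
def StmtG09 : Prop :=
  ∀ (V : Type) [Fintype V] [DecidableEq V] (H : Finset (Finset V)) (X M Z : Finset V)
    (p q B : ℕ) (δ h ε : ℝ) (η θ : ℕ → ℝ), Amb H X p q B δ →
    CstG (p + q + 2) B η θ h δ ε → Mst H X p q η M → Z.card ≤ B → Disjoint M Z →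
    M.Nonempty → M ⊆ X → M.card ≤ p + 1 → θ M.card < Mix H X M (p + 1 - M.card) q →
    ∃ l : List V, l.Nodup ∧ (∀ v ∈ l, v ∉ Z) ∧
      l.map (fun v => decide (v ∈ X)) =
        List.replicate (q + 1) false ++ List.replicate (p + 2) true ++
          List.replicate q false ++ List.replicate (p + 1 - M.card) true ∧
      OKl H X (p + q + 2) ε (fw (low p q) ++ vx l ++
        fw ((List.replicate (M.card + 1) true ++ List.replicate q false ++
          List.replicate p true).take (p + q + 1)))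

/-- **G10** PASS (neutral insertion) of an arbitrary vertex `v` as the letter `b` in the periodic word
`b m` of weight `p` or `p+2`, if the density `D(v; letters of m)` of its link is at least `τ`.
PROOF. G00 with `L = 2k-1`, `c = m ++ b :: m`, `o` fixes only `v` at position `k-1`.  The density of the
`Q` with the letters `m` and `v ∪ Q ∈ H` is `≥ τ`; blow-up (E20, `k-1` coordinates): `≥ τ^(2^k)`; copies 0
before `v`, copies 1 after `v`; `P f` = (all windows of the block are edges; each is `v` plus a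
transversal): core.  The other windows have weight `wt (b :: m)` and no fixed vertex (`∅` is
normal); `e₀ = η 0`.  Cut `List.ofFn f` into `l₁ ++ v :: l₂`. -/
def StmtG10 : Prop :=
  ∀ (V : Type) [Fintype V] [DecidableEq V] (H : Finset (Finset V)) (X : Finset V)
    (p q B : ℕ) (δ ε κ τ : ℝ) (η : ℕ → ℝ) (v : V) (b : Bool) (m : List Bool), 1 ≤ p + q →
    Amb H X p q B δ → ¬ Non H X p q η ∅ → 0 < ε → ε ≤ 1 → 0 < τ → τ ≤ 1 → 0 ≤ η 0 →
    m.length = p + q + 1 → (wt (b :: m) = p ∨ wt (b :: m) = p + 2) →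
    τ ≤ D H X {v} (m.count true) (m.count false) →
    κ ≤ τ ^ (2 ^ (p + q + 2)) / (100 * ((p + q + 2 : ℕ) : ℝ)) * (Fintype.card V : ℝ) →
    32 * ((p + q + 2 : ℕ) : ℝ) * η 0 ≤ ε * τ ^ (2 ^ (p + q + 2)) →
    100 * ((p + q + 2 : ℕ) : ℝ) * δ ≤ ε * τ ^ (2 ^ (p + q + 2)) →
    Two H X (p + q + 2) ε κ v m m (m ++ [b]).tail (b :: m).dropLast

/-- **G11** EXCEPTIONAL VERTICES are few.
PROOF. `C = {v | Non {v}}`.  The average of `D({v}; p, q+1)` over `v ∈ X` is `D(∅; p+1, q+1)` and the
average of `D({v}; p+1, q)` over `v ∉ X` is the same number (E02, E03); Markov in `X` and in `Xᶜ`. -/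
def StmtG11 : Prop :=
  ∀ (V : Type) [Fintype V] [DecidableEq V] (H : Finset (Finset V)) (X : Finset V)
    (p q : ℕ) (η : ℕ → ℝ), X.Nonempty → (Xᶜ).Nonempty → 0 < η 1 →
    ∃ C : Finset V, (∀ v, v ∈ C ↔ Non H X p q η {v}) ∧
      (C.card : ℝ) * η 1 ≤ D H X ∅ (p + 1) (q + 1) * (Fintype.card V : ℝ)

/-- **G12** Choice of the partition (E24 with the size of the change).  PROOF.  As E24
(`|X Δ X'| ≤ 3 ε n ≤ δ n`). -/
def StmtG12 : Prop :=
  ∀ (V : Type) [Fintype V] [DecidableEq V] (H : Finset (Finset V)) (X : Finset V)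
    (p q B : ℕ) (δ ε : ℝ), Amb H X p q B δ → 0 ≤ ε → 100 * ((p + q + 2 : ℕ) : ℝ) * ε ≤ δ →
    δ ≤ 1 / 40 → D H X ∅ (p + 1) (q + 1) ≤ ε →
    ∃ X' : Finset V, (((X \ X') ∪ (X' \ X)).card : ℝ) ≤ δ * (Fintype.card V : ℝ) ∧
      NF H X' p q ∧ Amb H X' p q B (4 * δ) ∧ D H X' ∅ (p + 1) (q + 1) ≤ ε + δ

/-- **G13** Constants.
PROOF. As E23 with `G x = min (ε x/(8k4^k(B+1)·32)) (ε ((x h/(16k))^3)^(2^k)/(32k))`,
`δ₀ = ε η 0 h/(100 k 4^k (B+1))`. -/
def StmtG13 : Prop :=
  ∀ (k B : ℕ) (ε : ℝ), 2 ≤ k → 0 < ε → ε ≤ 1 →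
    ∃ (η θ : ℕ → ℝ) (h δ₀ : ℝ), 0 < δ₀ ∧ δ₀ ≤ 1 / 10 ∧
      ∀ δ, 0 < δ → δ ≤ δ₀ → CstG k B η θ h δ ε

/-- Complement and reversal of the gadget existence, for the case `M ⊆ Xᶜ`:
**G14** CROSSING with a mixed `M ⊆ Xᶜ`.
PROOF. G09 for `(Xᶜ, q, p)` (E07); complement of letters (`Fit Xᶜ (inr !b) w ↔ Fit X (inr b) w`, so
`BadC H Xᶜ (s with complemented letters) = BadC H X s`) and reversal (`BadC` of the reversed window =
reversed lists): left free letters: reversed complement of `(Y^(μ+1) X^p Y^q).take (k-1)` in the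
`Xᶜ`-letters .., i.e. `((X^p.. )` as displayed; right free letters: complement of `low q p` reversed,
which is `high p q`. -/
def StmtG14 : Prop :=
  ∀ (V : Type) [Fintype V] [DecidableEq V] (H : Finset (Finset V)) (X M Z : Finset V)
    (p q B : ℕ) (δ h ε : ℝ) (η θ : ℕ → ℝ), Amb H X p q B δ →
    CstG (p + q + 2) B η θ h δ ε → Mst H X p q η M → Z.card ≤ B → Disjoint M Z →
    M.Nonempty → M ⊆ Xᶜ → M.card ≤ q + 1 → θ M.card < Mix H X M p (q + 1 - M.card) →
    ∃ l : List V, l.Nodup ∧ (∀ v ∈ l, v ∉ Z) ∧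
      l.map (fun v => decide (v ∈ X)) =
        List.replicate (q + 1 - M.card) false ++ List.replicate p true ++
          List.replicate (q + 2) false ++ List.replicate (p + 1) true ∧
      OKl H X (p + q + 2) ε (fw ((List.replicate (M.card + 1) false ++ List.replicate p true ++
          List.replicate q false).take (p + q + 1)).reverse ++ vx l ++ fw (high p q))

/-- **G15** KINDS.  From the second alternative of E15 (with few connectors) to the kinds of gadgets.
PROOF. `B = (p+q+5)(K+1)`; classes of good sets `M`: (a) bi-coloured with two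
elements, (b) `2 ≤ |M \ X|` and bi-coloured, (c) `2 ≤ |M ∩ X|` and bi-coloured, (d_μ) mixed, `M ⊆ X`,
`|M| = μ`, `2 ≤ μ ≤ p+1`, (e_μ) mixed, `M ⊆ Xᶜ`, `|M| = μ`, `2 ≤ μ ≤ q+1`, (f) `|M| = 1`: then `M ⊆ C`, excluded if `F ⊇ C`.
PIGEONHOLE: if each of the `3+p+q` classes had a set of at most `K` vertices which
meets all its members, the union of these sets and `C` would meet all
good sets.  So one class has members outside every set of `K` vertices.  (a): G07 gives `KindP`.
(b): `KindR`: `RMoves` at level `p+2` by G05(R) (`j + 2 ≤ k`, i.e. `1 ≤ q`, because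
`2 ≤ |M \ X| ≤ q+1`), crossing by G06 (`low p q = per (blk k p) a (k-1)` with `a = p+2`:
letters at the classes `p+2, .., k-1` (Y^q), `0, .., p-1` (X^p), `p` (Y); `wt (high p q) = p+1 = j`).
(c): `KindL`: G05(L) (`2 ≤ j` because `2 ≤ |M ∩ X| ≤ p+1`), crossing by G06
(`high p q = per (blk k (p+2)) (p+1) (k-1)`, `wt (low p q) = p`, `p + 1 = j`).
(d_μ): `KindL`: G05(L) (all of `M` in `X`), crossing by G09 (right letters
`X^(μ+1) Y^q X^p` cut `= per (blk k (p+2)) (p+1-μ) (k-1)`).  (e_μ): `KindR`: G05(R), crossing by G14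
(left letters: the reverse of `(Y^(μ+1) X^p Y^q).take (k-1)` is a piece of the periodic word
`blk k p` by the symmetry of contiguous words; right letters `high p q`).  Lengths of `c`: at most
`2 k`. -/
def StmtG15 : Prop :=
  ∀ (V : Type) [Fintype V] [DecidableEq V] (H : Finset (Finset V)) (X C : Finset V)
    (p q K : ℕ) (δ h ε : ℝ) (η θ : ℕ → ℝ), 1 ≤ p + q →
    Amb H X p q ((p + q + 5) * (K + 1)) δ →
    CstG (p + q + 2) ((p + q + 5) * (K + 1)) η θ h δ ε → ¬ Non H X p q η ∅ →
    (∀ v, v ∈ C ↔ Non H X p q η {v}) → C.card ≤ p + q + 2 →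
    (∀ F : Finset V, F.card ≤ (p + q + 5) * (K + 1) →
        ∃ M, GoodM H X p q η θ M ∧ Disjoint M F) →
    KindP V H X (p + q + 2) ε K (p + 1) ∨ KindR V H X (p + q + 2) ε K (p + 1) ∨
      KindL V H X (p + q + 2) ε K (p + 1)

/-- **G17** CHANGE OF THE PARTITION outside a small set `C`.
PROOF. `OKs H X ε s → OKs H X' (2 ε) s`: `BadC H X' s ⊆ BadC H X s ∪ {e | some free entry in C}`; the
second set has at most `k |C| n^(fr s - 1) ≤ ε n^(fr s)` elements (equality of the two sets if
`fr s = 0`).  For `Sup` and `Two` apply the supply to `Z ∪ C`: the letters of the fixed vertices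
(except `z`) agree for `X` and `X'`. -/
def StmtG17 : Prop :=
  ∀ (V : Type) [Fintype V] [DecidableEq V] (H : Finset (Finset V)) (X X' C : Finset V)
    (k : ℕ) (ε : ℝ), (∀ v, v ∉ C → (v ∈ X ↔ v ∈ X')) → 0 < ε →
    (k : ℝ) * (C.card : ℝ) ≤ ε * (Fintype.card V : ℝ) →
    (∀ (K K₀ : ℕ) (uL c uR : List Bool), C.card ≤ K₀ → Sup H X k ε (K + K₀) uL c uR →
      Sup H X' k (2 * ε) K uL c uR) ∧
    (∀ (κ κ' : ℝ) (z : V) (m m' uL uR : List Bool), κ' + (C.card : ℝ) ≤ κ →
      Two H X k ε κ z m m' uL uR →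
      SupT H X' k (2 * ε) κ' z uL (m ++ decide (z ∈ X') :: m') uR)

/-- **G16** GAP THEOREM = `GadStmt` of VDefs (output of block G).
PROOF. `j = p + 1`, `k = p + q + 2`.  `ε₁ = min ε 1 / 4`; constants from G13 with
`B = (p+q+5)(K+k+1)`, `ε₁`; `κ = (θ 1)^(2^k)/(200 k)` (`θ 1 ≤ η 1 ≤ 1/4`).  Given `ρ`:
`δ ≤ δ₀/8` with `4 δ` also below `ρ η 1/8`, `ε₁ η 1/(8 k)`, `κ η 1/8`; `γ` small (`γ 3^k ≤ δ/(200k)`,
`γ ≤ δ/4`), `n₀` from `Amb.big`.  `D H X₀ ∅ (p+1) (q+1) ≤ 3^k γ` (as in E_CRS).  G12 gives `X₁` (NF,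
`Amb` with `4δ`, `∅` normal because `D ≤ 3^k γ + δ ≤ η 0`).  G11: `C`,
`|C| ≤ ((3^k γ + δ)/η 1) n`, so `k |C| ≤ ε₁ n` and `|C| ≤ κ n`, `|C| ≤ ρ n/2`.  `X = X₁ \ C`;
`|X Δ X₀| ≤ ρ n`.
PASS at level `j - 1 = p ≥ 1`: `v ∈ X`: `v ∈ X₁` is normal, letter `true`, `m` has `p-1` letters X and
`q+2` letters Y: `D({v}; p-1, q+2) ≥ 1/2` (E17(2)); `v ∉ X`: letter `false`, `m` has `p` letters X and
`q+1` letters Y: `D({v}; p, q+1) ≥ 1/4` if `v ∉ X₁` (NF), `> η 1` if `v ∈ X₁ ∩ C` (`Non`).  In all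
cases G10 with `τ = η 1` (`θ 1 ≤ η 1`, `thetaG 1`, `delG`), then G17.
E15 for `X₁`: first alternative: `GoodM {z}` is mixed: `θ 1 < Mix H X₁ {z} p q` (both colours,
`p+1-1 = p`, `q+1-1 = q`): G08 and G17 give `Tok H X k (2 ε₁) K j z` for large `n`.  Second
alternative: if `|C| ≥ k` then again (as in the proof of E15 every `{v}`, `v ∈ C`, is good: E10, NF):
`Tok`; otherwise G15 with `K + k` in place of `K`, and G17 for `Sup` (`K₀ = k`).  Everything is
monotone in `ε` and `K`. -/
def StmtG16 : Prop :=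
  StmtE01 → StmtE02 → StmtE03 → StmtE07 → StmtE10 → StmtE15 → StmtE17 → StmtG08 → StmtG10 →
    StmtG11 → StmtG12 → StmtG13 → StmtG15 → StmtG17 → Pool.Agent.KK.GadStmt

end Pool.Agent.KK.E
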