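import Mathlib
import Pool.Agent.KK.StmtsB
import Pool.Agent.Helper69_KK.PLT
import Pool.Agent.Helper69_KK.MIS
import Pool.Agent.Helper70_KK.NSP
import Pool.Agent.Helper31_KK.G0D
import Pool.Agent.Helper39_KK.LEV
import Pool.Agent.Helper39_KK.RES
import Pool.Agent.Helper40_KK.EXC
import Pool.Agent.Helper22_KK.B_GLB
import Pool.Agent.Helper3_KK.NTR
import Pool.Agent.Helper70_KK.TYP
import Pool.Agent.Helper70_KK.UNI
import Pool.Agent.Helper70_KK.MIN
import Pool.Agent.Helper70_KK.WGR
import Pool.Agent.Helper80_KK.STR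
import Pool.Agent.Helper45_KK.GBX
import Pool.Agent.Helper87_KK.NBR

/-! Assembly of block B, first part (structure theorem for labelled tuples). -/

namespace Pool.Agent.KK.B

theorem plt : PltStmt := H69.plt
theorem nsp : NspStmt := H70.nsp plt
theorem exc : ExcStmt := H40.exc plt nsp

/-- the structure theorem, from the two rows CHN and MSX -/
theorem str_of (chn : PltStmt → NspStmt → ExcStmt → ChnStmt)
    (msx : GbxStmt → MisStmt → MinStmt → WgrStmt → MsxStmt) : StrStmt := by
  have hchn := chn plt nsp exc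
  have hglb : GlbStmt := H22.glb plt nsp hchn
  have hntr : NtrStmt := H3.ntr plt H39.res_row
  have huni : UniStmt := H70.uni nsp H31.g0d H39.lev_row hglb H39.res_row H70.typ'
  have hgbx : GbxStmt := H45.gbx nsp H31.g0d H39.lev_row hglb H39.res_row hntr
  have hmsx : MsxStmt := msx hgbx H69.mis H70.minT H70.wgr
  exact H80.str huni hmsx H69.mis H87.nbr

end Pool.Agent.KK.B
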