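import Mathlib
import Pool.Agent.KK.AsmB1
import Pool.Agent.KK.StmtsB2
import Pool.Agent.Helper41_KK.CHN
import Pool.Agent.Helper24_KK.MSX
import Pool.Agent.Helper52_KK.BAUG
import Pool.Agent.Helper52_KK.BCNC
import Pool.Agent.Helper19_KK.CNV
import Pool.Agent.Helper91_KK.CLI
import Pool.Agent.Helper65_KK.BCLU
import Pool.Agent.Helper6_KK.B_RUN
import Pool.Agent.Helper41_KK.BRG
import Pool.Agent.Helper41_KK.CLO

/-! Assembly of block B: the structure theorem `KK.StrStmt` of `StmtsD`. -/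

namespace Pool.Agent.KK.B

/-- the structure theorem for labelled tuples -/
theorem strB : StrStmt :=
  str_of (fun _ hn he => H41.b_chn hn he) (fun hg hm hi hw => H24.msx hg hm hi hw)

end Pool.Agent.KK.B

namespace Pool.Agent.KK

/-- THE OUTPUT OF BLOCK B -/
theorem strKK : StrStmt :=
  B.H41.brg B.strB B.H52.aug (B.H91.cli B.H52.aug B.H19.cnv (B.H52.cnc B.H19.cnv))
    (B.H65.clu B.H52.aug B.H19.cnv (B.H52.cnc B.H19.cnv)) B.H6.run H41.clo

end Pool.Agent.KK
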