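import Pool.Agent.Helper3_KK.E_DEN
import Pool.Agent.Helper32_KK.E_PUL
import Pool.Agent.Helper3_KK.E_FUB
import Pool.Agent.Helper39_KK.E_DEG
import Pool.Agent.Helper8_KK.E_WIN
import Pool.Agent.Helper15_KK.E_COD
import Pool.Agent.Helper81_KK.E_SYM
import Pool.Agent.Helper92_KK.E_HYB
import Pool.Agent.Helper8_KK.E_GRO
import Pool.Agent.Helper92_KK.E_TRI
import Pool.Agent.Helper62_KK.E_MAR
import Pool.Agent.Helper2_KK.E_GEN
import Pool.Agent.Helper17_KK.E_VTX
import Pool.Agent.Helper77_KK.E_CNT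
import Pool.Agent.Helper64_KK.E_SUP
import Pool.Agent.Helper39_KK.E_OFN
import Pool.Agent.Helper37_KK.E_ORD
import Pool.Agent.Helper37_KK.E_WRD
import Pool.Agent.Helper47_KK.EBic
import Pool.Agent.Helper94_KK.E_BLO
import Pool.Agent.Helper40_KK.E_MIX
import Pool.Agent.Helper72_KK.EREV
import Pool.Agent.Helper37_KK.E_CST
import Pool.Agent.Helper77_KK.E_PAR
import Pool.Agent.Helper84_KK.E_ONE
import Pool.Agent.Helper94_KK.E_CRS

/-!
# Block E assembled: unconditional theorems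
-/

set_option autoImplicit false

namespace Pool.Agent.KK.E

theorem p01 : StmtE01 := H3.e_den
theorem p02 : StmtE02 := H32.e_pul
theorem p03 : StmtE03 := H3.e_fub p01
theorem p04 : StmtE04 := H39.e_deg p01 p02
theorem p05 : StmtE05 := H8.e_win p02
theorem p06 : StmtE06 := H15.e_cod p01 p02 p03 p04
theorem p07 : StmtE07 := H81.e_sym p02
theorem p08 : StmtE08 := H92.e_hyb p01 p02
theorem p09 : StmtE09 := H8.e_gro p01 p02 p08
theorem p10 : StmtE10 := H92.e_tri p01 p02 p03 p04 p08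
theorem p11 : StmtE11 := H62.e_mar p01 p02 p03
theorem p12 : StmtE12 := H2.e_gen p01 p02 p04 p11
theorem p13 : StmtE13 := H17.e_vtx p01 p02 p03 p05 p09 p11 p12
theorem p14 : StmtE14 := H77.e_cnt
theorem p15 : StmtE15 := H64.e_sup p01 p02 p07 p10 p12 p13 p14
theorem p16 : StmtE16 := H39.e_ofn
theorem p17 : StmtE17 := H37.e_ord p06
theorem p18 : StmtE18 := H37.e_wrd
theorem p19 : StmtE19 := H47.e19 p01 p02 p04 p05 p16 p17 p18
theorem p20 : StmtE20 := H94.e_blo p02
theorem p21 : StmtE21 := H40.e_mix p01 p02 p04 p05 p16 p17 p18 p20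
theorem p22 : StmtE22 := H72.e_rev p02 p07 p21
theorem p23 : StmtE23 := H37.e_cst
theorem p24 : StmtE24 := H77.e_par p02 p03 p06
theorem p25 : StmtE25 := H84.e_one p15 p19 p21 p22 p23 p24
theorem crs : Pool.Agent.KK.CrsStmt := H94.e_crs p25

end Pool.Agent.KK.E
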