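import Pool.Agent.KK.StmtsD
import Pool.Agent.KK.AsmB
import Pool.Agent.KK.AsmE
import Pool.Agent.Helper74_KK.K
import Pool.Agent.Helper86_KK.REA
import Pool.Agent.Helper62_KK.WKT
import Pool.Agent.Helper86_KK.JON
import Pool.Agent.Helper92_KK.CHN
import Pool.Agent.Helper52_KK.GDC
import Pool.Agent.Helper44_KK.RPL
import Pool.Agent.Helper44_KK.GRJ
import Pool.Agent.Helper41_KK.ABS2
import Pool.Agent.Helper52_KK.CNF
import Pool.Agent.Helper72_KK.JSQ
import Pool.Agent.Helper89_KK.ASM
import Pool.Agent.Helper31_KK.SWC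
import Pool.Agent.Helper97_KK.BLK
import Pool.Agent.Helper91_KK.COA
import Pool.Agent.Helper33_KK.COB
import Pool.Agent.Helper6_KK.COV
import Pool.Agent.Helper92_KK.ALP
import Pool.Agent.Helper16_KK.TCL
import Pool.Agent.Helper97_KK.DIC
import Pool.Agent.Helper41_KK.CLO
import Pool.Agent.Helper31_KK.CVR
import Pool.Agent.Helper65_KK.TIM
import Pool.Agent.Helper32_KK.CSY
import Pool.Agent.Helper25_KK.TOU
import Pool.Agent.Helper83_KK.ALF

/-! # MP_747bc0_co: alpha, assembled -/

namespace Pool.Agent.KK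

open Pool.Agent.KK

theorem famKK : FamStmt := H74.fam
theorem ckqKK : CkqStmt := H74.ckq
theorem erdKK : ErdStmt := H74.erd
theorem reaKK : ReaStmt := H86.rea
theorem wktKK : WktStmt := H62.wkt
theorem jonKK : JonStmt := H86.jon reaKK wktKK
theorem chnKK : ChnStmt := H92.chn
theorem gdcKK : GdcStmt := H52.gdc
theorem rplKK : RplStmt := H44.rpl
theorem grjKK : GrjStmt := H44.grj
theorem absKK : AbsStmt := H41.abs_row famKK grjKK rplKK
theorem cnfKK : CnfStmt := H52.cnf famKK
theorem jsqKK : JsqStmt := H72.jsq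
theorem asmKK : AsmStmt := H89.asm absKK cnfKK jsqKK rplKK
theorem swcKK : SwcStmt := H31.swc ckqKK
theorem blkKK : BlkStmt := H97.blk ckqKK
theorem coaKK : CoaStmt := H91.coa erdKK
theorem cobKK : CobStmt := H33.cob coaKK erdKK
theorem covKK : CovStmt := H6.cov cobKK
theorem alpKK : AlpStmt := H92.alp chnKK swcKK blkKK gdcKK asmKK covKK
theorem tclKK : TclStmt := H16.tcl jonKK
theorem dicKK : DicStmt := H97D.dic
theorem cloKK : CloStmt := H41.clo
theorem cvrKK : CvrStmt := H31.cvr
theorem timKK : TimStmt := H65.tim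
theorem csyKK : CsyStmt := H32.csy
theorem touKK : TouStmt := H25.tou

theorem alphaKK : AlphaStmt :=
  H83.alf strKK E.crs alpKK tclKK cloKK cvrKK timKK csyKK touKK

end Pool.Agent.KK
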