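import Pool.Agent.KK.StmtsBeta

/-!
# Block BETA: local lemma, assembly and words (author helper5)

`H` arbitrary, `X` a set of vertices, `X` = letter `true`, the complement `Y` = letter `false`.
-/

set_option autoImplicit false

namespace Pool.Agent.KK

/-! ## Part 1: bulk (lopsided local lemma) -/

/-- CYC (cyclic windows).  PROOF.  The list `L ++ L.take (k-1)` has `n + k - 1` entries; an infix of
length `k` starts at some `i` with `i + k ≤ n + k - 1`, i.e. `i < n`, and its entries are
`L[(i + j) mod n]`, the entries of `(L.rotate i).take k`. -/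
def CycStmt : Prop :=
  ∀ (α : Type) (L : List α) (k : ℕ), 1 ≤ k → k ≤ L.length → ∀ s : List α,
    (s <:+: L ++ L.take (k - 1) ∧ s.length = k) ↔ ∃ i < L.length, s = (L.rotate i).take k

/-- FIB (a first filling).  PROOF.  Colour the positions by their slots and the vertices by
`v ↦ inl v` if `v` is fixed and `v ↦ inr (decide (v ∈ X))` otherwise.  A colour `inl v` has one
position and one vertex (the fixed vertices are distinct) or none; the colour `inr true` has
`cX X L - #(fixed vertices in X) = |X| - #(fixed in X)` positions and as many vertices; the colour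
`inr false` has the rest, `n - |X| - #(fixed outside X)`.  Equal fibres give a bijection
(`Equiv.ofFiberEquiv` or counting). -/
def FibStmt : Prop :=
  ∀ (V : Type) [Fintype V] [DecidableEq V] (X : Finset V) (L : List (Slot V)),
    L.length = Fintype.card V → (fx L).Nodup → cX X L = X.card →
    ∃ σ : Fin L.length ≃ V, ∀ i, (if σ i ∈ fx L then (Sum.inl (σ i) : Slot V)
      else Sum.inr (decide (σ i ∈ X))) = L.get i

/-- BULK.  A cyclic list of slots with few fixed vertices, all windows fine, and such that for every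
non-fixed vertex `v` and every completely free window, the completions through `v` are fine, can be
completed to a Hamilton cycle.

PROOF.  Local lemma for random bijections (`Pool.Agent.THC.H5.lll` with `pr_le`, file
`Helper5_THC/Lll.lean`; or `lll_bij` of `Helper27_THC/Lll.lean`).  Positions `Fin n`, colours as in
FIB (fixed positions get a colour of their own, so the bijection extends the prescription).  EVENTS:
for every `i < n` with window `s_i = (L.rotate i).take k` (CYC), `fr s_i ≥ 1`, and every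
`e ∈ BadC H X s_i` whose entries at the free slots are not fixed vertices: the event which assigns
`e_j` to the position `i + j` for the free slots `j`.  Probability `≤ (2/N)^(fr s_i)`, `N ≥ n/8` the
smallest size of a class `{v not fixed, v ∈ X}`, `{v not fixed, v ∉ X}` (`n/4 - ε n`), so a window has
total probability `≤ ε n^(fr) (16/n)^(fr) ≤ 16^k ε`.  Conflicting events share a position (at most
`2k` windows) or a vertex `v` (at most `k` vertices): completely free windows through `v` at slot `j`: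
at most `n k` pairs, each `≤ ε n^(k-1) (16/n)^k`, together `≤ k 16^k ε`; windows with at least one
fixed slot: at most `k · #fixed ≤ k ε n`, completions through `v`: `≤ k n^(fr-1)`, together
`≤ k^2 16^k ε`.  So the sum is `≤ (2k + k (k + k^2)) 16^k ε ≤ 1/4` for small `ε`.  The bijection `σ`
which avoids all events: every window `e = σ(i), .., σ(i+k-1)` fits `s_i` and is nodup; if
`e.toFinset ∉ H` it is a bad completion: if `fr s_i ≥ 1` its event happens, contradiction; if
`fr s_i = 0` then `OKs` says `#BadC ≤ ε < 1`, so `BadC` is empty (it is finite), contradiction.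
`l = List.ofFn σ` and CYC give `Ham`. -/
def BulkStmt : Prop :=
  ∀ k : ℕ, 2 ≤ k → ∃ ε : ℝ, 0 < ε ∧ ε < 1 ∧ ∃ n₀ : ℕ,
    ∀ (V : Type) [Fintype V] [DecidableEq V] (H : Finset (Finset V)) (X : Finset V)
      (L : List (Slot V)), n₀ ≤ Fintype.card V → L.length = Fintype.card V → (fx L).Nodup →
      ((fx L).length : ℝ) ≤ ε * (Fintype.card V : ℝ) → cX X L = X.card →
      Fintype.card V ≤ 4 * X.card → 4 * X.card ≤ 3 * Fintype.card V →
      OKl H X k ε (L ++ L.take (k - 1)) →
      (∀ (v : V) (u₁ u₂ : List Bool), u₁.length + 1 + u₂.length = k → v ∉ fx L →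
        (fw u₁ ++ Sum.inr (decide (v ∈ X)) :: fw u₂ : List (Slot V)) <:+: L ++ L.take (k - 1) →
        ((BadC H X (fw u₁ ++ Sum.inl v :: fw u₂)).ncard : ℝ) ≤
          ε * (Fintype.card V : ℝ) ^ (k - 1)) →
      Ham H k

/-! ## Part 2: plans and their realisation -/

/-- `Pl u v N a q`: there is a plan which starts after the `k-1` free letters `u`, appends `N` slots,
`a` of them for vertices of `X`, uses `q` gadgets (each with unlimited supply), and ends with the
`k-1` free letters `v`.  All completely free windows have parity `p`. -/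
inductive Pl (V : Type) [Fintype V] [DecidableEq V] (H : Finset (Finset V)) (X : Finset V)
    (k p : ℕ) (ε : ℝ) (K : ℕ) : List Bool → List Bool → ℕ → ℕ → ℕ → Prop
  | nil (u : List Bool) : u.length = k - 1 → Pl V H X k p ε K u u 0 0 0
  | letter (u v : List Bool) (N a q : ℕ) (b : Bool) : Pl V H X k p ε K u v N a q →
      wt (v ++ [b]) % 2 = p → Pl V H X k p ε K u (v ++ [b]).tail (N + 1) (a + wt [b]) q
  | gadget (u v : List Bool) (N a q : ℕ) (c uR : List Bool) : Pl V H X k p ε K u v N a q →
      1 ≤ c.length → c.length ≤ 2 * k → uR.length = k - 1 → Sup H X k ε K v c uR →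
      Pl V H X k p ε K u uR (N + c.length + (k - 1)) (a + wt c + wt uR) (q + 1)

/-- NEA (free windows).  PROOF.  Sum `Near` over the vertex in the first slot:
`BadC (fw (b :: u)) ` is the disjoint union over the `v` with `(v ∈ X ↔ b)` of the sets
`BadC (inl v :: fw u)` (same lists), so at most `n · γ n^(k-1)`. -/
def NeaStmt : Prop :=
  ∀ (V : Type) [Fintype V] [DecidableEq V] (H : Finset (Finset V)) (X : Finset V) (k p : ℕ)
    (γ : ℝ), 1 ≤ k → 0 ≤ γ → Near H X k p γ → ∀ u : List Bool, u.length = k → wt u % 2 = p →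
    ((BadC H X (fw u)).ncard : ℝ) ≤ γ * (Fintype.card V : ℝ) ^ k

/-- REA (realisation of a plan).  PROOF.  Induction on the plan (the hypothesis `2 k q ≤ K` passes to
shorter plans).  Letter step: append `inr b`; the new windows of length `k` of `fw u ++ L` end at the
new slot and equal `fw (v ++ [b])`, since the last `k-1` slots of `fw u ++ L` are `fw v`; fine by NEA
(`γ ≤ ε`).  Gadget step: take `l` from `Sup` outside the set `Z` of the vertices already fixed
(`≤ 2 k q ≤ K`), append `vx l ++ fw uR`; a new window ends in `l` or `uR`, so it is contained in the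
last `k-1` old slots and the new ones: an infix of `fw v ++ vx l ++ fw uR`. -/
def RezStmt : Prop :=
  ∀ (V : Type) [Fintype V] [DecidableEq V] (H : Finset (Finset V)) (X : Finset V) (k p : ℕ)
    (γ ε : ℝ) (K : ℕ), 1 ≤ k → 0 ≤ γ → γ ≤ ε → Near H X k p γ →
    ∀ (u v : List Bool) (N a q : ℕ), Pl V H X k p ε K u v N a q → 2 * k * q ≤ K →
    ∃ L : List (Slot V), L.length = N ∧ cX X L = a ∧ (fx L).Nodup ∧ (fx L).length ≤ 2 * k * q ∧
      u.length = k - 1 ∧ v.length = k - 1 ∧ fw v <:+ fw u ++ L ∧ OKl H X k ε (fw u ++ L) ∧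
      ∀ s : List Bool, (fw s : List (Slot V)) <:+: fw u ++ L → s.length = k → wt s % 2 = p

/-- ASM (a closed plan gives a Hamilton cycle).  Uses CYC (if wanted), REA, BULK.  PROOF.  Take `ε`
from BULK.  REA gives `L`; since `N = n ≥ k - 1` and the plan is closed, the last `k-1` slots of `L`
are `fw u`; a window of `L ++ L.take (k-1)` is a window of `L` or of
`fw u ++ L.take (k-1)`, in both cases of `fw u ++ L`.  So all windows are fine, and the completely free
ones have parity `p`: the vertex condition of BULK is `Near` (`γ ≤ ε`).  The number of fixed vertices is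
`≤ 2 k q ≤ K ≤ ε n`. -/
def AssStmt : Prop :=
  ∀ k : ℕ, 2 ≤ k → ∃ ε : ℝ, 0 < ε ∧ ε < 1 ∧ ∀ K : ℕ, ∃ n₀ : ℕ,
    ∀ (V : Type) [Fintype V] [DecidableEq V] (H : Finset (Finset V)) (X : Finset V) (p : ℕ)
      (γ : ℝ), n₀ ≤ Fintype.card V → 0 ≤ γ → γ ≤ ε → Near H X k p γ →
      Fintype.card V ≤ 4 * X.card → 4 * X.card ≤ 3 * Fintype.card V →
      ∀ (u : List Bool) (q : ℕ), Pl V H X k p ε K u u (Fintype.card V) X.card q → 2 * k * q ≤ K →
      Ham H k

/-! ## Part 3: calculus of plans -/

/-- TRA (composition).  PROOF.  Induction on the second plan. -/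
def TraStmt : Prop :=
  ∀ (V : Type) [Fintype V] [DecidableEq V] (H : Finset (Finset V)) (X : Finset V) (k p : ℕ)
    (ε : ℝ) (K : ℕ) (u v w : List Bool) (N N' a a' q q' : ℕ),
    Pl V H X k p ε K u v N a q → Pl V H X k p ε K v w N' a' q' →
    Pl V H X k p ε K u w (N + N') (a + a') (q + q')

/-- PER (periodic stretch).  PROOF.  Induction on `m`; a letter step appends the letter
`w[(a + m + k - 1) mod k]` to the context `per w (a + m) (k - 1)`; the window is a rotation of `w`, of
weight `wt w`; `per w b (m+1) = per w b m ++ [letter]`. -/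
def PerStmt : Prop :=
  ∀ (V : Type) [Fintype V] [DecidableEq V] (H : Finset (Finset V)) (X : Finset V) (k p : ℕ)
    (ε : ℝ) (K : ℕ) (w : List Bool) (a m : ℕ), 1 ≤ k → w.length = k → wt w % 2 = p →
    Pl V H X k p ε K (per w a (k - 1)) (per w (a + m) (k - 1)) m (wt (per w (a + k - 1) m)) 0

/-- PWT (elementary facts on periodic words).  PROOF.  Unfold; a full period is a rotation of `w`;
`per` is periodic in `a` with period `k`; rotations of `w`; reversal. -/
def PwtStmt : Prop :=
  (∀ (w : List Bool) (a : ℕ), wt (per w a w.length) = wt w) ∧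
  (∀ (w : List Bool) (a m : ℕ), per w (a + w.length) m = per w a m) ∧
  (∀ (w : List Bool) (a m : ℕ), (per w a m).length = m) ∧
  (∀ (w : List Bool) (a m m' : ℕ), per w a (m + m') = per w a m ++ per w (a + m) m') ∧
  (∀ (w : List Bool) (a b m : ℕ), 1 ≤ w.length → per (per w a w.length) b m = per w (a + b) m) ∧
  (∀ (w : List Bool) (m : ℕ), m ≤ w.length → per w 0 m = w.take m) ∧
  (∀ (w : List Bool) (a m : ℕ), 1 ≤ w.length → ∃ b : ℕ, (per w a m).reverse = per w.reverse b m)

/-- BLR (contiguous words are symmetric).  PROOF.  `blk k t` reversed is the rotation of `blk k t` by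
`t` (k-t letters Y, then t letters X); the complement of `blk k t` is the rotation of
`blk k (k - t)`. -/
def BlrStmt : Prop :=
  ∀ (k t : ℕ), t ≤ k → 1 ≤ k →
    (∀ a m : ℕ, ∃ b : ℕ, (per (blk k t) a m).reverse = per (blk k t) b m) ∧
    (∀ a m : ℕ, ∃ b : ℕ, (per (blk k t) a m).map not = per (blk k (k - t)) b m) ∧
    (blk k t).length = k ∧ wt (blk k t) = t

/-- SRV (reversal).  PROOF.  Reverse `l`; `BadC` of a reversed window is the set of the reversed
completions (`toFinset` and `Nodup` do not change), infixes of the reversed list are the reversed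
infixes. -/
def SrvStmt : Prop :=
  ∀ (V : Type) [Fintype V] [DecidableEq V] (H : Finset (Finset V)) (X : Finset V) (k : ℕ)
    (ε : ℝ) (K : ℕ) (uL c uR : List Bool), Sup H X k ε K uL c uR →
    Sup H X k ε K uR.reverse c.reverse uL.reverse

/-- SCO (complement).  PROOF.  `Fit Xᶜ (inr !b) w ↔ Fit X (inr b) w`. -/
def ScoStmt : Prop :=
  ∀ (V : Type) [Fintype V] [DecidableEq V] (H : Finset (Finset V)) (X : Finset V) (k : ℕ)
    (ε : ℝ) (K : ℕ) (uL c uR : List Bool), Sup H X k ε K uL c uR ↔
    Sup H Xᶜ k ε K (uL.map not) (c.map not) (uR.map not)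

/-- PCO (plans and complement).  Uses SCO.  PROOF.  Induction on the plan; a window of length `k` and
weight `w` becomes one of weight `k - w`, whose parity is `(k - p) mod 2`, i.e. `(k + p) mod 2`. -/
def PcoStmt : Prop :=
  ∀ (V : Type) [Fintype V] [DecidableEq V] (H : Finset (Finset V)) (X : Finset V) (k p : ℕ)
    (ε : ℝ) (K : ℕ) (u v : List Bool) (N a q : ℕ), 1 ≤ k → p < 2 →
    Pl V H X k p ε K u v N a q → a ≤ N ∧
      Pl V H Xᶜ k ((k + p) % 2) ε K (u.map not) (v.map not) N (N - a) q

/-! ## Part 4: right moves -/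

/-- RST (one right move in absolute time).  `W` of length `k`, X at the class `c - 1` (at `k-1` if
`c = 0`) and Y at the class `c`, `W'` with these two letters exchanged.

PROOF.  `RMoves` with `m` = letters of the classes `c+1, .., c+k-2`.  Letter steps (PER) from the
context at time `0` to the context at time `c+1` (`c+1` letters); this is `m ++ [X]`.  The gadget
(`k` fixed vertices at the times `k+c, .., 2k+c-1`, then the `k-1` letters `X m`): context
`per W' c (k-1)` at time `2k+c`.  Letter steps up to time `3k` (`k-c` letters).  All in all `3k` slots.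
The word is `W` before the time `2k+c-1` and `W'` from this time on; the number of X at the times
`k-1, .., 4k-2` is `3 wt W`, minus 1 if `c = k-1`: other classes 3 times each; class `c-1`: once (X only
before the change), class `c`: X at `2k+c` and, if `c ≤ k-2`, at `3k+c`. -/
def RstStmt : Prop :=
  ∀ (V : Type) [Fintype V] [DecidableEq V] (H : Finset (Finset V)) (X : Finset V) (k p : ℕ)
    (ε : ℝ) (K : ℕ) (W W' : List Bool) (c : ℕ), 2 ≤ k → W.length = k → W'.length = k → c < k →
    wt W % 2 = p → RMoves H X k ε K (wt W) →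
    W.getD ((c + k - 1) % k) false = true → W.getD c true = false →
    (∀ i < k, W'.getD i false =
      if i = c then true else if i = (c + k - 1) % k then false else W.getD i false) →
    Pl V H X k p ε K (per W 0 (k - 1)) (per W' 0 (k - 1)) (3 * k)
      (3 * wt W - if c + 1 = k then 1 else 0) 1

/-- height functions of period `(k, t)` -/
def Hgt (k t : ℕ) (h : ℤ → ℤ) : Prop :=
  (∀ x, h (x + 1) = h x ∨ h (x + 1) = h x + 1) ∧ ∀ x, h (x + k) = h x + t

/-- the word of a height function -/
noncomputable def wd (k : ℕ) (h : ℤ → ℤ) : List Bool :=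
  (List.range k).map fun i => decide (h ((i : ℤ) + 1) = h (i : ℤ) + 1)

/-- HLO (lowering).  PROOF.  Let `M > 0` be the maximum of `h - h'` (periodic).  At a maximum point
`x`: if `h (x+1) = h x + 1` then `x+1` is a maximum point; since `t < k` we reach a maximum point with
`h (x+1) = h x`.  If then `h (x-1) = h x`, the point `x-1` is a maximum point with the same property;
since `t > 0` we reach one with `h (x-1) = h x - 1`.  Take its class `c`, `0 ≤ c < k`.  The function
`h - 1` at the class `c` is a height function `≥ h'`. -/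
def HloStmt : Prop :=
  ∀ (k t : ℕ) (h h' : ℤ → ℤ), 0 < t → t < k → Hgt k t h → Hgt k t h' → (∀ x, h' x ≤ h x) →
    (∃ x, h' x ≠ h x) → ∃ c : ℕ, c < k ∧ h c = h ((c : ℤ) - 1) + 1 ∧ h ((c : ℤ) + 1) = h c ∧
      Hgt k t (fun x => if (k : ℤ) ∣ x - c then h x - 1 else h x) ∧
      ∀ x, h' x ≤ if (k : ℤ) ∣ x - c then h x - 1 else h x

/-- HWD (words and heights).  PROOF.  The number of `x` in `[0,k)` with `h (x+1) = h x + 1` is
`h k - h 0 = t`.  For `W` take `h x = ⌊x/k⌋ t +` number of X among the first `x mod k` letters; two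
height functions `h, h'` satisfy `h' - C ≤ h` for `C = t + |h' 0 - h 0|`, here `h 0 = h' 0 = 0`. -/
def HwdStmt : Prop :=
  (∀ (k t : ℕ) (h : ℤ → ℤ), Hgt k t h → (wd k h).length = k ∧ wt (wd k h) = t) ∧
  (∀ (W : List Bool), 1 ≤ W.length → ∃ h : ℤ → ℤ, Hgt W.length (wt W) h ∧ wd W.length h = W ∧
    h 0 = 0 ∧ ∀ x : ℤ, 0 ≤ x → x < W.length → 0 ≤ h x ∧ h x ≤ wt W)

/-- RCH (a chain of right moves).  Uses HLO, HWD, RST, TRA.  PROOF.  Induction on
`D = ∑_(x<k) (h x - h' x)`.  If `D = 0` then `h = h'` (periodicity) and the plan is empty.  Otherwise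
HLO; the word of the lowered function is `W'` of RST, with `3k` slots and `3t - [c = k-1]` letters X. -/
def RchStmt : Prop :=
  ∀ (V : Type) [Fintype V] [DecidableEq V] (H : Finset (Finset V)) (X : Finset V) (k p t : ℕ)
    (ε : ℝ) (K : ℕ) (h h' : ℤ → ℤ), 2 ≤ k → 0 < t → t < k → t % 2 = p →
    RMoves H X k ε K t → Hgt k t h → Hgt k t h' → (∀ x, h' x ≤ h x) →
    ∃ D a : ℕ, (D : ℤ) = ∑ x ∈ Finset.range k, (h x - h' x) ∧
      (a : ℤ) = 3 * t * D - (h ((k : ℤ) - 1) - h' ((k : ℤ) - 1)) ∧
      Pl V H X k p ε K (per (wd k h) 0 (k - 1)) (per (wd k h') 0 (k - 1)) (3 * k * D) a D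

/-- RCON (all words of a level with right moves are connected, with both parities).  Uses RCH, HWD.
PROOF.  `h, h'` for `W, W'` from HWD; use `h' - t` and `h' - t - 1`: both are `≤ h`, the sums `D` are
at most `k (2t + 1) ≤ 2 k^2`, and `e = h (k-1) - h' (k-1) + t (+ 1)`, `0 ≤ e ≤ 2t + 1`. -/
def RconStmt : Prop :=
  ∀ (V : Type) [Fintype V] [DecidableEq V] (H : Finset (Finset V)) (X : Finset V) (k p t : ℕ)
    (ε : ℝ) (K : ℕ) (W W' : List Bool) (δ : ℕ), 2 ≤ k → 0 < t → t < k → t % 2 = p →
    RMoves H X k ε K t → W.length = k → W'.length = k → wt W = t → wt W' = t → δ < 2 →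
    ∃ M a e q : ℕ, q ≤ 2 * k ^ 2 ∧ M ≤ 6 * k ^ 2 ∧ a + e = t * M ∧ e ≤ 2 * k ∧ e % 2 = δ ∧
      Pl V H X k p ε K (per W 0 (k - 1)) (per W' 0 (k - 1)) (k * M) a q

/-! ## Part 5: far flips -/

/-- PUP (far flips upwards in absolute time, both counts).  `W` of weight `j - 1` with Y at the
classes `c₁ ≠ c₂`, `W'` = `W` with X there.

PROOF.  Let `d = (c₂ - c₁) mod k`, `m₁` = letters of `W` at the classes `c₁+1, .., c₁+d-1`, `m₂` =
letters at `c₁+d+1, .., c₁+k-1`.  Fixed vertex of `Y` at the time `2k + c₁`, of `X` at the time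
`2k + c₁ + d`.  Letter steps from the context at time `0` to the context at time `c₁ + d + 2` (which is
the left context of the gadget), gadget (`2k-1-d` fixed vertices, `k-1` letters), context at time
`3k + c₁`, letter steps to time `4k`.  The number of X at the times `k-1, .., 5k-2` is
`4 (j-1) + (2 - [c₁ = k-1]) + (3 - [c₂ = k-1] - [c₂ < c₁])`: the class `c₁` has X from the time
`3k + c₁`, the class `c₂` from the time `2k + c₁ + d`.  Exchanging the roles of `c₁` and `c₂` changes
this number by exactly 1. -/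
def PupStmt : Prop :=
  ∀ (V : Type) [Fintype V] [DecidableEq V] (H : Finset (Finset V)) (X : Finset V) (k p j : ℕ)
    (ε : ℝ) (K : ℕ) (W W' : List Bool) (c₁ c₂ : ℕ), 2 ≤ k → W.length = k → W'.length = k →
    c₁ < k → c₂ < k → c₁ ≠ c₂ → wt W + 1 = j → wt W % 2 = p → KindP V H X k ε K j →
    W.getD c₁ true = false → W.getD c₂ true = false →
    (∀ i < k, W'.getD i false = if i = c₁ ∨ i = c₂ then true else W.getD i false) →
    ∃ a : ℕ, a ≤ 4 * k ∧ Pl V H X k p ε K (per W 0 (k - 1)) (per W' 0 (k - 1)) (4 * k) a 1 ∧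
      Pl V H X k p ε K (per W 0 (k - 1)) (per W' 0 (k - 1)) (4 * k) (a + 1) 1

/-- PDN (far flips downwards).  PROOF.  The same with the reversed gadget (SRV): a fixed vertex of `X`
first, the vertex of `Y` at distance `d` later. -/
def PdnStmt : Prop :=
  ∀ (V : Type) [Fintype V] [DecidableEq V] (H : Finset (Finset V)) (X : Finset V) (k p j : ℕ)
    (ε : ℝ) (K : ℕ) (W W' : List Bool) (c₁ c₂ : ℕ), 2 ≤ k → W.length = k → W'.length = k →
    c₁ < k → c₂ < k → c₁ ≠ c₂ → wt W + 1 = j → wt W % 2 = p → KindP V H X k ε K j →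
    W.getD c₁ true = false → W.getD c₂ true = false →
    (∀ i < k, W'.getD i false = if i = c₁ ∨ i = c₂ then true else W.getD i false) →
    ∃ a : ℕ, a ≤ 4 * k ∧ Pl V H X k p ε K (per W' 0 (k - 1)) (per W 0 (k - 1)) (4 * k) a 1

/-! ## Part 6: loops -/

/-- The conclusion of the loop statements: every length `N` and number `a` of X in the open cone
between the levels `j-1` and `j+1` is realised by a closed plan at the contiguous word of level `t`,
with a bounded number of gadgets. -/
def Loops (V : Type) [Fintype V] [DecidableEq V] (H : Finset (Finset V)) (X : Finset V)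
    (k p : ℕ) (ε : ℝ) (K j t K₀ : ℕ) : Prop :=
  ∀ N a : ℕ, (j - 1) * N + K₀ ≤ k * a → k * a + K₀ ≤ (j + 1) * N →
    ∃ q ≤ K₀, Pl V H X k p ε K (per (blk k t) 0 (k - 1)) (per (blk k t) 0 (k - 1)) N a q

/-- GLU (arithmetic of loops).  Base word `w` of weight `s` (context `u = per w 0 (k-1)`), another word
`w'` of weight `s'`, `|s - s'| = 2`.  If for every residue `r` and parity `δ` there are plans from `u`
to `u' = per w' 0 (k-1)` and back with total length `N₀ ≡ r mod k` and such that
`a₀ - s (N₀ - r)/k` has parity `δ`, all sizes bounded by `B`, then all `(N, a)` in the open cone are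
realised.  PROOF.  Insert `M'` periods of `w'` and `M''` periods of `w` (PER, TRA):
`N = N₀ + k (M' + M'')`, `a = a₀ + s' M' + s M''`.  Given `(N, a)` take `r = N mod k`,
`M = (N - N₀)/k` (`N ≥ N₀` since the cone condition gives `2 N ≥ 2 K₀`),
`a - a₀ - s M = (s' - s) M'` with `0 ≤ M' ≤ M` by the cone conditions and an even left side by the
choice of `δ`. -/
def GluStmt : Prop :=
  ∀ k B : ℕ, 2 ≤ k → ∃ K₀ : ℕ, B ≤ K₀ ∧
    ∀ (V : Type) [Fintype V] [DecidableEq V] (H : Finset (Finset V)) (X : Finset V) (p : ℕ)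
      (ε : ℝ) (K j t t' : ℕ) (w' : List Bool), (t + 1 = j ∧ t' = j + 1) ∨ (t = j + 1 ∧ t' + 1 = j) →
      j + 1 ≤ k → t % 2 = p → w'.length = k → wt w' = t' →
      (∀ r δ : ℕ, r < k → δ < 2 → ∃ N₁ a₁ q₁ N₂ a₂ q₂ : ℕ, N₁ + N₂ ≤ B ∧ q₁ + q₂ ≤ B ∧
        a₁ + a₂ ≤ B ∧ (N₁ + N₂) % k = r ∧ (a₁ + a₂ + t * ((N₁ + N₂) / k)) % 2 = δ ∧
        Pl V H X k p ε K (per (blk k t) 0 (k - 1)) (per w' 0 (k - 1)) N₁ a₁ q₁ ∧
        Pl V H X k p ε K (per w' 0 (k - 1)) (per (blk k t) 0 (k - 1)) N₂ a₂ q₂) →
      Loops V H X k p ε K j t K₀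

/-- LOR (loops from KindR, both bases).  Uses RCON, PER, TRA, SRV, BLR, PWT, GLU.
PROOF.  `s = j-1`, `t' = j+1`; crossing `uL c uR`, `uL = per (blk k s) α (k-1)`; `W₁ = uR ++ [b]`,
`W₂ = uR.reverse ++ [b]` of weight `j+1` (`b` = false if `wt uR = j+1`, true if `wt uR = j`).
BASE `s`: letters from the base to `uL` (`α mod k` of them), gadget, context `per W₁ 0 (k-1)`, `ρ`
letters (context `per W₁ ρ (k-1) = per (per W₁ ρ k) 0 (k-1)`): this is the plan to
`w' = per W₁ ρ k`; back: RCON with parity `δ'` to `W₂`, reversed gadget (SRV), context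
`uL.reverse = per (blk k s) β (k-1)` (BLR), `(k - β mod k)` letters to the base.  `ρ < k` arbitrary:
every residue of the length; `δ'` arbitrary: every parity of `a + s (N/k)` (RCON contributes
`a = t' M - e`, `N = k M`, `t' = s + 2`).  Apply GLU with `w' = W₁` and `ρ` letters counted in the way
back (`RCON` from `per W₁ ρ k`).  BASE `j+1`: from `blk k (j+1)` RCON to `W₂`, reversed gadget, letters
to the context `per (blk k s) 0 (k-1)`, `w' = blk k s`; back: letters to `uL`, gadget, `ρ` letters,
RCON from `per W₁ ρ k` to `blk k (j+1)`. -/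
def LorStmt : Prop :=
  ∀ k : ℕ, 3 ≤ k → ∃ K₀ : ℕ,
    ∀ (V : Type) [Fintype V] [DecidableEq V] (H : Finset (Finset V)) (X : Finset V) (p : ℕ)
      (ε : ℝ) (K j : ℕ), 1 ≤ j → j + 1 ≤ k → (j + 1) % 2 = p → KindR V H X k ε K j →
      Loops V H X k p ε K j (j - 1) K₀ ∧ Loops V H X k p ε K j (j + 1) K₀

/-- LOP (loops from KindP, both bases).  Uses PUP, PDN, PER, TRA, BLR, PWT, GLU.
PROOF.  BASE `s = j-1`, `s ≥ 1`: PUP at the classes `s, s+1` of `blk k s` (weight `s+2 = j+1 ≤ k`):
word `blk k (s+2)`, which is `w'`; back: PDN removes the classes `0, s+1` (leaves the classes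
`1, .., s`, the rotation of `blk k s` by one) or the classes `s, s+1` (leaves `blk k s`).  One round with
the first choice, then one letter step fewer/more: the context `per (blk k s) 0 (k-1)` returns at the
times `≡ 1 mod k`.  Repeat it `r` times (in the plan to `w'`: `r` complete rounds first) for the residue
`r`; the two counts of PUP give both parities.  `s = 0`: the word is constant, any number of letters may
be inserted at the base.  BASE `j+1`: from `blk k (j+1)` PDN at the classes `j-1, j` to `blk k (j-1)`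
(weight `j - 1`), which is `w'`, back PUP; rotation by one (if `j + 1 < k`): PDN removes the classes
`0, 1`, PUP adds the classes `1, j+1`; `j + 1 = k`: constant word. -/
def LopStmt : Prop :=
  ∀ k : ℕ, 3 ≤ k → ∃ K₀ : ℕ,
    ∀ (V : Type) [Fintype V] [DecidableEq V] (H : Finset (Finset V)) (X : Finset V) (p : ℕ)
      (ε : ℝ) (K j : ℕ), 1 ≤ j → j + 1 ≤ k → (j + 1) % 2 = p → KindP V H X k ε K j →
      Loops V H X k p ε K j (j - 1) K₀ ∧ Loops V H X k p ε K j (j + 1) K₀

/-- LOL (KindL is KindR for the complement).  Uses SCO, SRV, PCO, BLR, LOR.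
PROOF.  `KindL H X j → KindR H Xᶜ (k - j)`: `LMoves X (j-1)` becomes `RMoves Xᶜ (k-j+1)` (complement of
`m`), the crossing is complemented and reversed.  LOR for `Xᶜ`, `k - j`, `(k+p)%2`; PCO back: the
context `per (blk k (k-t)) 0 (k-1)` becomes `per (blk k t) b (k-1)` for some `b` (BLR), a rotation;
conjugate by `b` letter steps (and `k - b mod k` back: total length `k` more).  The cone conditions
correspond: `a ↦ N - a`. -/
def LolStmt : Prop :=
  ∀ k : ℕ, 3 ≤ k → ∃ K₀ : ℕ,
    ∀ (V : Type) [Fintype V] [DecidableEq V] (H : Finset (Finset V)) (X : Finset V) (p : ℕ)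
      (ε : ℝ) (K j : ℕ), 1 ≤ j → j + 1 ≤ k → p < 2 → (j + 1) % 2 = p → KindL V H X k ε K j →
      Loops V H X k p ε K j (j - 1) K₀ ∧ Loops V H X k p ε K j (j + 1) K₀

/-! ## Part 7: the tour and the theorem -/

/-- SIZ (the two parts have nearly equal size).  PROOF.  Suppose `|X| < (1/2 - η) n`, so the
complement `Y` has more than `n/2` elements.  Let `i = 0` if `p = 1` and `i = 1` if `p = 0`; fix a vertex
`z`, in `Y` if `i = 0` and in `X` if `i = 1` (both are nonempty).  For every set `S ∋ z` of `k-1`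
vertices whose other `k-2` vertices are in `Y`: `|N(S)| ≥ n/2`, so at least `η n` elements of `N(S)` are
in `Y`: edges through `z` with exactly `i` vertices in `X`, `i % 2 ≠ p`.  There are at least
`(n/4)^(k-2)` ordered such `S`, so at least `(n/4)^(k-2) η n` lists in
`GoodC (Sum.inl z :: fw (k-1 letters false))`, against `Near` for `γ < η / 4^(k-2)`.
For `|X| > (1/2 + η) n` apply this to `Xᶜ` (`Near H Xᶜ k ((k + p) % 2) γ`). -/
def SizStmt : Prop :=
  ∀ k : ℕ, 3 ≤ k → ∀ η : ℝ, 0 < η → ∃ γ : ℝ, 0 < γ ∧ ∃ n₀ : ℕ,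
    ∀ (V : Type) [Fintype V] [DecidableEq V] (H : Finset (Finset V)) (X : Finset V) (p : ℕ),
      n₀ ≤ Fintype.card V → Dirac H k → p < 2 → Near H X k p γ → X.Nonempty → Xᶜ.Nonempty →
      (1 / 2 - η) * (Fintype.card V : ℝ) ≤ X.card ∧
      (X.card : ℝ) ≤ (1 / 2 + η) * (Fintype.card V : ℝ)

/-- TOU (the tour).  Uses TRA.  PROOF.  If `k` is odd or `k/2 % 2 ≠ p`: there is `j` with `j % 2 ≠ p`,
`2 (j-1) < k < 2 (j+1)` (`j = k/2` or `(k ± 1)/2`), `1 ≤ j ≤ k-1`; the cone of `j` contains
`(n, |X|)` for large `n`, since `k |X| = k n/2 ± k η n` and `η < 1/(4k)`: apply `Loops j (j-1)`.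
If `k = 2 T` and `T % 2 = p` (`T ≥ 2`): `Loops (T+1) T` and `Loops (T-1) T` at the common base
`blk k T`: `N₁ = n/2`, `a₁` = the integer part of `(2 T + 1) N₁ / (2 k)`, `N₂ = n - N₁`,
`a₂ = |X| - a₁`; both are in the open cones; compose. -/
def TurStmt : Prop :=
  ∀ k K₀ : ℕ, 3 ≤ k → ∃ n₀ : ℕ,
    ∀ (V : Type) [Fintype V] [DecidableEq V] (H : Finset (Finset V)) (X : Finset V) (p : ℕ)
      (ε : ℝ) (K : ℕ), n₀ ≤ Fintype.card V → p < 2 →
      (1 / 2 - 1 / (8 * (k : ℝ))) * (Fintype.card V : ℝ) ≤ X.card →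
      (X.card : ℝ) ≤ (1 / 2 + 1 / (8 * (k : ℝ))) * (Fintype.card V : ℝ) →
      (∀ j : ℕ, 1 ≤ j → j + 1 ≤ k → j % 2 ≠ p →
        Loops V H X k p ε K j (j - 1) K₀ ∧ Loops V H X k p ε K j (j + 1) K₀) →
      ∃ (u : List Bool) (q : ℕ), q ≤ 2 * K₀ ∧
        Pl V H X k p ε K u u (Fintype.card V) X.card q

/-- BETA, the theorem of this block.  Uses GadgetStmt, SIZ, LOR, LOP, LOL, TOU, ASM.  PROOF.  `ε` from
ASM; `K₀` the maximum of the constants of LOR, LOP, LOL (`Loops` is monotone in `K₀`);
`K = 4 k K₀`; `γ` the minimum of `ε`, the `γ` of SIZ for `η = 1/(8k)` and the `γ` of GadgetStmt for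
`(ε, K)` (`Near` is monotone in `γ`). -/
def BetaStmt : Prop :=
  ∀ k : ℕ, 3 ≤ k → ∃ γ : ℝ, 0 < γ ∧ ∃ n₀ : ℕ,
    ∀ (V : Type) [Fintype V] [DecidableEq V] (H : Finset (Finset V)) (X : Finset V) (p : ℕ),
      n₀ ≤ Fintype.card V → Uni H k → Dirac H k → p < 2 → X.Nonempty → Xᶜ.Nonempty →
      Near H X k p γ → Ham H k

end Pool.Agent.KK
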