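import Pool.Agent.KK.VDefs
import Pool.Agent.KK.StmtsW
import Pool.Agent.KK.StmtsD

/-!
# Block BETA: atypical vertices, tokens, pass stage, top level (author helper5)

`Rea` = semantic realisability (replaces `RezStmt`, `AssStmt`).  The main gap is `j`, the base level is
`t = j - 1`, `1 ≤ t`, `2 (j - 1) ≤ k < 2 (j + 1)` (after complementing).
-/

set_option autoImplicit false

namespace Pool.Agent.KK

/-! ## Definitions -/

section
variable {V : Type} [Fintype V] [DecidableEq V]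

/-- The vertices outside `D` are near the parity hypergraph (only the half of `Near` which is needed:
few completions of windows of parity `p` are non-edges). -/
def NearO (H : Finset (Finset V)) (X : Finset V) (k p : ℕ) (γ : ℝ) (D : Finset V) : Prop :=
  ∀ v ∉ D, ∀ u₁ u₂ : List Bool, u₁.length + 1 + u₂.length = k →
    wt (u₁ ++ decide (v ∈ X) :: u₂) % 2 = p →
      ((BadC H X (fw u₁ ++ Sum.inl v :: fw u₂)).ncard : ℝ) ≤ γ * (Fintype.card V : ℝ) ^ (k - 1)

/-- Completely free windows of parity `p` are fine. -/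
def FW (H : Finset (Finset V)) (X : Finset V) (k p : ℕ) (ε : ℝ) : Prop :=
  ∀ s : List Bool, s.length = k → wt s % 2 = p → OKs H X ε (fw s)

/-- `L` is a good list of slots after the `k-1` free letters `u`, ending with the free letters `v`. -/
def Lst (H : Finset (Finset V)) (X : Finset V) (k p : ℕ) (ε : ℝ) (u v : List Bool)
    (L : List (Slot V)) : Prop :=
  u.length = k - 1 ∧ v.length = k - 1 ∧ (fx L).Nodup ∧ fw v <:+ fw u ++ L ∧
    OKl H X k ε (fw u ++ L) ∧
    ∀ s : List Bool, (fw s : List (Slot V)) <:+: fw u ++ L → s.length = k → wt s % 2 = p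

/-- REALISABILITY.  Outside every set `Z` of at most `K` vertices which is disjoint from `D` there is
a good list of slots from `u` to `v`, with `N` slots, `a` of them for `X`, at most `q` fixed vertices,
among them all vertices of `D`. -/
def Rea (H : Finset (Finset V)) (X : Finset V) (k p : ℕ) (ε K : ℝ) (D : Finset V) (q : ℕ)
    (u v : List Bool) (N a : ℕ) : Prop :=
  ∀ Z : Finset V, Disjoint Z D → (Z.card : ℝ) ≤ K → ∃ L : List (Slot V), L.length = N ∧
    cX X L = a ∧ (fx L).length ≤ q ∧ (∀ x ∈ fx L, x ∉ Z) ∧ (∀ x ∈ D, x ∈ fx L) ∧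
    Lst H X k p ε u v L

/-- The context at the beginning of a period of `w`. -/
def cx (k : ℕ) (w : List Bool) : List Bool := per w 0 (k - 1)

/-- All `(N, a)` in the open cone between the levels `j-1` and `j+1`, `N ≡ r mod k`, are realised by
closed lists at the word `w`. -/
def MainL (H : Finset (Finset V)) (X : Finset V) (k p : ℕ) (ε K : ℝ) (D : Finset V)
    (q K₀ j : ℕ) (w : List Bool) (r : ℕ) : Prop :=
  ∀ N a : ℕ, N % k = r → (j - 1) * N + K₀ ≤ k * a → k * a + K₀ ≤ (j + 1) * N →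
    Rea H X k p ε K D q (cx k w) (cx k w) N a

/-- Excursions downwards from the word `w` of weight `j+1` to the level `j-1` (about `M` periods
there), of length divisible by `k`. -/
def Exd (H : Finset (Finset V)) (X : Finset V) (k p : ℕ) (ε K : ℝ) (D : Finset V)
    (q R₀ j : ℕ) (w : List Bool) : Prop :=
  ∀ M : ℕ, ∃ N a : ℕ, N % k = 0 ∧ N ≤ k * M + R₀ ∧
    |(k : ℤ) * a - (j + 1) * N + 2 * k * M| ≤ R₀ ∧
    Rea H X k p ε K D q (cx k w) (cx k w) N a

end

/-! ## Part 1: realisability -/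

/-- NEO (free windows).  PROOF.  Sum over the vertex in the first slot (`BadC (fw (b :: u))` is the
union over the `v` with `(v ∈ X ↔ b)` of `BadC (inl v :: fw u)`): `v ∉ D` contributes at most
`γ n^(k-1)`, `v ∈ D` at most `n^(k-1)`. -/
def NeoStmt : Prop :=
  ∀ (V : Type) [Fintype V] [DecidableEq V] (H : Finset (Finset V)) (X D : Finset V) (k p : ℕ)
    (γ ρ ε : ℝ), 1 ≤ k → 0 ≤ γ → NearO H X k p γ D →
    (D.card : ℝ) ≤ ρ * (Fintype.card V : ℝ) → γ + ρ ≤ ε → FW H X k p ε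

/-- REL (plans are realisable).  PROOF.  As `RezStmt` (`Helper3_KK/REA.lean`): induction on the plan for
the statement with `Z` fixed; a letter step appends `inr b`, the new window is `fw (v ++ [b])`; a gadget
step uses `Sup` outside `Z ∪ fx L`, of size `≤ K' + 2 k q ≤ K`. -/
def RelStmt : Prop :=
  ∀ (V : Type) [Fintype V] [DecidableEq V] (H : Finset (Finset V)) (X : Finset V) (k p : ℕ)
    (ε : ℝ) (K : ℕ) (u v : List Bool) (N a q : ℕ) (K' : ℝ), 1 ≤ k → FW H X k p ε →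
    Pl V H X k p ε K u v N a q → K' + 2 * k * q ≤ K →
    Rea H X k p ε K' ∅ (2 * k * q) u v N a

/-- CMO (composition and monotonicity).  PROOF.  Composition: the first list avoids `Z ∪ D'`, the second one
avoids `Z ∪ fx L₁` (disjoint from `D'`).  A window of `fw u ++ L₁ ++ L₂` is an infix of
`fw u ++ L₁` or of `fw v ++ L₂`, because `fw v` is a suffix of length `k-1` of `fw u ++ L₁`. -/
def CmoStmt : Prop :=
  (∀ (V : Type) [Fintype V] [DecidableEq V] (H : Finset (Finset V)) (X : Finset V) (k p : ℕ)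
    (ε : ℝ) (u v w : List Bool) (L L' : List (Slot V)), 1 ≤ k →
    Lst H X k p ε u v L → Lst H X k p ε v w L' → (∀ x ∈ fx L, x ∉ fx L') →
    Lst H X k p ε u w (L ++ L')) ∧
  (∀ (V : Type) [Fintype V] [DecidableEq V] (H : Finset (Finset V)) (X D D' : Finset V)
    (k p : ℕ) (ε K K' : ℝ) (q q' : ℕ) (u v w : List Bool) (N N' a a' : ℕ), 1 ≤ k →
    Rea H X k p ε K D q u v N a → Rea H X k p ε K D' q' v w N' a' → Disjoint D D' →
    K' + q + D'.card ≤ K → Rea H X k p ε K' (D ∪ D') (q + q') u w (N + N') (a + a')) ∧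
  (∀ (V : Type) [Fintype V] [DecidableEq V] (H : Finset (Finset V)) (X D : Finset V)
    (k p : ℕ) (ε ε' K K' : ℝ) (q q' : ℕ) (u v : List Bool) (N a : ℕ),
    Rea H X k p ε K D q u v N a → ε ≤ ε' → K' ≤ K → q ≤ q' →
    Rea H X k p ε' K' D q' u v N a)

/-- TKR (a special gadget is realisable).  PROOF.  `L = vx l ++ fw uR`, `fx L = l`; no window of length
`k` of `fw uL ++ L` is completely free, since `uL`, `uR` have `k-1` letters and `l` is not empty. -/
def TkrStmt : Prop :=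
  ∀ (V : Type) [Fintype V] [DecidableEq V] (H : Finset (Finset V)) (X : Finset V) (k p : ℕ)
    (ε K : ℝ) (z : V) (uL c uR : List Bool), 1 ≤ k → uL.length = k - 1 → uR.length = k - 1 →
    1 ≤ c.length → SupT H X k ε K z uL c uR →
    Rea H X k p ε K {z} c.length uL uR (c.length + (k - 1)) (wt c + wt uR)

/-- SRT (reversal and complement of special gadgets, complement of connectors).  PROOF.  As `SrvStmt`,
`ScoStmt` (`Helper42_KK/W1.lean`).  Third part: for `Xᶜ`, `k-j` and `m₁, m₂` apply `Tok` of `X` to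
`(m₂.map not).reverse`, `(m₁.map not).reverse`, complement and reverse. -/
def SrtStmt : Prop :=
  (∀ (V : Type) [Fintype V] [DecidableEq V] (H : Finset (Finset V)) (X : Finset V) (k : ℕ)
    (ε K : ℝ) (z : V) (uL c uR : List Bool), SupT H X k ε K z uL c uR →
    SupT H X k ε K z uR.reverse c.reverse uL.reverse) ∧
  (∀ (V : Type) [Fintype V] [DecidableEq V] (H : Finset (Finset V)) (X : Finset V) (k : ℕ)
    (ε K : ℝ) (z : V) (uL c uR : List Bool), SupT H X k ε K z uL c uR ↔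
    SupT H Xᶜ k ε K z (uL.map not) (c.map not) (uR.map not)) ∧
  (∀ (V : Type) [Fintype V] [DecidableEq V] (H : Finset (Finset V)) (X : Finset V) (k j : ℕ)
    (ε K : ℝ) (z : V), 1 ≤ j → j + 1 ≤ k → Tok H X k ε K j z → Tok H Xᶜ k ε K (k - j) z)

/-- LAB (change of the partition).  PROOF.  (1) A window `s` of length `k` with `f ≤ k` free slots: a
completion which is bad for `X'` is bad for `X` or has a vertex of `X Δ X'` in a free slot: at most
`f · ρ n · n^(f-1)` of the latter (none if `f = 0`).  (2) Only fixed slots count differently.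
(3) Pigeonhole: if no `a'` with `a ≤ a' + q`, `a' ≤ a + q` works, there is for each of these at most
`2 q + 1` numbers a set `Z_a'` (disjoint from `D`, at most `K'` vertices) without a list; the union has
at most `(2 q + 1) K' ≤ K` vertices, a list for `X` outside the union is good for `X'` by (1) and has,
by (2), one of these counts. -/
def LabStmt : Prop :=
  (∀ (V : Type) [Fintype V] [DecidableEq V] (H : Finset (Finset V)) (X X' : Finset V) (k : ℕ)
    (ε ρ : ℝ) (L : List (Slot V)), 0 ≤ ρ →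
    ((symmDiff X X').card : ℝ) ≤ ρ * (Fintype.card V : ℝ) → OKl H X k ε L →
    OKl H X' k (ε + k * ρ) L) ∧
  (∀ (V : Type) [Fintype V] [DecidableEq V] (X X' : Finset V) (L : List (Slot V)),
    cX X L ≤ cX X' L + (fx L).length) ∧
  (∀ (V : Type) [Fintype V] [DecidableEq V] (H : Finset (Finset V)) (X X' D : Finset V)
    (k p : ℕ) (ε ρ K K' : ℝ) (q : ℕ) (u v : List Bool) (N a : ℕ), 0 ≤ ρ → 0 ≤ K' →
    ((symmDiff X X').card : ℝ) ≤ ρ * (Fintype.card V : ℝ) →
    Rea H X k p ε K D q u v N a → (2 * q + 1) * K' ≤ K →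
    ∃ a' : ℕ, a ≤ a' + q ∧ a' ≤ a + q ∧ Rea H X' k p (ε + k * ρ) K' D q u v N a')

/-! ## Part 2: pass stage and closing -/

/-- PST (a pass is a loop of four periods).  Uses REL, CMO, TKR (and `PerStmt`, `PwtStmt`, `TraStmt`).
PROOF.  `b = decide (v ∈ X)`, class `i < k` with letter `b` (`1 ≤ t ≤ k-1`), `m = per w (i+1) (k-1)`.
Times: `v` at `2k + i`, fixed times `k+i+1, .., 3k+i-1`.  Letter steps from the context at time `0` to
the context at time `i+2` (`i+2` letters, PER), which is `(m ++ [b]).tail`; the gadget (TKR, `2k-1` fixed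
vertices and `k-1` letters), context `per w i (k-1)`; `k-i` letters.  Together `4k` slots, which carry
the letters of the periodic word at the times `k-1, .., 5k-2`: `4t` letters X. -/
def PstStmt : Prop :=
  ∀ (V : Type) [Fintype V] [DecidableEq V] (H : Finset (Finset V)) (X : Finset V) (k p t : ℕ)
    (ε K K' : ℝ) (w : List Bool) (v : V), 2 ≤ k → FW H X k p ε → w.length = k → wt w = t →
    1 ≤ t → t + 1 ≤ k → t % 2 = p → Pas H X k ε K t v → K' + 2 * k ≤ K → 0 ≤ K' →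
    Rea H X k p ε K' {v} (2 * k) (cx k w) (cx k w) (4 * k) (4 * t)

/-- ABQ (all vertices of `D` are passed).  Uses CMO.  PROOF.  Induction on `D`.  `D = insert v D'`: the
list `L'` for `D'`; if `v ∈ Z ∪ fx L'` append a free list (second hypothesis, `Z ∪ fx L'` instead of
`Z`), otherwise a pass of `v`.  Sizes: `|Z ∪ fx L'| ≤ |Z| + 2 k |D'| ≤ K`. -/
def AbqStmt : Prop :=
  ∀ (V : Type) [Fintype V] [DecidableEq V] (H : Finset (Finset V)) (X D : Finset V) (k p t : ℕ)
    (ε K : ℝ) (u : List Bool), 1 ≤ k → u.length = k - 1 →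
    (∀ v ∈ D, Rea H X k p ε K {v} (2 * k) u u (4 * k) (4 * t)) →
    Rea H X k p ε K ∅ 0 u u (4 * k) (4 * t) →
    ∀ Z : Finset V, (Z.card : ℝ) + 2 * k * D.card ≤ K → ∃ L : List (Slot V),
      L.length = 4 * k * D.card ∧ cX X L = 4 * t * D.card ∧ (fx L).length ≤ 2 * k * D.card ∧
      (∀ x ∈ fx L, x ∉ Z) ∧ (∀ x ∈ D, x ∈ Z ∨ x ∈ fx L) ∧ Lst H X k p ε u u L

/-- CLZ (closing).  Uses BUL (`Helper34_KK/BUL.lean`), CYC.  PROOF.  As `AssStmt`
(`Helper97_KK/ASM.lean`): the last `k-1` slots of `L` are `fw u`, a window of `L ++ L.take (k-1)` is an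
infix of `fw u ++ L`; so all windows are fine, the completely free ones have parity `p`, and for
`v ∉ fx L`, so `v ∉ D`, `NearO` is the vertex condition of BULK. -/
def ClzStmt : Prop :=
  ∀ k : ℕ, 2 ≤ k → ∃ ε : ℝ, 0 < ε ∧ ε < 1 ∧ ∃ n₀ : ℕ,
    ∀ (V : Type) [Fintype V] [DecidableEq V] (H : Finset (Finset V)) (X D : Finset V) (p : ℕ)
      (γ : ℝ) (u : List Bool) (L : List (Slot V)), n₀ ≤ Fintype.card V → γ ≤ ε →
      NearO H X k p γ D → (∀ x ∈ D, x ∈ fx L) → L.length = Fintype.card V →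
      ((fx L).length : ℝ) ≤ ε * (Fintype.card V : ℝ) → cX X L = X.card →
      Fintype.card V ≤ 4 * X.card → 4 * X.card ≤ 3 * Fintype.card V →
      Lst H X k p ε u u L → Ham H k

/-- FIN (from a closed realisable plan to a Hamilton cycle).  Uses NEO, REL, PER, PWT, CMO, PST, ABQ, CLZ.
PROOF.  `ε` from CLZ, `ρ = min (ε/2) (min (κ/(16k)) (ε/(16 k)))`.  `FW H X k p ε` by NEO
(`ε/2 + ρ ≤ ε`).  The main list `L₀` (`Rea` with `Z = ∅`), then ABQ with `Z = fx L₀`, `|Z| ≤ Q`,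
`K = κ n - 2k`: `Q + 2 k |D| + 2k ≤ κ n` for large `n`; hypotheses of ABQ by PST and by PER, REL (four
free periods, `q = 0`).  `L = L₀ ++ L₁`: length `n`, `|X|` slots for `X`, `D ⊆ fx L`,
`(fx L).length ≤ Q + 2 k |D| ≤ ε n`.  CLZ. -/
def FinStmt : Prop :=
  ∀ k : ℕ, 3 ≤ k → ∃ ε : ℝ, 0 < ε ∧ ε < 1 ∧ ∀ κ : ℝ, 0 < κ → ∃ ρ : ℝ, 0 < ρ ∧ ∀ Q : ℕ,
    ∃ n₀ : ℕ, ∀ (V : Type) [Fintype V] [DecidableEq V] (H : Finset (Finset V))
      (X D D₁ : Finset V) (p t q N a : ℕ) (w : List Bool), n₀ ≤ Fintype.card V →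
      NearO H X k p (ε / 2) D → (D.card : ℝ) ≤ ρ * (Fintype.card V : ℝ) →
      Fintype.card V ≤ 4 * X.card → 4 * X.card ≤ 3 * Fintype.card V →
      w.length = k → wt w = t → 1 ≤ t → t + 1 ≤ k → t % 2 = p →
      (∀ v, Pas H X k ε (κ * (Fintype.card V : ℝ)) t v) → q ≤ Q →
      Rea H X k p ε 0 D₁ q (cx k w) (cx k w) N a →
      N + 4 * k * D.card = Fintype.card V → a + 4 * t * D.card = X.card → Ham H k

/-! ## Part 3: tokens -/

/-- PUT (flips upwards by a connector, both counts).  Uses REL, CMO, TKR, PER, PWT.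
PROOF.  As `PupStmt` (`Helper60_KKB/PUP.lean`).  `z` at the class `c₁`, time `2k + c₁`; fixed times
`k+c₁+1, .., 3k+c₁-1`; `m₁` = letters of `W` at the classes `c₁+1, .., c₂-1`, `m₂` = letters at
`c₂+1, .., c₁-1` (cyclically).  `c₁+2` letters from the context at time `0` to the left context, the
gadget (`2k-1` fixed vertices, `k-1` letters), context `per W' c₁ (k-1)` at time `3k + c₁`, `k - c₁`
letters.  Number of X: `4 wt W + [z ∈ X] + 2 - [c₁ = k-1] + 3 - [c₂ = k-1] - [c₂ < c₁]`.  Exchanging the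
roles of `c₁` and `c₂` changes this number by exactly 1. -/
def PutStmt : Prop :=
  ∀ (V : Type) [Fintype V] [DecidableEq V] (H : Finset (Finset V)) (X : Finset V) (k p j : ℕ)
    (ε K K' : ℝ) (W W' : List Bool) (c₁ c₂ : ℕ) (z : V), 2 ≤ k → FW H X k p ε →
    W.length = k → W'.length = k → c₁ < k → c₂ < k → c₁ ≠ c₂ → wt W + 1 = j → wt W % 2 = p →
    Tok H X k ε K j z → W.getD c₁ true = false → W.getD c₂ true = false →
    (∀ i < k, W'.getD i false = if i = c₁ ∨ i = c₂ then true else W.getD i false) →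
    K' + 2 * k ≤ K → 0 ≤ K' →
    ∃ a : ℕ, a + 1 ≤ 4 * k ∧ Rea H X k p ε K' {z} (2 * k) (cx k W) (cx k W') (4 * k) a ∧
      Rea H X k p ε K' {z} (2 * k) (cx k W) (cx k W') (4 * k) (a + 1)

/-- PDT (flips downwards by a connector).  Uses SRT, REL, CMO, TKR, PER, PWT.  PROOF.  The same times with the
reversed gadget (SRT): `Tok` for `m₁` = reversed letters of the classes `c₂+1, .., c₁-1`, `m₂` =
reversed letters of the classes `c₁+1, .., c₂-1`. -/
def PdtStmt : Prop :=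
  ∀ (V : Type) [Fintype V] [DecidableEq V] (H : Finset (Finset V)) (X : Finset V) (k p j : ℕ)
    (ε K K' : ℝ) (W W' : List Bool) (c₁ c₂ : ℕ) (z : V), 2 ≤ k → FW H X k p ε →
    W.length = k → W'.length = k → c₁ < k → c₂ < k → c₁ ≠ c₂ → wt W + 1 = j → wt W % 2 = p →
    Tok H X k ε K j z → W.getD c₁ true = false → W.getD c₂ true = false →
    (∀ i < k, W'.getD i false = if i = c₁ ∨ i = c₂ then true else W.getD i false) →
    K' + 2 * k ≤ K → 0 ≤ K' →
    ∃ a : ℕ, a ≤ 4 * k ∧ Rea H X k p ε K' {z} (2 * k) (cx k W') (cx k W) (4 * k) a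

/-- WRD (base words).  PROOF.  `L = k / gcd k r`, `t = A L + m`, `m < L`.  The positions `i` with letter X:
`A` complete cycles of the map `i ↦ i + r` on the residues modulo `k` (each has `L` elements, there are
`gcd k r` of them) and, if `m > 0`, `m` consecutive elements `x, x + r, .., x + (m-1) r` of another
cycle; `c = x - r`, `c' = x + (m-1) r`.  If `m = 0` the word is invariant, `c = c'` any Y.  `d` = another
Y (there are `k - t ≥ 2`). -/
def WrdStmt : Prop :=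
  ∀ k t r : ℕ, t + 2 ≤ k → r < k → ∃ (W : List Bool) (c c' d : ℕ),
    W.length = k ∧ wt W = t ∧ c < k ∧ c' < k ∧ d < k ∧ d ≠ c ∧ d ≠ c' ∧
    W.getD d true = false ∧ W.getD c true = false ∧
    ((c = c' ∧ ∀ i < k, W.getD ((i + r) % k) false = W.getD i false) ∨
      (c ≠ c' ∧ W.getD c' false = true ∧ ∀ i < k, W.getD ((i + r) % k) false =
        if i = c then true else if i = c' then false else W.getD i false))

/-- MTO (loops with two tokens, every residue).  Uses WRD, PUT, PDT, REL, CMO, PER, PWT.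
PROOF.  `r' = (k - r) % k`, WRD for `t = j - 1` and `r'`: `W, c, c', d`.  `z₁` flips up `c, d` (`4k`
slots, `a₁` or `a₁ + 1`), `M'` periods of `W₁ = W + c + d`, `z₂` flips down `c', d` (`4k` slots, `a₂`):
now the word is `W` rotated by `r'`, so `k - r'` letters lead to the context `cx k W` (again with
`a₃` letters X); `M''` periods of `W`.  `N = N₀ + k (M' + M'')`, `N₀ = 9k - r'`,
`a = a₀ + δ + (j+1) M' + (j-1) M''`, `δ ∈ {0, 1}` free.  Given `(N, a)`: `M = (N - N₀)/k`,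
`a - a₀ - (j-1) M = 2 M' + δ`; the cone conditions with `K₀ = 100 k^3` give `0 ≤ M' ≤ M`. -/
def MtoStmt : Prop :=
  ∀ k : ℕ, 3 ≤ k → ∃ K₀ : ℕ, ∀ (V : Type) [Fintype V] [DecidableEq V] (H : Finset (Finset V))
    (X : Finset V) (p j r : ℕ) (ε K K' : ℝ) (z₁ z₂ : V), 1 ≤ j → j + 1 ≤ k → (j + 1) % 2 = p →
    r < k → z₁ ≠ z₂ → FW H X k p ε → Tok H X k ε K j z₁ → Tok H X k ε K j z₂ → 0 ≤ K' →
    K' + K₀ ≤ K → ∃ w : List Bool, w.length = k ∧ wt w = j - 1 ∧
      MainL H X k p ε K' {z₁, z₂} K₀ K₀ j w r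

/-- EXT (excursion downwards with two tokens, at any word).  Uses PUT, PDT, REL, CMO, PER, PWT.
PROOF.  `w` of weight `j+1 ≥ 2`, two X at the classes `c, d`, `w₁ = w` with Y there.  `z₁` flips down
`c, d`, `M` periods of `w₁`, `z₂` flips up `c, d`.  `N = 8k + k M`, `a = a₁ + a₂ + (j-1) M`. -/
def ExtStmt : Prop :=
  ∀ k : ℕ, 3 ≤ k → ∃ R₀ : ℕ, ∀ (V : Type) [Fintype V] [DecidableEq V] (H : Finset (Finset V))
    (X : Finset V) (p j : ℕ) (ε K K' : ℝ) (z₁ z₂ : V) (w : List Bool), 1 ≤ j → j + 1 ≤ k →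
    (j + 1) % 2 = p → z₁ ≠ z₂ → FW H X k p ε → Tok H X k ε K j z₁ → Tok H X k ε K j z₂ →
    0 ≤ K' → K' + R₀ ≤ K → w.length = k → wt w = j + 1 →
    Exd H X k p ε K' {z₁, z₂} R₀ R₀ j w

/-- MKI (loops from the kinds of unlimited gadgets).  Uses LOR, LOP, LOL, REL, BLR.  PROOF.  `Loops` at the
base `j-1` resp. `j+1` (`K₀` = maximum of the three constants; `Loops` is monotone in `K₀`); REL: at
most `2 k K₀` fixed vertices.  Second part: `N = k (M + 2 K₀)`,
`a = (j+1)(M + 2 K₀) - (2 M + K₀)`. -/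
def MkiStmt : Prop :=
  ∀ k : ℕ, 3 ≤ k → ∃ K₀ : ℕ, ∀ (V : Type) [Fintype V] [DecidableEq V] (H : Finset (Finset V))
    (X : Finset V) (p j : ℕ) (ε : ℝ) (K : ℕ) (K' : ℝ), 1 ≤ j → j + 1 ≤ k → p < 2 →
    (j + 1) % 2 = p → FW H X k p ε →
    (KindP V H X k ε K j ∨ KindR V H X k ε K j ∨ KindL V H X k ε K j) → 0 ≤ K' → K' + K₀ ≤ K →
    (∀ r, MainL H X k p ε K' ∅ K₀ K₀ j (blk k (j - 1)) r) ∧
    Exd H X k p ε K' ∅ K₀ K₀ j (blk k (j + 1))

/-! ## Part 4: from `NearPar` -/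

/-- NPA (elementary facts on `NearPar`).  PROOF.  (1) `xc Aᶜ f = k - xc A f`.  (2) Replace `p` by `p % 2`.
(3) Type `j` wrong: `image f ∈ H` has `k` elements, so `f` is injective and is counted in
`NearPar`. -/
def NpaStmt : Prop :=
  ∀ (V : Type) [Fintype V] [DecidableEq V] (H : Finset (Finset V)) (A : Finset V) (k p : ℕ)
    (η : ℝ), Uni H k → NearPar H k A p η →
    NearPar H k Aᶜ ((k + p) % 2) η ∧ NearPar H k A (p % 2) η ∧
    ∀ j : ℕ, j % 2 ≠ p % 2 →
      ({f : Fin k → V | Finset.univ.image f ∈ H ∧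
        (Finset.univ.filter fun i => f i ∈ A).card = j}.ncard : ℝ) ≤
          η * (Fintype.card V : ℝ) ^ k

/-- NPS (sizes).  PROOF.  Let `t ∈ {0, 1}`, and consider the functions `f : Fin (k-1) → V` which are
injective and have exactly `t` entries in `A` (the first `t`): at least `(n/20)^(k-1)` for large `n`.
For each of them `|N(f)| ≥ n/2`.  If `t % 2 = p % 2`, every `v ∈ N(f) ∩ A` gives an injective tuple
(`Fin.snoc f v`) of wrong type `t + 1` in `H`: so `(n/20)^(k-1) (n/2 - |Aᶜ|) ≤ η n^k`.  If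
`t % 2 ≠ p % 2`, every `v ∈ N(f) ∩ Aᶜ` gives one of wrong type `t`:
`(n/20)^(k-1) (n/2 - |A|) ≤ η n^k`.  So `|A|, |Aᶜ| ≥ n/2 - 20^(k-1) η n`. -/
def NpsStmt : Prop :=
  ∀ k : ℕ, 3 ≤ k → ∃ n₀ : ℕ, ∀ (V : Type) [Fintype V] [DecidableEq V] (H : Finset (Finset V))
    (A : Finset V) (p : ℕ) (η : ℝ), n₀ ≤ Fintype.card V → Uni H k → Dirac H k →
    NearPar H k A p η →
    |(A.card : ℝ) - (Fintype.card V : ℝ) / 2| ≤ 20 ^ k * η * (Fintype.card V : ℝ)

/-- NPO (few atypical vertices).  PROOF.  For a vertex `v` let `b(v)` be the number of the tuples of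
`NearPar` which contain `v`; `∑ b(v) ≤ k η n^k`, so at most `k η n / γ` vertices have
`b(v) > γ n^(k-1)`.  `D` = these vertices and `X Δ A`.  For `v ∉ D` a completion `e` of
`fw u₁ ++ inl v :: fw u₂` for `X` which is not an edge (parity `p`) either has a vertex of `X Δ A` in a
free slot (at most `(k-1) ρ n · n^(k-2)`) or fits `A`, then the tuple `e` is one of `NearPar`
containing `v`. -/
def NpoStmt : Prop :=
  ∀ (V : Type) [Fintype V] [DecidableEq V] (H : Finset (Finset V)) (A X : Finset V) (k p : ℕ)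
    (η γ ρ : ℝ), 2 ≤ k → p < 2 → 0 ≤ η → 0 < γ → 0 ≤ ρ → NearPar H k A p η →
    ((symmDiff X A).card : ℝ) ≤ ρ * (Fintype.card V : ℝ) →
    ∃ D : Finset V, (D.card : ℝ) ≤ (k * η / γ + ρ) * (Fintype.card V : ℝ) ∧
      NearO H X k p (γ + k * ρ) D

/-! ## Part 5: top level -/

/-- ONE (one gap).  PROOF.  `E = k |X| - (j-1) n` etc.: `N = n - 4 k |D|`, `a = |X| - 4 (j-1) |D|`,
`k a - (j-1) N = k |X| - (j-1) n ≥ K₀` and `(j+1) N - k a = (j+1) n - k |X| - 8 k |D| ≥ K₀`, because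
`||X| - n/2| ≤ ρ n`, `|D| ≤ ρ n`, `2 (j-1) < k < 2 (j+1)`, `ρ ≤ 1/(100 k)`, `n` large. -/
def OneStmt : Prop :=
  ∀ k K₀ : ℕ, 3 ≤ k → ∃ n₀ : ℕ, ∀ (n x D j : ℕ), n₀ ≤ n → 1 ≤ j → j + 1 ≤ k →
    2 * (j - 1) < k → k < 2 * (j + 1) →
    |(x : ℝ) - (n : ℝ) / 2| ≤ 1 / (100 * k) * (n : ℝ) → (D : ℝ) ≤ 1 / (100 * k) * (n : ℝ) →
    ∃ N a : ℕ, N + 4 * k * D = n ∧ a + 4 * (j - 1) * D = x ∧ (j - 1) * N + K₀ ≤ k * a ∧
      k * a + K₀ ≤ (j + 1) * N

/-- TWO (two gaps, arithmetic).  `k = 2 T`, `E = k x - T n`.  PROOF.  `M` = the smallest natural number with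
`E + 2 k M ≥ K₀ + R`; given `N', a'` with `|k a' - T N' + 2 k M| ≤ R` and `N' ≤ k M + R` put
`N = n - 4 k D - N'`, `a = x - 4 T D - a'`: `k a - T N = E - (k a' - T N') ≥ E + 2 k M - R ≥ K₀`, and it
is `≤ E + 2 k M + R ≤ max E 0 + K₀ + 2 R + 2 k ≤ 2 N - K₀` for large `n`, as
`|E| ≤ n / 100 · k / k ..`, `M ≤ (|E| + K₀ + R)/(2k) + 1`; `N, a ≥ 0` similarly. -/
def TwoStmt : Prop :=
  ∀ k T K₀ R : ℕ, 3 ≤ k → k = 2 * T → ∃ n₀ : ℕ, ∀ (n x D : ℕ), n₀ ≤ n →
    |(x : ℝ) - (n : ℝ) / 2| ≤ 1 / (100 * k) * (n : ℝ) → (D : ℝ) ≤ 1 / (100 * k) * (n : ℝ) →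
    ∃ M : ℕ, ∀ N' a' : ℕ, N' ≤ k * M + R →
      |(k : ℤ) * a' - T * N' + 2 * k * M| ≤ R →
      ∃ N a : ℕ, N + N' + 4 * k * D = n ∧ a + a' + 4 * T * D = x ∧ T * N + K₀ ≤ k * a ∧
        k * a + K₀ ≤ (T + 2) * N

/-- BEH (the theorem for `NearPar`).  Uses GadStmt, FIN, NEO, CMO, SRT, LAB, MTO, EXT, MKI, NPA, NPS, NPO,
ONE, TWO.

PROOF.  CONSTANTS.  `ε` from FIN; `K₀` = maximum of the constants of MTO, EXT, MKI; `Q` and `K`
sufficiently large (`Q = 10 k (K₀ + 1)`, `K = 100 k (K₀ + 1)^2`); `κ` from GAD for `(ε/4, K)`; `ρ₁` from FIN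
for `κ`; `ρ = min ρ₁ (ε/(16 k)) (1/(100 k)) / 8`; `γ` from GAD for `ρ`; `η` small: `20^k η ≤ min γ ρ`,
`k η/(ε/16) ≤ ρ`.
CASE 1: `k` odd or `k = 2T`, `T % 2 ≠ p`.  After replacing `(A, p)` by `(Aᶜ, (k + p) % 2)` if
necessary (NPA; `k = 2T + 1`, `T % 2 ≠ p`) there is `j` with `2 ≤ j`, `j + 1 ≤ k`, `(j + 1) % 2 = p`,
`2 (j - 1) < k < 2 (j + 1)` (`j = T + 1` for `k = 2T + 1`, `T % 2 = p`; `j = T` for `k = 2T`).  GAD for
`(A, j)`: `X`.  NPO for `X`: `D`, `|D| ≤ 2 ρ n`, NearO with `ε/16 + k ρ ≤ ε/8`; FW with `ε/4` (NEO).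
ONE gives `(N, a)`.  If GAD gives a kind: MKI, otherwise choose two different connectors: MTO for
`r = N % k`.  FIN (monotonicity CMO: `ε/4 ≤ ε`).
CASE 2: `k = 2T`, `T % 2 = p`, `T ≥ 2`.  Main gap `T + 1`, base level `T`.
(2a) GAD for `(A, T+1)` gives a kind.  GAD for `(A, T-1)` gives `X_s`, a kind or connectors: MKI or EXT
(two different connectors; word `blk k T`) give `Exd` for `X_s`; LAB: for `X` with unknown count
(`symmDiff X X_s ≤ 2 ρ n`).  TWO gives `M`, then `(N', a')` from `Exd` and LAB, then `(N, a)`; MKI for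
`(N, a)`; CMO composes them; FIN.
(2b) GAD for `(Aᶜ, T+1)` gives a kind: (2a) for `Aᶜ` (`(k + p) % 2 = p`).
(2c) Both give connectors: `z₁, z₂` from `(A, T+1)` and `z₃, z₄` from `(Aᶜ, T+1)`, all different
(`k ≥ 4`); by SRT `z₃, z₄` are connectors for the complement at `k - (T+1) = T - 1`.  MTO for
`r = n % k` gives the word `w` of weight `T`, EXT for `z₃, z₄` and this word gives `Exd`; since `N'` is
divisible by `k`, `N % k = n % k`.  The rest as in (2a). -/
def BehStmt : Prop := BetStmt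

end Pool.Agent.KK
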