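import Mathlib
import Pool.Agent.KK.StmtsV
import Pool.Agent.Helper3_KK.CYC
import Pool.Agent.Helper81_KK.FIB
import Pool.Agent.Helper34_KK.BUL
import Pool.Agent.Helper3_KK.PWT
import Pool.Agent.Helper42_KK.W1
import Pool.Agent.Helper62_KK.RST
import Pool.Agent.Helper61_KK.HLO
import Pool.Agent.Helper61_KK.HWD
import Pool.Agent.Helper76_KK.RCH
import Pool.Agent.Helper61_KK.RCO
import Pool.Agent.Helper60_KKB.PUP
import Pool.Agent.Helper61_KK.GLU
import Pool.Agent.Helper65_KK.LOR
import Pool.Agent.Helper15_KK.LOP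
import Pool.Agent.Helper42_KK.LOL
import Pool.Agent.Helper70_KK.VLst
import Pool.Agent.Helper52_KK.REL
import Pool.Agent.Helper52_KK.SRT
import Pool.Agent.Helper33_KKB.LAB
import Pool.Agent.Helper90_KK.ABQ
import Pool.Agent.Helper70_KK.CLZ
import Pool.Agent.Helper70_KK.FIN
import Pool.Agent.Helper42_KK.PUT
import Pool.Agent.Helper88_KK.PDT
import Pool.Agent.Helper92_KK.WRD
import Pool.Agent.Helper79_KK.EXT
import Pool.Agent.Helper42_KK.MKI
import Pool.Agent.Helper76_KK.NPA
import Pool.Agent.Helper42_KK.NPS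
import Pool.Agent.Helper92_KK.ONE
import Pool.Agent.Helper92_KK.MTO
import Pool.Agent.Helper70_KK.NPO
import Pool.Agent.Helper91_KK.BEH
import Pool.Agent.Helper55_KK.PST

/-!
# Block BETA: assembly
-/

set_option autoImplicit false

namespace Pool.Agent.KK

theorem bulkKK : BulkStmt := H34.bul H3.cyc H81.fib

theorem pupKK : PupStmt := H60W.pup H3.per_ H3.tra

theorem pdnKK : PdnStmt := H60W.pdn H3.per_ H3.tra H42.srv

theorem rstKK : RstStmt := H62W.rst H3.per_ H3.tra

theorem rchKK : RchStmt := H76.rch H61.hlo H61.hwd rstKK H3.tra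

theorem rconKK : RconStmt := H61.rcon rchKK

theorem gluKK : GluStmt := H61.glu H3.per_ H3.pwt H3.tra

theorem lorKK : LorStmt := H65L.lor rconKK H3.per_ H3.tra H42.srv H3.blr H3.pwt gluKK

theorem lopKK : LopStmt := H15.lop pupKK pdnKK H3.per_ H3.tra H3.blr H3.pwt gluKK

theorem lolKK : LolStmt := H42.lol H3.blr H3.per_ H3.pwt lorKK

theorem putKK : PutStmt := H42.put H52.rel H70.cmo H70.tkr H3.per_

theorem pdtKK : PdtStmt := H88.pdt H52.srt H52.rel H70.cmo H70.tkr H3.per_

theorem extKK : ExtStmt := H79.ext putKK pdtKK H52.rel H70.cmo H3.per_ H3.pwt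

theorem mkiKK : MkiStmt := H42.mki lorKK lopKK lolKK H52.rel

theorem abqKK : AbqStmt := H90.abq H70.cmo

theorem clzKK : ClzStmt := H70.clz bulkKK

theorem mtoKK : MtoStmt := H92.mto H92.wrd putKK pdtKK H52.rel H70.cmo

theorem finKK_of (pst : PstStmt) : FinStmt :=
  H70.fin H52.rel H3.per_ H3.pwt pst abqKK clzKK

theorem betKK_of (gad : GadStmt) (pst : PstStmt) : BetStmt :=
  H91.beh gad (finKK_of pst) H70.neo H70.cmo H52.srt H33.lab mtoKK extKK mkiKK H76.npa H42.nps
    H70.npo H92.one H42.two H3.blr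

theorem pstKK : PstStmt := H55.pst H52.rel H70.cmo H70.tkr H3.per_ H3.pwt

/-- The parity case, from the gadgets of one gap (block G). -/
theorem betKK_gad (gad : GadStmt) : BetStmt := betKK_of gad pstKK

end Pool.Agent.KK
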