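import Pool.Agent.KK.StmtsG
import Pool.Agent.KK.AsmE
import Pool.Agent.Helper56_KK.GSL
import Pool.Agent.Helper81_KK.G_BAD
import Pool.Agent.Helper33_KK.G_MKV
import Pool.Agent.Helper33_KK.G_SWG
import Pool.Agent.Helper52_KK.G_PLA
import Pool.Agent.Helper52_KK.G_MOV
import Pool.Agent.Helper41_KK.GCRO
import Pool.Agent.Helper41_KK.GFAR
import Pool.Agent.Helper76_KK.G_TOK
import Pool.Agent.Helper44_KK.G_CRM
import Pool.Agent.Helper19_KK.G_PAS
import Pool.Agent.Helper32_KK.G_EXC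
import Pool.Agent.Helper84_KK.G_PAR
import Pool.Agent.Helper97_KK.G_CST
import Pool.Agent.Helper24_KK.CRY
import Pool.Agent.Helper84_KK.G_KND
import Pool.Agent.Helper3_KK.CHG
import Pool.Agent.Helper24_KK.GAD

/-! # MP_747bc0_co: block G assembled (gadgets for atypical vertices) -/

namespace Pool.Agent.KK.E

theorem q01 : StmtG01 := H81.g_bad p02
theorem q02 : StmtG02 := H33.g_mkv p01 p02 p03
theorem q00 : StmtG00 := H56.g00 p01 p02 p04 p17 q01 q02
theorem q03 : StmtG03 := H33.g_swg p01 p05 q00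
theorem q04 : StmtG04 := H52.g_pla
theorem q05 : StmtG05 := H52.g_mov q03 q04
theorem q06 : StmtG06 := H41.g_cro p18 q03 q04
theorem q08 : StmtG08 := H76.g_tok p01 p02 p20 q00
theorem q09 : StmtG09 := H44.g_crm p01 p02 p18 p20 q00
theorem q10 : StmtG10 := H19.g_pas p01 p02 p20 q00
theorem q11 : StmtG11 := H32.g_exc p01 p02 p03
theorem q12 : StmtG12 := H84.g_par p02 p03 p06
theorem q13 : StmtG13 := H97.g_cst
theorem q14 : StmtG14 := Pool.Agent.KK.H24.g14 p07 q09
theorem q17 : StmtG17 := H3c.g17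
theorem q07 : StmtG07 := H41.g_far p01 p02 p05 p20 q00
theorem q15 : StmtG15 := H84.g_knd q05 q06 q07 q09 q14
theorem gadKK : Pool.Agent.KK.GadStmt :=
  Pool.Agent.KK.H24.g16 p01 p02 p03 p07 p10 p15 p17 q08 q10 q11 q12 q13 q15 q17

end Pool.Agent.KK.E
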