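import Pool.Agent.KK.Defs

/-!
# Block BETA: the full parity case.  Definitions.

Slots: a slot is a fixed vertex `inl v` or a letter `inr b` (`true` means: a vertex of `X`).  The
cyclic list of slots prescribes the Hamilton cycle partially; the rest is found by the local lemma
for random bijections.
-/

set_option autoImplicit false

namespace Pool.Agent.KK

variable {V : Type} [Fintype V] [DecidableEq V]

/-- A fixed vertex or a letter. -/
abbrev Slot (V : Type) : Type := V ⊕ Bool

/-- The vertex `w` may be put into the slot. -/
def Fit (X : Finset V) : Slot V → V → Prop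
  | Sum.inl v, w => v = w
  | Sum.inr b, w => (w ∈ X ↔ b = true)

/-- Number of free slots. -/
def fr (s : List (Slot V)) : ℕ := s.countP Sum.isRight

/-- The fixed vertices, in order. -/
def fx (s : List (Slot V)) : List V := s.filterMap Sum.getLeft?

/-- Number of slots that carry a vertex of `X`. -/
def cX (X : Finset V) (s : List (Slot V)) : ℕ :=
  s.countP fun x => match x with
    | Sum.inl v => decide (v ∈ X)
    | Sum.inr b => b

/-- Completions of the window `s` which are not edges. -/
def BadC (H : Finset (Finset V)) (X : Finset V) (s : List (Slot V)) : Set (List V) :=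
  {e | List.Forall₂ (Fit X) s e ∧ e.Nodup ∧ e.toFinset ∉ H}

/-- Completions of the window `s` which are edges. -/
def GoodC (H : Finset (Finset V)) (X : Finset V) (s : List (Slot V)) : Set (List V) :=
  {e | List.Forall₂ (Fit X) s e ∧ e.Nodup ∧ e.toFinset ∈ H}

/-- At most `ε n ^ fr s` completions of `s` are not edges (for `fr s = 0` and `ε < 1`: the fixed
window is an edge). -/
def OKs (H : Finset (Finset V)) (X : Finset V) (ε : ℝ) (s : List (Slot V)) : Prop :=
  ((BadC H X s).ncard : ℝ) ≤ ε * (Fintype.card V : ℝ) ^ fr s

/-- All windows of length `k` of `L` are fine. -/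
def OKl (H : Finset (Finset V)) (X : Finset V) (k : ℕ) (ε : ℝ) (L : List (Slot V)) : Prop :=
  ∀ s : List (Slot V), s <:+: L → s.length = k → OKs H X ε s

/-- A word as a list of free slots. -/
def fw (u : List Bool) : List (Slot V) := u.map Sum.inr

/-- A list of vertices as a list of fixed slots. -/
def vx (l : List V) : List (Slot V) := l.map Sum.inl

/-- Number of letters X. -/
def wt (u : List Bool) : ℕ := u.count true

/-- `H` is near the parity hypergraph `{e : |e ∩ X| = p mod 2}`, at every vertex: for every vertex
`v` and every word `u₁ v u₂` of length `k`, at most `γ n ^ (k-1)` completions are non-edges if the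
parity is `p`, and at most so many are edges if the parity is not `p`. -/
def Near (H : Finset (Finset V)) (X : Finset V) (k p : ℕ) (γ : ℝ) : Prop :=
  ∀ (v : V) (u₁ u₂ : List Bool), u₁.length + 1 + u₂.length = k →
    ((wt (u₁ ++ decide (v ∈ X) :: u₂) % 2 = p →
        ((BadC H X (fw u₁ ++ Sum.inl v :: fw u₂)).ncard : ℝ) ≤
          γ * (Fintype.card V : ℝ) ^ (k - 1)) ∧
      (wt (u₁ ++ decide (v ∈ X) :: u₂) % 2 ≠ p →
        ((GoodC H X (fw u₁ ++ Sum.inl v :: fw u₂)).ncard : ℝ) ≤
          γ * (Fintype.card V : ℝ) ^ (k - 1)))

/-- All windows of the word `u` have parity `p`. -/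
def Rt (k p : ℕ) (u : List Bool) : Prop :=
  ∀ s : List Bool, s <:+: u → s.length = k → wt s % 2 = p

/-- UNLIMITED SUPPLY of gadgets of shape `uL c uR`: outside every set `Z` of at most `K` vertices
there are distinct vertices `l` with letters `c` such that all windows of `uL l uR` are fine. -/
def Sup (H : Finset (Finset V)) (X : Finset V) (k : ℕ) (ε : ℝ) (K : ℕ)
    (uL c uR : List Bool) : Prop :=
  ∀ Z : Finset V, Z.card ≤ K → ∃ l : List V, l.Nodup ∧ (∀ v ∈ l, v ∉ Z) ∧
    l.map (fun v => decide (v ∈ X)) = c ∧ OKl H X k ε (fw uL ++ vx l ++ fw uR)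

/-- The cyclic word `w` (of length `k`), read from the class `a`: letter at time `i` is
`w[(a + i) mod k]`; the word of the times `0, .., m-1`. -/
def per (w : List Bool) (a m : ℕ) : List Bool :=
  (List.range m).map fun i => w.getD ((a + i) % w.length) false

/-- The word with `t` letters X followed by `k - t` letters Y. -/
def blk (k t : ℕ) : List Bool := List.replicate t true ++ List.replicate (k - t) false

/-- Adjacent right moves at level `t` are unlimited: for every cyclic word `w` of length `k` and
weight `t` which has X at the class `k-1` and Y at the class `0`, the gadget which exchanges these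
two letters (the time `k-1` is the first changed letter): before the time `k-1` the word `w`, from
this time on the word `w'` (Y at `k-1`, X at `0`); fixed vertices at the times `0, .., k-1`. -/
def RMoves (H : Finset (Finset V)) (X : Finset V) (k : ℕ) (ε : ℝ) (K t : ℕ) : Prop :=
  ∀ m : List Bool, m.length = k - 2 → wt m + 1 = t →
    Sup H X k ε K (m ++ [true]) (false :: m ++ [false]) (true :: m)

/-- Adjacent left moves at level `t`: Y at the class `k-1` and X at the class `0` are exchanged. -/
def LMoves (H : Finset (Finset V)) (X : Finset V) (k : ℕ) (ε : ℝ) (K t : ℕ) : Prop :=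
  ∀ m : List Bool, m.length = k - 2 → wt m + 1 = t →
    Sup H X k ε K (m ++ [false]) (true :: m ++ [true]) (false :: m)

end Pool.Agent.KK
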