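import Mathlib

/-!
# Katona-Kierstead (MP_747bc0_co) for all `n ≥ n₀(k)`: common definitions

`H : Finset (Finset V)` is a hypergraph on the vertex set `V`, `k`-uniform if `Uni H k`.
Tight paths and cycles are lists of vertices.  Counts are `Set.ncard` of sets of functions
`Fin m → V`.
-/

set_option autoImplicit false

namespace Pool.Agent.KK

variable {V : Type} [Fintype V] [DecidableEq V]

/-- All edges have `k` elements. -/
def Uni (H : Finset (Finset V)) (k : ℕ) : Prop := ∀ e ∈ H, e.card = k

/-- Neighbourhood of the set `S`: the vertices `v ∉ S` with `S ∪ {v} ∈ H`. -/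
def nb (H : Finset (Finset V)) (S : Finset V) : Finset V :=
  Finset.univ.filter fun v => v ∉ S ∧ insert v S ∈ H

/-- The minimum codegree is at least `n / 2`. -/
def Dirac (H : Finset (Finset V)) (k : ℕ) : Prop :=
  ∀ S : Finset V, S.card = k - 1 → Fintype.card V ≤ 2 * (nb H S).card

/-- Every `k` consecutive entries of `l` form an edge. -/
def Tight (H : Finset (Finset V)) (k : ℕ) (l : List V) : Prop :=
  ∀ s : List V, s <:+: l → s.length = k → s.toFinset ∈ H

/-- Tight path: distinct vertices, every `k` consecutive ones form an edge. -/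
def Path (H : Finset (Finset V)) (k : ℕ) (l : List V) : Prop := l.Nodup ∧ Tight H k l

/-- There is a tight Hamilton cycle (a list of all vertices, read cyclically). -/
def Ham (H : Finset (Finset V)) (k : ℕ) : Prop :=
  ∃ l : List V, l.Nodup ∧ (∀ v, v ∈ l) ∧ Tight H k (l ++ l.take (k - 1))

/-- THE GOAL (`k ≥ 3`; `k = 2` is Dirac's theorem). -/
def Main : Prop :=
  ∀ k : ℕ, 3 ≤ k → ∃ n₀ : ℕ, ∀ (V : Type) [Fintype V] [DecidableEq V] (H : Finset (Finset V)),
    n₀ ≤ Fintype.card V → Uni H k → Dirac H k → Ham H k

/-- Number of `w : Fin m → V` such that `a w b` is a tight path. -/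
noncomputable def con (H : Finset (Finset V)) (k m : ℕ) (a b : List V) : ℕ :=
  {w : Fin m → V | Path H k (a ++ List.ofFn w ++ b)}.ncard

/-- The first `r` and the last `r` entries agree. -/
def SameEnds (r : ℕ) (p q : List V) : Prop :=
  p.take r = q.take r ∧ p.drop (p.length - r) = q.drop (q.length - r)

/-- `p` is a tight path with at least `k - 1` vertices whose initial tuple is in `S` and whose final
tuple is in `T`. -/
def Seg (H : Finset (Finset V)) (k : ℕ) (S T : Set (List V)) (p : List V) : Prop :=
  Path H k p ∧ k - 1 ≤ p.length ∧ p.take (k - 1) ∈ S ∧ p.drop (p.length - (k - 1)) ∈ T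

/-- `T` is a set of `(k-1)`-tuples of distinct vertices. -/
def Tup (k : ℕ) (T : Set (List V)) : Prop := ∀ a ∈ T, a.length = k - 1 ∧ a.Nodup

/-- Any two disjoint tuples of `T` are joined by many tight paths of some bounded length. -/
def Joins (H : Finset (Finset V)) (k : ℕ) (T : Set (List V)) (c : ℝ) (M : ℕ) : Prop :=
  ∀ a ∈ T, ∀ b ∈ T, a.Disjoint b → ∃ m ≤ M, c * (Fintype.card V : ℝ) ^ m ≤ con H k m a b

/-- The same for every residue of the length modulo `k`. -/
def JoinsAll (H : Finset (Finset V)) (k : ℕ) (T : Set (List V)) (c : ℝ) (M : ℕ) : Prop :=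
  ∀ a ∈ T, ∀ b ∈ T, a.Disjoint b → ∀ t : ℕ, ∃ m ≤ M, m ≡ t [MOD k] ∧
    c * (Fintype.card V : ℝ) ^ m ≤ con H k m a b

/-- `u`, cut into pieces of lengths `ls`, is a gadget for the list `y`: the pieces are tight paths
with both end tuples in one class `T i`, and they can be replaced by tight paths with the same end
tuples which together use exactly the vertices of `u` and `y`. -/
def Gad {I : Type} (H : Finset (Finset V)) (k : ℕ) (T : I → Set (List V)) (ls : List ℕ)
    (u y : List V) : Prop :=
  (u ++ y).Nodup ∧ (∀ p ∈ ls.splitLengths u, ∃ i, Seg H k (T i) (T i) p) ∧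
    ∃ Q : List (List V),
      List.Forall₂ (fun p q => SameEnds (k - 1) p q ∧ Path H k q) (ls.splitLengths u) Q ∧
      Q.flatten.Perm (u ++ y)

end Pool.Agent.KK
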