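import Pool.Agent.KK.AsmAlpha
import Pool.Agent.KK.AsmBeta
import Pool.Agent.KK.AsmG
import Pool.Agent.Helper74_KK.Fin

/-! # MP_747bc0_co: the main theorem -/

namespace Pool.Agent.KK

theorem mainKK : Main := main_of alphaKK (betKK_gad E.gadKK) dicKK

end Pool.Agent.KK
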