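import Pool.Agent.KK.BetaDefs

/-!
# Block BETA: statements (full parity case), author helper5

Plan.  `H` is near the parity hypergraph `{e : |e ∩ X| = p mod 2}` at every vertex.  A wrong type is
a number `j` with `j % 2 ≠ p`.  Gadgets for every wrong type `j` (`GadgetStmt`, helper13) give
closed words through the levels `j-1` and `j+1` (words: `RconStmt`, `LoopRStmt`, `LoopPStmt`,
`LoopStmt`, `TourStmt`); a closed word whose gadgets have unlimited supply gives a Hamilton cycle
(`AsmStmt`, `BulkStmt`: local lemma for random bijections).
-/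

set_option autoImplicit false

namespace Pool.Agent.KK

/-! ## Kinds of gadgets at the wrong type `j` -/

/-- FAR FLIPS at `j`.  Classes `0, .., k-1`; `m₁` = letters of the classes `1, .., d-1`, `m₂` = letters
of the classes `d+1, .., k-1` (`d = m₁.length + 1`), the classes `0` and `d` are flipped from Y to X:
a fixed vertex of `Y` at time `0`, a fixed vertex of `X` at time `d`, all windows containing both are
fixed: the fixed times are `d-k+1, .., k-1`.  Before: period `Y m₁ Y m₂`, afterwards period
`X m₁ X m₂`. -/
def KindP (V : Type) [Fintype V] [DecidableEq V] (H : Finset (Finset V)) (X : Finset V) (k : ℕ)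
    (ε : ℝ) (K j : ℕ) : Prop :=
  ∀ m₁ m₂ : List Bool, m₁.length + m₂.length + 2 = k → wt m₁ + wt m₂ + 1 = j →
    Sup H X k ε K (m₂ ++ false :: m₁ ++ [false]).tail (m₂ ++ false :: m₁ ++ true :: m₂)
      (true :: m₁ ++ true :: m₂).dropLast

/-- RIGHT MOVES at the level `j+1` and a crossing from the contiguous word of level `j-1` to some
word of level `j+1`. -/
def KindR (V : Type) [Fintype V] [DecidableEq V] (H : Finset (Finset V)) (X : Finset V) (k : ℕ)
    (ε : ℝ) (K j : ℕ) : Prop :=
  j + 2 ≤ k ∧ RMoves H X k ε K (j + 1) ∧ ∃ (a : ℕ) (c uR : List Bool), 1 ≤ c.length ∧ c.length ≤ 2 * k ∧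
    uR.length = k - 1 ∧ (wt uR = j ∨ wt uR = j + 1) ∧
    Sup H X k ε K (per (blk k (j - 1)) a (k - 1)) c uR

/-- LEFT MOVES at the level `j-1` and a crossing from some word of level `j-1` to the contiguous word
of level `j+1`. -/
def KindL (V : Type) [Fintype V] [DecidableEq V] (H : Finset (Finset V)) (X : Finset V) (k : ℕ)
    (ε : ℝ) (K j : ℕ) : Prop :=
  2 ≤ j ∧ LMoves H X k ε K (j - 1) ∧ ∃ (a : ℕ) (uL c : List Bool), 1 ≤ c.length ∧ c.length ≤ 2 * k ∧
    uL.length = k - 1 ∧ (wt uL + 1 = j ∨ wt uL + 2 = j) ∧
    Sup H X k ε K uL c (per (blk k (j + 1)) a (k - 1))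

/-- GADGETS (author of the rows: helper13).  For `k ≥ 3` and `ε > 0`, `K`: if `γ` is small and `n`
large, every `H` with codegree `≥ n/2` which is near parity has one of the three kinds of gadgets at
every wrong type `1 ≤ j ≤ k-1`.

PROOF.  A set `Q`, `1 ≤ |Q| ≤ k-1`, is NORMAL if at most `β_|Q| n^(k-|Q|)` completions of types
`j-1, j+1` are non-edges and at most so many of type `j` are edges (`β_1 ≪ β_2 ≪ .. ≪ β_(k-1) ≪ ε`;
all vertices are normal).  DENSITY: if `Q` is not normal and type `j` is feasible for `Q` then at least
`c β_|Q| n^(k-|Q|)` sets of type `j` above `Q` are edges (remove `x ∈ X` from a missing set of type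
`j+1`, or `y ∈ Y` from a missing one of type `j-1`; codegree `≥ n/2`, `|X|, |Y| = n/2` up to small).
EXACT COUNT: `R` with `k-2` elements, `j-1` of them in `X`, `x ∈ X`, `y ∈ Y`, generic
(`R ∪ {x,y}` hereditarily normal and not an edge): `N(Rx)` and `N(Ry)` avoid `R ∪ {x,y}`, so they have
at least `k` common elements `w`.  For a bounded set `Z` and each `z ∈ Z` the number of triples with
`w = z` is small (`z` is normal), so some generic triple avoids `Z` and has all its `w` outside `Z`.
Let `w ∈ Y` (the case `w ∈ X` is the mirror image: exchange `X` and `Y`, `j` and `k-j`, reverse all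
words).  Then `e = R ∪ {x,w}` is an edge of type `j` and `R ∪ {y,w}` an edge of type `j-1`.
CASE P: `e` contains a minimal non-normal set `M = {m_Y, m_X}` (one vertex of each colour).  Far flips:
blow-up (`erdosInj`) of the dense family of the `Q` with `M ∪ Q` an edge of type `j`: all windows
containing `M` are transversals; the other windows contain at most one element of `M` and generic
vertices.
CASE B: a minimal non-normal set `M ⊆ e` with both colours and at least 3 elements.  Single window
gadget: take a generic edge `e' ⊇ M` of type `j`, order it with its first and last element in `M`; every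
other window does not contain `M`.  Ends `(Y first, X last)`: crossing between any word of level `j-1`
and the word with the classes `k-1, 0` flipped: from contiguous to contiguous words.  Ends `(X,X)`:
`LMoves`, ends `(Y,Y)`: `RMoves`.  So KindL or KindR (`j = 1`: `M` has one vertex of `X`, so two of `Y`:
KindR; `j = k-1`: KindL).
CASE 0: no non-normal subset of `e`: the same with `e' = e`, `M = e` (KindR if `j + 2 ≤ k`, else KindL).
CASE C: all minimal non-normal subsets of `e` are contained in `Y`, so they contain `w` and are in
`R_Y ∪ {w}`.  Single window gadgets with ends `(Y,Y)`: `RMoves (j+1)`.  CROSSING: order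
`R = (r_1, .., r_(k-2))`, first the elements of `Y`, then the `j-1` elements of `X`, `S_i = R` without
`r_1, .., r_i`, `Q_i = S_i ∪ {w}`; `Q_i` is normal for `S_i ⊆ X`.
(G0) all `Q_i` normal: fixed list `x r_1 .. r_(k-2) w`: on its left level `j+1`, on its right level `j-1`,
both contiguous; reverse it.
Otherwise let `Q_i` be the last one which is not normal, `r' = r_(i+1) ∈ Y`.
(G1) `Q_i` has density `≥ β` both of edges of type `j-1` and of type `j`: MIXED LEMMA (below): there are
generic `Q ⊆ Y`, `x' ∈ X`, `y' ∈ Y` with `Q_i ∪ Q ∪ {y'}`, `Q_i ∪ Q ∪ {x'}` edges: fixed list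
`y' r' Q (Q_i - r' in its order, w last) x'` (`k+1` vertices).  Left: level `j-1` contiguous.  Right:
classes of `y'` and `r'` flipped to X.
(G2) `Q_i` has density `< β` of edges of type `j-1` (so type `j` is nearly full above `Q_i`): let `h < i` be
the last index for which the density of type `j-1` above `Q_h` is at least `β_|Q_h|`, or `h = -1`
(`ρ = y`, `ρ ∪ Q_0` is an edge of type `j-1`); `ρ = r_(h+1)` for `h ≥ 0`.  Take generic `Q' ⊆ Y` with
`ρ ∪ Q' ∪ Q_(h+1)` an edge of type `j-1`: fixed list `ρ Q' Q_(h+1)` (`w` last).  Left: contiguous,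
level `j-1`.  Right: after `ρ` comes X, windows containing `Q_(h+1), .., Q_i` have type `j`
(nearly full), after `r'` comes X: level `j+1`, classes of `ρ` and `r'` flipped.
In all cases KindR.
MIXED LEMMA: `A` any set, `|A| ≤ k-1`, with densities `≥ β` of edges of type `j-1` and of type `j`
above `A`: then for a positive density of `Q` (`A ∪ Q` of size `k-1` and type `j-1`) both `N(AQ) ∩ X` and
`N(AQ) ∩ Y` have at least `β' n` elements.  (Otherwise almost every `Q` is one sided, since its degree
is `≥ n/2`; being Y-sided is almost invariant under the exchange of one element of `Y` (look at the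
common edge or non-edge of type `j-1`) and X-sided under the exchange of one element of `X`, hence it is
almost constant, against the two densities.)
PIGEONHOLE: finitely many shapes; a shape without supply has a blocking set of size `K`; avoid the union of
all blocking sets. -/
def GadgetStmt : Prop :=
  ∀ k : ℕ, 3 ≤ k → ∀ (ε : ℝ) (K : ℕ), 0 < ε → ∃ γ : ℝ, 0 < γ ∧ ∃ n₀ : ℕ,
    ∀ (V : Type) [Fintype V] [DecidableEq V] (H : Finset (Finset V)) (X : Finset V) (p : ℕ),
      n₀ ≤ Fintype.card V → Uni H k → Dirac H k → p < 2 → Near H X k p γ →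
      ∀ j : ℕ, 1 ≤ j → j + 1 ≤ k → j % 2 ≠ p →
        KindP V H X k ε K j ∨ KindR V H X k ε K j ∨ KindL V H X k ε K j

end Pool.Agent.KK
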