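import Pool.Agent.KK.Defs

/-!
# Block E (crossings of a gap), author helper68

`V = X ∪ Xᶜ`, uniformity `k = p + q + 2`, the missing type is `(p+1, q+1)` (that many letters `X`
and `Y = Xᶜ`).  Every row is `theorem Exx : StmtExx` with earlier statements as hypotheses.
All densities are densities inside a box `∏ c i`.
-/

set_option autoImplicit false

namespace Pool.Agent.KK.E

/-! ## Definitions -/

section Defs

variable {V : Type} [Fintype V] [DecidableEq V]

/-- Density of the event `P` among the functions `f` with `f i ∈ c i` for all `i`. -/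
noncomputable def dens {ι : Type} [Fintype ι] (c : ι → Finset V) (P : (ι → V) → Prop) : ℝ :=
  ({f : ι → V | (∀ i, f i ∈ c i) ∧ P f}.ncard : ℝ) / ∏ i, ((c i).card : ℝ)

/-- Average of `F` over the functions `f` with `f i ∈ c i` for all `i`. -/
noncomputable def avg {ι : Type} [Fintype ι] [DecidableEq ι] (c : ι → Finset V)
    (F : (ι → V) → ℝ) : ℝ :=
  (∑ f ∈ Fintype.piFinset c, F f) / ∏ i, ((c i).card : ℝ)

/-- The letter `true` stands for `X`, `false` for the complement. -/
def sd (X : Finset V) (b : Bool) : Finset V := if b then X else Xᶜ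

/-- `a` letters `X` and `b` letters `Y`. -/
def lets (X : Finset V) (a b : ℕ) : Fin a ⊕ Fin b → Finset V :=
  Sum.elim (fun _ => X) (fun _ => Xᶜ)

/-- `D(M; a, b)`: the density of the edges among the sets `M ∪ {x_1..x_a} ∪ {y_1..y_b}`. -/
noncomputable def D (H : Finset (Finset V)) (X M : Finset V) (a b : ℕ) : ℝ :=
  dens (lets X a b) fun f => M ∪ Finset.univ.image f ∈ H

/-- `Mix(M; a, b)`: the density of `(Q, x, y)`, `Q` with `a` letters `X` and `b` letters `Y`, for
which both `M ∪ Q ∪ {x}` and `M ∪ Q ∪ {y}` are edges (`x ∈ X`, `y ∈ Y`). -/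
noncomputable def Mix (H : Finset (Finset V)) (X M : Finset V) (a b : ℕ) : ℝ :=
  dens (Sum.elim (lets X a b) (fun t : Bool => sd X t)) fun f =>
    insert (f (Sum.inr true)) (M ∪ Finset.univ.image fun i => f (Sum.inl i)) ∈ H ∧
    insert (f (Sum.inr false)) (M ∪ Finset.univ.image fun i => f (Sum.inl i)) ∈ H

/-- `M` is non-normal for the missing type `(p+1, q+1)`: it can be completed to this type and the
density of the completions that are edges exceeds `η |M|`. -/
def Non (H : Finset (Finset V)) (X : Finset V) (p q : ℕ) (η : ℕ → ℝ) (M : Finset V) : Prop :=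
  (M ∩ X).card ≤ p + 1 ∧ (M \ X).card ≤ q + 1 ∧
    η M.card < D H X M (p + 1 - (M ∩ X).card) (q + 1 - (M \ X).card)

/-- Minimal non-normal set. -/
def Mst (H : Finset (Finset V)) (X : Finset V) (p q : ℕ) (η : ℕ → ℝ) (M : Finset V) : Prop :=
  Non H X p q η M ∧ ∀ M' : Finset V, M' ⊂ M → ¬ Non H X p q η M'

/-- Box with letters `l` in which some positions are fixed by `o`. -/
def bx (X : Finset V) {ι : Type} (l : ι → Bool) (o : ι → Option V) : ι → Finset V :=
  fun i => (o i).elim (sd X (l i)) fun v => {v}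

/-- Standing assumptions: uniform, codegree at least `n/2`, `X` and its complement have
`(1 ± δ) n / 2` elements, `n` is large. -/
structure Amb (H : Finset (Finset V)) (X : Finset V) (p q B : ℕ) (δ : ℝ) : Prop where
  uni : Uni H (p + q + 2)
  dirac : Dirac H (p + q + 2)
  pos : 0 < δ
  small : δ ≤ 1 / 10
  lo : (1 - δ) * (Fintype.card V : ℝ) / 2 ≤ (X.card : ℝ)
  hi : (X.card : ℝ) ≤ (1 + δ) * (Fintype.card V : ℝ) / 2
  lo' : (1 - δ) * (Fintype.card V : ℝ) / 2 ≤ ((Xᶜ).card : ℝ)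
  hi' : ((Xᶜ).card : ℝ) ≤ (1 + δ) * (Fintype.card V : ℝ) / 2
  big : 100 * ((p + q + 2 : ℕ) : ℝ) ^ 2 * ((B + p + q + 2 : ℕ) : ℝ) ≤ δ * (Fintype.card V : ℝ)

/-- The tuple `f` (with `p+1` letters `X` and `q+1` letters `Y`, or any other letters) is generic:
injective, outside `W`, and its image contains no non-normal set. -/
def Gen (H : Finset (Finset V)) (X : Finset V) (p q : ℕ) (η : ℕ → ℝ) (W A : Finset V) {ι : Type}
    [Fintype ι] (f : ι → V) : Prop :=
  Function.Injective f ∧ (∀ i, f i ∉ A ∪ W) ∧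
    ∀ N : Finset V, N ⊆ A ∪ Finset.univ.image f → ¬ Non H X p q η N

/-- `R x`: the image of `f` without the letter `y₀ = f (inr 0)`. -/
def Rx {p q : ℕ} (f : Fin (p + 1) ⊕ Fin (q + 1) → V) : Finset V :=
  (Finset.univ.filter fun i => i ≠ Sum.inr 0).image f

/-- `R y`: the image of `f` without the letter `x₀ = f (inl 0)`. -/
def Ry {p q : ℕ} (f : Fin (p + 1) ⊕ Fin (q + 1) → V) : Finset V :=
  (Finset.univ.filter fun i => i ≠ Sum.inl 0).image f

/-- Start pattern `Y^q X^p Y`. -/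
def low (p q : ℕ) : List Bool := List.replicate q false ++ List.replicate p true ++ [false]

/-- End pattern `X Y^q X^p`. -/
def high (p q : ℕ) : List Bool := true :: (List.replicate q false ++ List.replicate p true)

/-- The tuples with pattern `w` outside the set `S` have density at most `β`. -/
def Alm (X : Finset V) (w : List Bool) (S : Set (List V)) (β : ℝ) : Prop :=
  dens (fun i : Fin w.length => sd X (w.get i)) (fun a => List.ofFn a ∉ S) ≤ β

/-- Crossing from `S` to `T` that contains `M` and avoids `F`. -/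
def Cr (H : Finset (Finset V)) (k : ℕ) (S T : Set (List V)) (M F : Finset V) (l : List V) : Prop :=
  Path H k l ∧ l.length = 3 * k - 2 ∧ l.take (k - 1) ∈ S ∧ l.drop (2 * k - 1) ∈ T ∧
    M ⊆ l.toFinset ∧ Disjoint l.toFinset F

end Defs

/-- The constants. `k = p + q + 2`. -/
structure Cst (k B : ℕ) (η θ : ℕ → ℝ) (h δ : ℝ) : Prop where
  pos : ∀ i, i ≤ k → 0 < η i
  half : ∀ i, i ≤ k → η i ≤ 1 / 2
  hpos : 0 < h
  hsmall : h ≤ 1 / (8 * (k : ℝ) * 2 ^ k)
  step : ∀ i, i < k → 8 * (k : ℝ) * 4 ^ k * ((B : ℝ) + 1) * η i ≤ η (i + 1)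
  tpos : ∀ i, 1 ≤ i → i < k → 0 < θ i
  tsmall : ∀ i, 1 ≤ i → i < k → θ i ≤ (η i * h / (16 * (k : ℝ))) ^ 3
  eta_theta : ∀ i, 1 ≤ i → i < k → 16 * (k : ℝ) * η (i - 1) ≤ (θ i) ^ (2 ^ k)
  dpos : 0 < δ
  dsmall : 100 * (k : ℝ) * 4 ^ k * ((B : ℝ) + 1) * δ ≤ η 0 * h

/-! ## Rows: calculus of densities -/

/-- **E01** Elementary properties of `dens` for a box with nonempty sides.
PROOF. The box is finite with `∏ |c i| > 0` elements (`Fintype.card_piFinset`, ncard of the set =
card of a filter of `Fintype.piFinset c`, classical decidability); monotonicity = `ncard_le_ncard`,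
union bound = `ncard_union_le`, complement = disjoint union of the box. -/
def StmtE01 : Prop :=
  ∀ (V : Type) [Fintype V] [DecidableEq V] (ι : Type) [Fintype ι] (c : ι → Finset V),
    (∀ i, (c i).Nonempty) →
    (∀ P : (ι → V) → Prop, 0 ≤ dens c P ∧ dens c P ≤ 1) ∧
    (∀ P Q : (ι → V) → Prop, (∀ f, (∀ i, f i ∈ c i) → P f → Q f) → dens c P ≤ dens c Q) ∧
    (∀ P Q : (ι → V) → Prop, dens c (fun f => P f ∨ Q f) ≤ dens c P + dens c Q) ∧
    (∀ P : (ι → V) → Prop, dens c P + dens c (fun f => ¬ P f) = 1) ∧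
    (∀ P : (ι → V) → Prop, 0 < dens c P → ∃ f, (∀ i, f i ∈ c i) ∧ P f) ∧
    (∀ (T : Type) [Fintype T] (P : T → (ι → V) → Prop),
      dens c (fun f => ∃ t, P t f) ≤ ∑ t, dens c (P t))

/-- **E02** Pull-back along an injection `φ` of index types (marginals and re-indexing at once).
PROOF. `f ↦ (f ∘ φ, f restricted to the complement of range φ)` is a bijection of the box `c` with
`box (c ∘ φ) × box (c restricted to the complement)`; the event depends on the first component only,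
the second box has `∏_{i ∉ range φ} |c i| > 0` elements, which cancels.  (In Lean: the equivalence
`Equiv.piEquivPiSubtypeProd (· ∈ range φ)` + `Equiv.ofInjective`, or count fibres of
`f ↦ f ∘ φ`: `Finset.card_eq_sum_card_fiberwise`, every fibre has the same cardinality.) -/
def StmtE02 : Prop :=
  ∀ (V : Type) [Fintype V] [DecidableEq V] (ι κ : Type) [Fintype ι] [Fintype κ]
    (c : ι → Finset V) (φ : κ → ι), (∀ i, (c i).Nonempty) → Function.Injective φ →
    ∀ P : (κ → V) → Prop, dens c (fun f => P (f ∘ φ)) = dens (c ∘ φ) P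

/-- **E03** Fubini and Markov for `Sum` index types.
PROOF. (1) `Equiv.sumArrowEquivProdArrow`, sum over the first component, `∏` over `Sum` splits
(`Fintype.prod_sum_type`).  (2) Markov: the average of `dens d (..) ≥ τ · 1[..]`.
(3) the average of `1[A f] · dens d (..) ≤ τ · 1[A f]`. -/
def StmtE03 : Prop :=
  ∀ (V : Type) [Fintype V] [DecidableEq V] (ι κ : Type) [Fintype ι] [DecidableEq ι] [Fintype κ]
    (c : ι → Finset V) (d : κ → Finset V), (∀ i, (c i).Nonempty) → (∀ i, (d i).Nonempty) →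
    (∀ P : (ι ⊕ κ → V) → Prop,
      dens (Sum.elim c d) P = avg c (fun f => dens d (fun g => P (Sum.elim f g)))) ∧
    (∀ (P : (ι ⊕ κ → V) → Prop) (τ : ℝ), 0 < τ →
      τ * dens c (fun f => τ < dens d (fun g => P (Sum.elim f g))) ≤ dens (Sum.elim c d) P) ∧
    (∀ (A : (ι → V) → Prop) (P : (ι ⊕ κ → V) → Prop) (τ : ℝ), 0 ≤ τ →
      (∀ f, (∀ i, f i ∈ c i) → A f → dens d (fun g => P (Sum.elim f g)) ≤ τ) →
      dens (Sum.elim c d) (fun h => A (h ∘ Sum.inl) ∧ P h) ≤ τ * dens c A)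

/-- **E04** Degenerate tuples in a box with fixed positions: few.
PROOF. `bx X l o`: a position `i` with `o i = none` is generic, its side has at least `n/3`
elements.  If the event fails, either `f i ∈ W` for a generic `i` (density `≤ |W| / |c i| ≤ 3|W|/n`
each, E02 with `κ = Unit`), or `f i = f i'`, `i ≠ i'`; by hypothesis at least one of them, say `i`,
is generic; for fixed `f i'` at most one value: density `≤ 1/|c i| ≤ 3/n` (E02 with `κ = Bool`, or
E03).  Union bound over at most `m` and `m^2` events. -/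
def StmtE04 : Prop :=
  ∀ (V : Type) [Fintype V] [DecidableEq V] (ι : Type) [Fintype ι] (X W : Finset V)
    (l : ι → Bool) (o : ι → Option V),
    0 < Fintype.card V →
    (∀ b, (Fintype.card V : ℝ) ≤ 3 * ((sd X b).card : ℝ)) →
    (∀ i i' v, o i = some v → o i' = some v → i = i') →
    dens (bx X l o) (fun f => ¬ (Function.Injective f ∧ ∀ i, o i = none → f i ∉ W)) ≤
      3 * ((Fintype.card ι : ℝ) ^ 2 + (Fintype.card ι : ℝ) * (W.card : ℝ)) / (Fintype.card V : ℝ)

/-- **E05** Window density: in the box `bx X l o` the density of the event the image of the window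
`w` is an edge is `D(M; a, b)`, `M` the set of fixed vertices in the window, `a`, `b` the numbers of
its generic positions with letter `X`, `Y`.
PROOF. Choose bijections `Fin a ≃ {i ∈ w | o i = none, l i = true}`, `Fin b ≃ {.. false}`; together
an injection `φ : Fin a ⊕ Fin b → ι` with `bx X l o ∘ φ = lets X a b`; for `f` in the box the image of
`w` is `M ∪ image (f ∘ φ)` (fixed positions have `f i = v`).  Apply E02. -/
def StmtE05 : Prop :=
  ∀ (V : Type) [Fintype V] [DecidableEq V] (ι : Type) [Fintype ι] [DecidableEq ι]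
    (H : Finset (Finset V)) (X M : Finset V) (l : ι → Bool) (o : ι → Option V) (w : Finset ι)
    (a b : ℕ), X.Nonempty → (Xᶜ).Nonempty →
    (∀ v, v ∈ M ↔ ∃ i ∈ w, o i = some v) →
    (w.filter fun i => o i = none ∧ l i = true).card = a →
    (w.filter fun i => o i = none ∧ l i = false).card = b →
    dens (bx X l o) (fun f => w.image f ∈ H) = D H X M a b

/-- **E06** Codegree: `D(M; a+1, b) + D(M; a, b+1) ≥ 1 - 3δ` if `|M| + a + b + 1 = k`.
PROOF. For `Q` in the box `lets X a b` put `S = M ∪ Q`.  If `Q` is injective and disjoint from `M`,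
`|S| = k-1`, so `|N(S)| ≥ n/2` and `#{x ∈ X : S ∪ x ∈ H} + #{y ∉ X : S ∪ y ∈ H} = |N(S)| ≥ n/2`
(`x ∈ S` gives no edge, by `Uni`).  Averaging (E03 with `κ = Unit`, re-index `Fin (a+1) ≃ Fin a ⊕
Unit` by E02): `|X| D(M;a+1,b) + |Y| D(M;a,b+1) ≥ (n/2)(1 - deg)`, `deg ≤ 3 (k^2 + k·k)/n ≤ δ` (E04
with `W = M`, `o = none`).  As `|X|, |Y| ≤ (1+δ) n/2`: `(1+δ)(D + D') ≥ 1 - δ`, hence
`D + D' ≥ (1-δ)/(1+δ) ≥ 1 - 3δ`. -/
def StmtE06 : Prop :=
  ∀ (V : Type) [Fintype V] [DecidableEq V] (H : Finset (Finset V)) (X M : Finset V)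
    (p q B a b : ℕ) (δ : ℝ), Amb H X p q B δ → M.card + a + b + 1 = p + q + 2 →
    1 - 3 * δ ≤ D H X M (a + 1) b + D H X M a (b + 1)

/-- **E07** Symmetry `X ↔ Xᶜ`.
PROOF. Re-index by `Sum.swap` (E02 for the bijection `Equiv.sumComm`), `Xᶜᶜ = X`,
`M ∩ Xᶜ = M \ X`, `M \ Xᶜ = M ∩ X`; for `Mix` also swap `Bool`. -/
def StmtE07 : Prop :=
  ∀ (V : Type) [Fintype V] [DecidableEq V] (H : Finset (Finset V)) (X : Finset V), X.Nonempty →
    (Xᶜ).Nonempty →
    (∀ M a b, D H Xᶜ M b a = D H X M a b) ∧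
    (∀ M a b, Mix H Xᶜ M b a = Mix H X M a b) ∧
    (∀ p q η M, Non H Xᶜ q p η M ↔ Non H X p q η M) ∧
    (∀ p q η M, Mst H Xᶜ q p η M ↔ Mst H X p q η M) ∧
    (∀ p q B δ, Amb H X p q B δ → Amb H Xᶜ q p B δ)

/-- **E08** Hybrid isoperimetry.  `A`, `B` disjoint events; the product of their densities is at most
the sum over the coordinates `i` of the density of (`f ∈ A`, `f` with coordinate `i` re-sampled
`∈ B`), plus `|ι|` times the density of the rest.
PROOF. Independent `f ∈ A`, `g ∈ B`; order the coordinates `1..m`, `h_t` = first `t` coordinates from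
`g`, the others from `f`; `h_0 = f ∈ A`, `h_m = g ∉ A`.  At the first `t` with `h_t ∉ A`: either
`h_t ∈ B` (and `h_(t-1) ∈ A`, they differ in coordinate `t`; the pair `(h_(t-1), g_t)` is uniform) or
`h_t` is in the rest (`h_t` is uniform).  Union bound.  (Lean: induction over a `Finset s` of
coordinates for the statement `P(f ∈ A, hybrid_s ∉ A) ≤ Σ_{i ∈ s} (flux_i + rest)`, or induction on
`m` for `ι = Fin m` and E02; measure preservation of `(f, g) ↦ (h_t, g_t)` is E02 on the index type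
`ι ⊕ ι`.) -/
def StmtE08 : Prop :=
  ∀ (V : Type) [Fintype V] [DecidableEq V] (ι : Type) [Fintype ι] [DecidableEq ι]
    (c : ι → Finset V) (A B : (ι → V) → Prop), (∀ i, (c i).Nonempty) → (∀ f, A f → ¬ B f) →
    dens c A * dens c B ≤
      (∑ i, dens (Sum.elim c (fun _ : Unit => c i))
        (fun g => A (g ∘ Sum.inl) ∧ B (Function.update (g ∘ Sum.inl) i (g (Sum.inr ()))))) +
      (Fintype.card ι : ℝ) * dens c (fun f => ¬ A f ∧ ¬ B f)

/-- **E09** Growth of an up-set: `q_(j+1) (1 - q_(j+1)) ≤ (j+1) (q_(j+1) - q_j)`, where `q_i` is the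
probability that `i` random elements of `X` form a set in the up-set `U`.
PROOF. E08 for `A f = U (image f)`, `B = ¬ A`: the rest is empty.  If `A f` and `¬ A (update f i z)`,
then `¬ U (image of f on the coordinates ≠ i)` (up-set), so the `i`-th term is at most
`q_(j+1) - P(U (image of f on the coordinates ≠ i)) = q_(j+1) - q_j` (E02 for
`Fin.succAbove i : Fin j → Fin (j+1)`). -/
def StmtE09 : Prop :=
  ∀ (V : Type) [Fintype V] [DecidableEq V] (X : Finset V) (U : Finset V → Prop) (j : ℕ),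
    X.Nonempty → (∀ S S', S ⊆ S' → U S → U S') →
    dens (fun _ : Fin (j + 1) => X) (fun f => U (Finset.univ.image f)) *
        (1 - dens (fun _ : Fin (j + 1) => X) (fun f => U (Finset.univ.image f))) ≤
      ((j : ℝ) + 1) * (dens (fun _ : Fin (j + 1) => X) (fun f => U (Finset.univ.image f)) -
        dens (fun _ : Fin j => X) (fun f => U (Finset.univ.image f)))

/-- **E10** Trichotomy: a set `M` with `D(M; a, b+1) ≥ η₀` and `Mix(M; a, b) ≤ θ` small is flipped:
`D(M; a+1, b) ≤ h`.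
PROOF. `Q` in the box `lets X a b`; `u(Q)` = density in `X` of the `x` with `M Q x ∈ H`, `w(Q)` the
same in `Y`.  If `Q` is injective and disjoint from `M` then `u + w ≥ 1 - δ` (codegree,
`|X|,|Y| ≤ (1+δ)n/2`); otherwise `u = w = 0`, density `≤ δ` (E04).  `τ := η₀ h/(16k)`,
`A' = {w ≥ τ, u < τ}`, `B' = {u ≥ τ, w < τ}`.  `Mix = avg (u w) ≥ τ^2 P(u ≥ τ, w ≥ τ)`, so
`P(u ≥ τ, w ≥ τ) ≤ θ/τ^2 ≤ τ` (as `θ ≤ τ^3`).  Rest outside `A' ∪ B'`: `≤ τ + δ` (if `u, w < τ` then
degenerate).  FLUX of coordinate `i` (E08): fix the other coordinates `Q'`; `Z_A`, `Z_B` = values of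
the coordinate for which the tuple is in `A'`, `B'`.  If the coordinate has letter `Y`: for
`z ∈ Z_A`, `y ∈ Z_B`: `M Q' z y ∈ H` for at most `τ|Y| |Z_B|` pairs (because `w(Q' y) < τ`) and
`∉ H` for at most `(τ + δ)|Y| |Z_A|` pairs (because `w(Q' z) ≥ 1 - δ - τ`), so
`|Z_A||Z_B| ≤ (2τ+δ)|Y|^2`.  Letter `X`: `∈ H` for at most `τ |X| |Z_A|` pairs, `∉ H` for at most
`(τ+δ)|X| |Z_B|` pairs: same bound.  So flux `≤ 2τ + δ` and E08 gives
`P(A') P(B') ≤ k (2τ + δ) + k (τ + δ) ≤ 5 k τ` (`δ ≤ τ`).  `D(M;a,b+1) = avg w ≤ P(A') + τ + τ`, so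
`P(A') ≥ η₀ - 2τ ≥ η₀/2`, `P(B') ≤ 10 k τ/η₀ = 10 h/16`, `D(M;a+1,b) = avg u ≤ P(B') + 2τ ≤ h`. -/
def StmtE10 : Prop :=
  ∀ (V : Type) [Fintype V] [DecidableEq V] (H : Finset (Finset V)) (X M : Finset V)
    (p q B a b : ℕ) (δ η₀ θ h : ℝ), Amb H X p q B δ → M.card + a + b + 1 = p + q + 2 →
    0 < η₀ → η₀ ≤ 1 → 0 < h → h ≤ 1 →
    θ ≤ (η₀ * h / (16 * ((p + q + 2 : ℕ) : ℝ))) ^ 3 →
    δ ≤ η₀ * h / (16 * ((p + q + 2 : ℕ) : ℝ)) →
    η₀ ≤ D H X M a (b + 1) → Mix H X M a b ≤ θ → D H X M (a + 1) b ≤ h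

/-- **E11** Markov: a normal set is completed to a non-normal set by few tuples.
PROOF. `s`, `t` = numbers of letters `X`, `Y` in `l`.  If `(M ∩ X).card > p+1` or
`(M \ X).card > q+1` the event is empty.  Otherwise `a = p+1-|M ∩ X|`, `b = q+1-|M \ X|`, and
`D(M;a,b) ≤ η |M|` since `M` is normal.  If the event is not empty, `s ≤ a`, `t ≤ b`, and
`D(M; a, b)` = average over `z` of `D(M ∪ z; a-s, b-t)` (E02 for a bijection
`Fin a ⊕ Fin b ≃ ι ⊕ (Fin (a-s) ⊕ Fin (b-t))` respecting letters, E03(1)); Markov (E03(2)) with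
`τ = η(|M| + |ι|)`. -/
def StmtE11 : Prop :=
  ∀ (V : Type) [Fintype V] [DecidableEq V] (ι : Type) [Fintype ι] (H : Finset (Finset V))
    (X M : Finset V) (p q : ℕ) (η : ℕ → ℝ) (l : ι → Bool), X.Nonempty → (Xᶜ).Nonempty →
    0 ≤ η M.card → 0 < η (M.card + Fintype.card ι) → ¬ Non H X p q η M →
    dens (fun i => sd X (l i)) (fun z => (M ∪ Finset.univ.image z).card =
        M.card + Fintype.card ι ∧ Non H X p q η (M ∪ Finset.univ.image z)) ≤
      η M.card / η (M.card + Fintype.card ι)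

/-- **E12** Most completions of a set `A`, all of whose subsets are normal, are generic over `A`.
PROOF. `¬ Gen` implies: `z` not injective or `z i ∈ A ∪ W` for some `i` (density `≤ δ` by E04 with
`o = none`, `|A ∪ W| ≤ B + 2k`, and `Amb.big`), or: `z` injective, outside `A`, and there are
`A' ⊆ A` and a nonempty set `J` of coordinates with `Non (A' ∪ z_J)` (`J` nonempty because all
subsets of `A` are normal).  For fixed `A'`, `J`: E02 for the inclusion of `J` and E11:
`≤ η |A'| / η (|A'| + |J|) ≤ ρ`.  At most `2^|A| 2^|ι| ≤ 2^k` pairs. -/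
def StmtE12 : Prop :=
  ∀ (V : Type) [Fintype V] [DecidableEq V] (ι : Type) [Fintype ι] (H : Finset (Finset V))
    (X A W : Finset V) (p q B : ℕ) (δ ρ : ℝ) (η : ℕ → ℝ) (l : ι → Bool), Amb H X p q B δ →
    (∀ i, i ≤ p + q + 2 → 0 < η i) → 0 ≤ ρ →
    (∀ i i', i < i' → i' ≤ p + q + 2 → η i ≤ ρ * η i') →
    A.card + Fintype.card ι ≤ p + q + 2 → W.card ≤ B + (p + q + 2) + 1 →
    (∀ A' : Finset V, A' ⊆ A → ¬ Non H X p q η A') →
    dens (fun i => sd X (l i)) (fun z => ¬ Gen H X p q η W A z) ≤ 2 ^ (p + q + 2) * ρ + δ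

/-- Assumption (GA) of the supply lemma: every minimal non-normal set outside `F'` is mono-coloured
and flipped. -/
def GA {V : Type} [Fintype V] [DecidableEq V] (H : Finset (Finset V)) (X : Finset V) (p q : ℕ)
    (η : ℕ → ℝ) (h : ℝ) (F' : Finset V) : Prop :=
  ∀ M : Finset V, Mst H X p q η M → Disjoint M F' →
    (M ⊆ X ∧ D H X M (p + 2 - M.card) q ≤ h) ∨ (M ⊆ Xᶜ ∧ D H X M p (q + 2 - M.card) ≤ h)

/-- **E13** The inequality of a single vertex `v ∈ X`: for random `f` (letters `X^(p+1) Y^(q+1)`)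
the density of (generic, `v + R y` is an edge) is at most the density of (generic, `v + R x` is not
an edge).
PROOF. `𝓜` = minimal non-normal sets `M ⊆ X` disjoint from `F'`; `U S := ∃ A ⊆ S, v ∉ A,
insert v A ∈ 𝓜` (up-set); `q_i` = its density for `i` letters `X` (E09).
(1) If `f` is generic (`Gen` with `A = ∅`, `W = F'`), `v ∉ im f` and `insert v (R y) ∈ H`, then
`e = insert v (R y)` has type `(p+1, q+1)`, `D(e; 0, 0) = 1 > η k`, so `e` is non-normal and contains
a minimal non-normal set `M`; `v ∈ M` (otherwise `M ⊆ im f`), `M` is disjoint from `F'`, so by (GA)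
mono-coloured and `M ⊆ X`; thus `U {x_1..x_p}` (the letters `X` other than `x_0`): density `≤ q_p`
(E02 for the injection `i ↦ inl (i.succ)`).
(2) If `U {x_0..x_p}` and `f` generic, `v ∉ im f`, `insert v (R x) ∉ H`: this is the event on the
right.  So right side `≥ q_(p+1) - P(U {x_0..x_p}, bad)`, bad = (`¬ Gen` or `v ∈ im f` or
`insert v (R x) ∈ H`).  For `I ⊆ Fin (p+1)` let `E_I`: `f` injective on `I`, `v ∉ f(I)`,
`insert v (f(I)) ∈ 𝓜`.  `U {x_0..x_p}` is the union of the `E_I`, and `P(E_I) ≤ q_(p+1)`.  Given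
`f` on `I` with `E_I`, `A = f(I)`: all subsets of `A` are proper subsets of `insert v A`, so normal;
E12 for the other coordinates (`ι` = complement of `inl '' I`, `W = F' ∪ {v}`,
`|A| + |ι| = k`): `¬ Gen` or `v ∈ im f` has conditional density `≤ 2^k ρ + δ`, `ρ = 1/(8k4^k)`
(`Cst.step`); and `insert v (R x) ∈ H` has conditional density `D(insert v A; p+1-|A|, q) ≤ h` by
(GA) (`p + 2 - |insert v A| = p+1-|A|`; E05 or E02).  So (E03(3)) `P(E_I, bad) ≤ (h + 2^k ρ + δ)
P(E_I)` and `P(U, bad) ≤ 2^(p+1) (h + 2^k ρ + δ) q_(p+1) ≤ 2^k · 3/(8k 2^k) q_(p+1) ≤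
q_(p+1)/(2(p+1))`.
(3) `q_(p+1) ≤ 1/2`: `I = ∅` is impossible (`{v}` is normal), and for `I ≠ ∅` E11 with `M = {v}`
gives `P(E_I) ≤ η 1/η(|I|+1) ≤ ρ`; `2^k ρ ≤ 1/2`.  E09 (`j = p`):
`q_(p+1) - q_p ≥ q_(p+1)(1 - q_(p+1))/(p+1) ≥ q_(p+1)/(2(p+1)) ≥ P(U, bad)`.
So left side `≤ q_p ≤ q_(p+1) - P(U, bad) ≤` right side. -/
def StmtE13 : Prop :=
  ∀ (V : Type) [Fintype V] [DecidableEq V] (H : Finset (Finset V)) (X F' : Finset V)
    (p q B : ℕ) (δ h : ℝ) (η θ : ℕ → ℝ) (v : V), Amb H X p q B δ →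
    Cst (p + q + 2) B η θ h δ → GA H X p q η h F' → F'.card ≤ B + (p + q + 2) →
    ¬ Non H X p q η ∅ → v ∈ X → v ∉ F' → ¬ Non H X p q η {v} →
    dens (lets X (p + 1) (q + 1)) (fun f => Gen H X p q η F' ∅ f ∧
        v ∉ Finset.univ.image f ∧ insert v (Ry f) ∈ H) ≤
      dens (lets X (p + 1) (q + 1)) (fun f => Gen H X p q η F' ∅ f ∧
        v ∉ Finset.univ.image f ∧ insert v (Rx f) ∉ H)

/-- **E14** Exact count.  `Σ_v (P(gen, v ∉ im f, v+Rx ∈ H) + P(gen, v ∉ im f, v+Ry ∈ H)
- P(gen, v ∉ im f)) ≥ k P(gen)`.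
PROOF. For each generic `f` (`Gen` with `A = ∅`): `im f` has `k` elements and is not an edge
(otherwise it is non-normal, as `D(im f; 0, 0) = 1 > η k`, `η k ≤ 1/2`).  `|N(R x)|, |N(R y)| ≥ n/2`,
`|R x| = |R y| = k-1`, neither contains an element of `im f` (`insert y_0 (R x) = im f ∉ H`, the
other elements lie in `R x`).  So `#{v ∉ im f : v + R x ∈ H} + #{v ∉ im f : v + R y ∈ H} ≥ n` and
`#{v ∉ im f} = n - k`.  Sum over `f`, exchange the sums (dens = counting / constant). -/
def StmtE14 : Prop :=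
  ∀ (V : Type) [Fintype V] [DecidableEq V] (H : Finset (Finset V)) (X F' : Finset V)
    (p q : ℕ) (η : ℕ → ℝ), Uni H (p + q + 2) → Dirac H (p + q + 2) →
    X.Nonempty → (Xᶜ).Nonempty → η (p + q + 2) < 1 →
    ((p + q + 2 : ℕ) : ℝ) * dens (lets X (p + 1) (q + 1)) (fun f => Gen H X p q η F' ∅ f) ≤
      ∑ v : V,
        (dens (lets X (p + 1) (q + 1)) (fun f => Gen H X p q η F' ∅ f ∧
            v ∉ Finset.univ.image f ∧ insert v (Rx f) ∈ H) +
          dens (lets X (p + 1) (q + 1)) (fun f => Gen H X p q η F' ∅ f ∧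
            v ∉ Finset.univ.image f ∧ insert v (Ry f) ∈ H) -
          dens (lets X (p + 1) (q + 1)) (fun f => Gen H X p q η F' ∅ f ∧
            v ∉ Finset.univ.image f))

/-- Good minimal non-normal sets: bi-coloured or mixed. -/
def GoodM {V : Type} [Fintype V] [DecidableEq V] (H : Finset (Finset V)) (X : Finset V) (p q : ℕ)
    (η θ : ℕ → ℝ) (M : Finset V) : Prop :=
  Mst H X p q η M ∧
    (((M ∩ X).Nonempty ∧ (M \ X).Nonempty) ∨
      (M.Nonempty ∧ M ⊆ X ∧ M.card ≤ p + 1 ∧ θ M.card < Mix H X M (p + 1 - M.card) q) ∨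
      (M.Nonempty ∧ M ⊆ Xᶜ ∧ M.card ≤ q + 1 ∧ θ M.card < Mix H X M p (q + 1 - M.card)))

/-- No flipped vertices. -/
def NF {V : Type} [Fintype V] [DecidableEq V] (H : Finset (Finset V)) (X : Finset V) (p q : ℕ) :
    Prop :=
  (∀ v ∈ X, 1 / 4 ≤ D H X {v} (p + 1) q) ∧ (∀ v ∉ X, 1 / 4 ≤ D H X {v} p (q + 1))

/-- **E15** SUPPLY LEMMA.  Either at least `k` vertices `z` with `{z}` good, or every set `F` with
at most `B` elements is avoided by a good set.
PROOF. `C` = vertices `v` with `Non {v}`.  Each `{v}`, `v ∈ C`, is minimal (∅ is normal) and good: if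
`v ∈ X` and `Mix H X {v} p q ≤ θ 1`, then E10 (`M = {v}`, `a = p`, `b = q`, `η₀ = η 1 <
D(v; p, q+1)`) gives `D(v; p+1, q) ≤ h < 1/4`, against (NF); `v ∉ X` by symmetry (E07).  If
`|C| ≥ k` we are done.  Otherwise let `F' = F ∪ C`, `|F'| ≤ B + k`, and suppose no good set is
disjoint from `F` (so none is disjoint from `F'`).  Then (GA) holds: let `M` be minimal non-normal,
disjoint from `F'`; `M ≠ ∅`; not bi-coloured, so `M ⊆ X` (then `|M| ≤ p+1` by `Non`, and
`Mix H X M (p+1-|M|) q ≤ θ |M|`, E10 with `a = p+1-|M|`, `b = q` gives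
`D(M; p+2-|M|, q) ≤ h`) or `M ⊆ Xᶜ` (symmetric).  Now E14; P(gen) ≥ 1/2 by E12 with `A = ∅`
(`2^k ρ + δ ≤ 1/2`).  The term of `v` in the sum of E14 is: for `v ∉ F'`: `≤ 0` by E13 (`v ∈ X`:
P(gen, v ∉ im, v+Rx ∉ H) = P(gen, v ∉ im) - P(gen, v ∉ im, v+Rx ∈ H)); `v ∉ X`: E13 for
`(Xᶜ, q, p)` and the re-indexing `Sum.swap`); for `v ∈ C`: `≤ P(gen)`; for `v ∈ F \ C`: `≤ η 1`
(`v ∈ X`: the first density is at most the third one, the second one is at most
`D({v}; p, q+1) ≤ η 1`, `v` being normal; `v ∉ X` symmetric).  So `k P(gen) ≤ (k-1) P(gen) + B η 1`,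
`1/2 ≤ P(gen) ≤ B η 1 ≤ 1/16`, contradiction. -/
def StmtE15 : Prop :=
  ∀ (V : Type) [Fintype V] [DecidableEq V] (H : Finset (Finset V)) (X : Finset V)
    (p q B : ℕ) (δ h : ℝ) (η θ : ℕ → ℝ), Amb H X p q B δ → Cst (p + q + 2) B η θ h δ →
    NF H X p q → D H X ∅ (p + 1) (q + 1) ≤ η 0 →
    (∃ Z : Finset V, Z.card = p + q + 2 ∧ ∀ z ∈ Z, GoodM H X p q η θ {z}) ∨
      ∀ F : Finset V, F.card ≤ B → ∃ M, GoodM H X p q η θ M ∧ Disjoint M F

/-! ## Rows: the gadgets -/

/-- **E16** A function with all windows in `H` gives a tight path.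
PROOF. `List.nodup_ofFn`; an infix `s` of `List.ofFn f` of length `k` is
`(List.ofFn f).drop a |>.take k` for some `a` with `a + k ≤ m`; its `toFinset` is the image of the
window `[a, a+k)`. -/
def StmtE16 : Prop :=
  ∀ (V : Type) [Fintype V] [DecidableEq V] (H : Finset (Finset V)) (k m : ℕ) (f : Fin m → V),
    Function.Injective f →
    (∀ a : ℕ, a + k ≤ m →
      ((Finset.univ.filter fun i : Fin m => a ≤ (i : ℕ) ∧ (i : ℕ) < a + k).image f) ∈ H) →
    Path H k (List.ofFn f)

/-- **E17** Ordinary windows: a normal set `M'` (completable to the missing type) and a window of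
type one step away from the missing one: almost all completions are edges.
PROOF. E06 with `(a, b) = (p+1-|M' ∩ X|, q-|M' \ X|)` resp. `(p-|M' ∩ X|, q+1-|M' \ X|)`, the other
summand is `D(M'; p+1-|M' ∩ X|, q+1-|M' \ X|) ≤ η |M'|`. -/
def StmtE17 : Prop :=
  ∀ (V : Type) [Fintype V] [DecidableEq V] (H : Finset (Finset V)) (X M' : Finset V)
    (p q B : ℕ) (δ : ℝ) (η : ℕ → ℝ), Amb H X p q B δ → ¬ Non H X p q η M' →
    (M' ∩ X).card ≤ p + 1 → (M' \ X).card ≤ q + 1 →
    ((M' \ X).card ≤ q → 1 - 3 * δ - η M'.card ≤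
      D H X M' (p + 2 - (M' ∩ X).card) (q - (M' \ X).card)) ∧
    ((M' ∩ X).card ≤ p → 1 - 3 * δ - η M'.card ≤
      D H X M' (p - (M' ∩ X).card) (q + 2 - (M' \ X).card))

/-- The letters of a crossing: `Y^q X^p Y | Y^(q+1) X^(p+1) | X Y^q X^p`. -/
def word (p q : ℕ) : List Bool :=
  low p q ++ (List.replicate (q + 1) false ++ List.replicate (p + 1) true) ++ high p q

/-- **E18** Letter counts in the windows of `word p q` (length `3k-2`): the windows starting before
`k-1` have `p` letters `X`, the one starting at `k-1` has `p+1`, the later ones `p+2`.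
PROOF. The first `2k-2` letters `Y^q X^p Y Y^(q+1) X^p` are `k`-periodic with `p` letters `X` in a
period; the letters from `k` on, `Y^q X^(p+1) X Y^q X^p`, are `k`-periodic with `p+2` letters `X` in
a period. Use `getD` and explicit formulas for the letters (`i < q`, `i < q+p`, ..), then count. -/
def StmtE18 : Prop :=
  ∀ p q a : ℕ, a + (p + q + 2) ≤ 3 * (p + q + 2) - 2 →
    (word p q).length = 3 * (p + q + 2) - 2 ∧
    ((Finset.range (p + q + 2)).filter fun i => (word p q).getD (a + i) false = true).card =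
      (if a < p + q + 1 then p else if a = p + q + 1 then p + 1 else p + 2)

/-- **E19** Crossing with a bi-coloured minimal non-normal set.
PROOF. `k = p+q+2`, `μ = |M|`, `M ∩ X` and `M \ X` nonempty.  Positions `Fin (3k-2)` with letters
`word p q`; fixed positions: `k-1, …, k-2+|M \ X|` carry the elements of `M \ X` (these positions have
letter `Y`, `|M \ X| ≤ q+1`), `2k-1-|M ∩ X|, …, 2k-2` carry the elements of `M ∩ X`
(`|M ∩ X| ≤ p+1`).  Box `bx X l o`.  The window starting at `k-1` contains all of `M`; by E05/E18 its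
density is `D(M; p+1-|M ∩ X|, q+1-|M \ X|) > η μ`.  A window starting at `a < k-1` does not contain
position `2k-2`, its fixed vertices form a proper subset `M'` of `M`, it has `p` letters `X`: by
E05/E18 its density is `D(M'; p-|M' ∩ X|, q+2-|M' \ X|) ≥ 1-3δ-η(μ-1)` (E17; `M'` is normal;
`|M' ∩ X| ≤ p` because the window has only `p` letters `X`; `η` is increasing).  A window starting at
`a > k-1` misses position `k-1` and has `p+2` letters `X`: the same with E17(1).  The first `k-1`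
positions have pattern `low p q`, the last `k-1` pattern `high p q`, no fixed position among them:
failing densities `≤ β` (E02).  Not injective or generic vertex in `F ∪ M`: `≤ δ` (E04, `Amb.big`).
Total failing density `≤ 2k(3δ + η(μ-1)) + 2β + δ < η μ` by `Cst` (`β ≤ δ`).  So some `f` has all
properties (E01); `List.ofFn f` is the crossing (E16). -/
def StmtE19 : Prop :=
  ∀ (V : Type) [Fintype V] [DecidableEq V] (H : Finset (Finset V)) (X M F : Finset V)
    (p q B : ℕ) (δ h β : ℝ) (η θ : ℕ → ℝ) (S T : Set (List V)), Amb H X p q B δ →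
    Cst (p + q + 2) B η θ h δ → β ≤ δ → Mst H X p q η M → (M ∩ X).Nonempty →
    (M \ X).Nonempty → F.card ≤ B → Disjoint M F → Alm X (low p q) S β →
    Alm X (high p q) T β → ∃ l, Cr H (p + q + 2) S T M F l

/-- **E20** Blow-up with two copies of every vertex (iterated Cauchy-Schwarz / Jensen).
PROOF. Induction over the coordinates: doubling one coordinate `i` replaces the density `d` of an
event by at least `d^2` (for fixed other coordinates the density of `z` with `D` is squared, the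
average of squares is at least the square of the average).  After doubling all `m` coordinates:
`≥ d^(2^m)`.  (Lean: induction on `m` for `ι = Fin m` with an additional parameter box, or on a
`Finset` of doubled coordinates.) -/
def StmtE20 : Prop :=
  ∀ (V : Type) [Fintype V] [DecidableEq V] (ι : Type) [Fintype ι] (c : ι → Finset V)
    (P : (ι → V) → Prop) (d : ℝ), (∀ i, (c i).Nonempty) → 0 ≤ d → d ≤ dens c P →
    d ^ (2 ^ Fintype.card ι) ≤
      dens (fun z : ι × Bool => c z.1) (fun g => ∀ s : ι → Bool, P fun i => g (i, s i))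

/-- **E21** Crossing with a mixed minimal non-normal set inside `X`.
PROOF. `μ = |M|`, `1 ≤ μ ≤ p+1`.  Positions and letters as in E19, but now the fixed positions are
only `2k-1-μ, …, 2k-2` (letters `X`), in any order of `M`.  The windows containing all of `M` are
those starting at `k-1, …, 2k-1-μ`.  Blow-up: the event `P` of the triples `(Q, x, y)` of `Mix`,
index type `(Fin (p+1-μ) ⊕ Fin q) ⊕ Bool` (`≤ k` coordinates, as `p+1-μ+q+2 ≤ k`), density `> θ μ`;
E20: the density of blow-ups with two copies is `≥ (θ μ)^(2^k)` (`θ μ ≤ 1`).  Place: `y` (copy 0) at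
position `k-1`, `x` (copy 0) at position `2k-1`, the copies 0 of `Q` at positions `k, …, 2k-2-μ`
(letters `Y^q X^(p+1-μ)`), the copies 1 of `Q`, in the same order, at positions `2k, …, 3k-2-μ`
(letters `Y^q X^(p+1-μ)`).  The window starting at `k-1` is `M ∪ Q⁰ ∪ y`, the window starting at
`k-1+i`, `1 ≤ i ≤ k-μ`, is `M ∪ x ∪` (copy 1 of the first `i-1` coordinates of `Q`, copy 0 of the
others): edges.  So the event all windows containing `M` are edges has density `≥ (θ μ)^(2^k)` in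
the box (E02 for the injection of the used positions).  Every other window contains a proper subset
of `M` and has `p` (start `< k-1`) or `p+2` (start `> 2k-1-μ`) letters `X`; failing density
`≤ 3δ + η(μ-1)` (E05, E17, E18).  Ends, injectivity, `F` as in E19.  Total failing
`≤ 2k(3δ + η(μ-1)) + 2β + δ < (θ μ)^(2^k)` by `Cst.eta_theta`, `Cst.dsmall`
(`100 k δ ≤ η 0 ≤ η (μ-1)`). -/
def StmtE21 : Prop :=
  ∀ (V : Type) [Fintype V] [DecidableEq V] (H : Finset (Finset V)) (X M F : Finset V)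
    (p q B : ℕ) (δ h β : ℝ) (η θ : ℕ → ℝ) (S T : Set (List V)), Amb H X p q B δ →
    Cst (p + q + 2) B η θ h δ → β ≤ δ → Mst H X p q η M → M.Nonempty → M ⊆ X →
    M.card ≤ p + 1 → θ M.card < Mix H X M (p + 1 - M.card) q → F.card ≤ B → Disjoint M F →
    Alm X (low p q) S β → Alm X (high p q) T β → ∃ l, Cr H (p + q + 2) S T M F l

/-- **E22** Reversal and exchange of colours: the case `M ⊆ Xᶜ`.
PROOF. Apply E21 to `(Xᶜ, q, p)` (E07) and the sets `S₁ = {a | a.reverse ∈ T}`,
`T₁ = {a | a.reverse ∈ S}`: the pattern `low q p` for `Xᶜ` is `X^p Y^q X` in letters of `X`, the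
reverse of `high p q = X Y^q X^p`; `high q p` for `Xᶜ` is `Y X^p Y^q`, the reverse of `low p q`.  So
`Alm Xᶜ (low q p) S₁ β` follows from `Alm X (high p q) T β` (re-index by `Fin.rev`, E02), and the
other one in the same way.  The reverse of the resulting path is the crossing (`Path` is invariant
under `List.reverse`: infixes of the reverse are reverses of infixes;
`(l.reverse).take (k-1) = (l.drop (2k-1)).reverse` because `l.length = 3k-2`). -/
def StmtE22 : Prop :=
  ∀ (V : Type) [Fintype V] [DecidableEq V] (H : Finset (Finset V)) (X M F : Finset V)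
    (p q B : ℕ) (δ h β : ℝ) (η θ : ℕ → ℝ) (S T : Set (List V)), Amb H X p q B δ →
    Cst (p + q + 2) B η θ h δ → β ≤ δ → Mst H X p q η M → M.Nonempty → M ⊆ Xᶜ →
    M.card ≤ q + 1 → θ M.card < Mix H X M p (q + 1 - M.card) → F.card ≤ B → Disjoint M F →
    Alm X (low p q) S β → Alm X (high p q) T β → ∃ l, Cr H (p + q + 2) S T M F l

/-! ## Rows: constants, choice of the partition, final theorems -/

/-- **E23** Constants.
PROOF. `h = 1/(8 k 2^k)`.  `G x = min (x/(8k4^k(B+1))) (((x h/(16k))^3)^(2^k)/(16k))`, which is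
positive and at most `x` for `0 < x ≤ 1/2`; `e 0 = 1/2`, `e (i+1) = G (e i)`, `η μ = e (k - μ)`,
`θ i = (η i h/(16k))^3`, `δ₀ = η 0 · h/(100 k 4^k (B+1))`. -/
def StmtE23 : Prop :=
  ∀ k B : ℕ, 2 ≤ k → ∃ (η θ : ℕ → ℝ) (h δ₀ : ℝ), 0 < δ₀ ∧ δ₀ ≤ 1 / 10 ∧
    ∀ δ, 0 < δ → δ ≤ δ₀ → Cst k B η θ h δ

/-- **E24** Choice of the partition: after moving few vertices there are no flipped vertices.
PROOF. `X' = {v | D H X {v} p (q+1) ≤ D H X {v} (p+1) q}`.  By E06 (`M = {v}`, `a = p`, `b = q`) the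
sum of the two densities is `≥ 1 - 3δ`, the larger one is `≥ 1/2 - 2δ`.  `v ∈ X \ X'`:
`D(v; p, q+1) ≥ 1/2 - 2δ ≥ 1/3`, and the average of `D(v; p, q+1)` over `v ∈ X` is
`D(∅; p+1, q+1) ≤ ε` (E02, E03), so `|X \ X'| ≤ 3ε |X|`; `v ∈ X' \ X`: `D(v; p+1, q) ≥ 1/3`, average
over `v ∉ X` again `D(∅; p+1, q+1)`, so `|X' \ X| ≤ 3ε |Xᶜ|`.  Together `|X Δ X'| ≤ 3ε n`.
CHANGE OF THE BOX: for two boxes with sides `c i`, `c' i`, `|c i|, |c' i| ≥ n/4` and
`|c i Δ c' i| ≤ 3εn`, the densities of the same event differ by at most `24 ε m`, `m` = number of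
coordinates (replace one coordinate at a time: for fixed other coordinates
`| |c ∩ P|/|c| - |c' ∩ P|/|c'| | ≤ 2 |c Δ c'|/min(|c|,|c'|) ≤ 24 ε`).  So with `X'` instead of `X`
every `D`, `Alm` density changes by at most `24 k ε`. -/
def StmtE24 : Prop :=
  ∀ (V : Type) [Fintype V] [DecidableEq V] (H : Finset (Finset V)) (X : Finset V)
    (p q B : ℕ) (δ ε : ℝ), Amb H X p q B δ → 0 ≤ ε → 100 * ((p + q + 2 : ℕ) : ℝ) * ε ≤ δ →
    δ ≤ 1 / 40 → D H X ∅ (p + 1) (q + 1) ≤ ε →
    ∃ X' : Finset V, NF H X' p q ∧ Amb H X' p q B (4 * δ) ∧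
      D H X' ∅ (p + 1) (q + 1) ≤ ε + δ ∧
      ∀ (w : List Bool) (S : Set (List V)) (β : ℝ), w.length ≤ p + q + 2 → Alm X w S β →
        Alm X' w S (β + δ)

/-- **E25** ONE GAP.  Every set `F` with at most `B` elements is avoided by a crossing from `S` to
`T`, or there are `k` vertices each of which lies in such crossings.
PROOF. Take `η, θ, h, δ₀` from E23, `ε = δ₀/(1000 k)`-small, apply E24 (with `δ = δ₀/8`-ish), then
E15 for `X'`; a good `M` gives a crossing by E19 / E21 / E22 (`Alm X'` from `Alm X`). -/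
def StmtE25 : Prop :=
  ∀ p q B : ℕ, ∃ ε : ℝ, 0 < ε ∧ ∃ n₀ : ℕ, ∀ (V : Type) [Fintype V] [DecidableEq V]
    (H : Finset (Finset V)) (X : Finset V), n₀ ≤ Fintype.card V → Uni H (p + q + 2) →
    Dirac H (p + q + 2) → |(X.card : ℝ) - (Fintype.card V : ℝ) / 2| ≤ ε * Fintype.card V →
    D H X ∅ (p + 1) (q + 1) ≤ ε → ∀ S T : Set (List V), Alm X (low p q) S ε →
    Alm X (high p q) T ε →
    (∃ Z : Finset V, Z.card = p + q + 2 ∧ ∀ z ∈ Z, ∀ F : Finset V, F.card ≤ B → z ∉ F →
        ∃ l, Cr H (p + q + 2) S T {z} F l) ∨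
      ∀ F : Finset V, F.card ≤ B → ∃ l, Cr H (p + q + 2) S T ∅ F l

/-- **E26** ALL GAPS.  `J` = set of gaps `j`, `1 ≤ j ≤ k-1`, `2|J| ≤ k`; `S j`, `T j` = classes below
and above the gap.  There are pairwise disjoint crossings `up j : S j → T j` and
`dn j : T j → S j`.
PROOF. E25 with `p = j-1`, `q = k-1-j`, `B = 3k^2`, for `(S j, T j)` and for
`({a | a.reverse ∈ S j}, {a | a.reverse ∈ T j})` (the reversed paths go from `T j` to `S j`).  Call
`(j, up)`, `(j, down)` a task; at most `k` tasks.  For the tasks in the first alternative of E25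
choose distinct vertices `z_t` greedily (`k` candidates each).  Then construct the crossings one after
the other: task `t` avoids all vertices of the crossings constructed before and all `z_s`, `s ≠ t`
(at most `(k-1)(3k-2) + k ≤ B` vertices; `z_t` is not among them, as the earlier crossings avoid
it). -/
def StmtE26 : Prop :=
  ∀ k : ℕ, 3 ≤ k → ∃ ε : ℝ, 0 < ε ∧ ∃ n₀ : ℕ, ∀ (V : Type) [Fintype V] [DecidableEq V]
    (H : Finset (Finset V)) (X : Finset V) (J : Finset ℕ) (S T : ℕ → Set (List V)),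
    n₀ ≤ Fintype.card V → Uni H k → Dirac H k →
    |(X.card : ℝ) - (Fintype.card V : ℝ) / 2| ≤ ε * Fintype.card V → 2 * J.card ≤ k →
    (∀ j ∈ J, 1 ≤ j ∧ j + 1 ≤ k ∧ D H X ∅ j (k - j) ≤ ε ∧
      Alm X (low (j - 1) (k - 1 - j)) (S j) ε ∧ Alm X (high (j - 1) (k - 1 - j)) (T j) ε ∧
      Alm X (low (j - 1) (k - 1 - j)).reverse (S j) ε ∧
      Alm X (high (j - 1) (k - 1 - j)).reverse (T j) ε) →
    ∃ up dn : ℕ → List V,
      (∀ j ∈ J, Cr H k (S j) (T j) ∅ ∅ (up j) ∧ Cr H k (T j) (S j) ∅ ∅ (dn j)) ∧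
      (∀ i ∈ J, ∀ j ∈ J, List.Disjoint (up i) (dn j)) ∧
      (∀ i ∈ J, ∀ j ∈ J, i ≠ j → List.Disjoint (up i) (up j) ∧ List.Disjoint (dn i) (dn j))

end Pool.Agent.KK.E
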