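import Pool.Agent.KK.StmtsD
import Pool.Agent.KK.StmtsE

/-!
# Block E, bridge to the case tree (replaces E26)
-/

set_option autoImplicit false

namespace Pool.Agent.KK.E

/-- **E_CRS** `CrsStmt` (StmtsD) from `StmtE25`.
PROOF.  `k = d + 2`, `C₀ = 3 k - 2`.  For every `j` with `1 ≤ j ≤ d + 1` put `p = j - 1`,
`q = d + 1 - j` (`p + q + 2 = d + 2`) and take `ε_j`, `n_j` from E25 for `(p, q, B = C)`; `γ` =
minimum over `j` of `ε_j / 3 ^ k` (and `≤ 1/6`), `n₀` = maximum of the `n_j` and `1`.  `|X|`, `|Xᶜ| ≥ n/3` as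
`γ ≤ 1/6`.
(1) `D H X ∅ (p+1) (q+1) ≤ ε`: re-index `Fin (p+1) ⊕ Fin (q+1) ≃ Fin k`; the counted functions are
labelled edges with exactly `j` entries in `X`, at most `td H k X j ≤ γ n ^ k` of them; the box has
`|X| ^ (p+1) |Xᶜ| ^ (q+1) ≥ (n/3) ^ k` elements.
(2) `Alm X (low p q) S ε`: if `a : Fin (k-1) → V` has the letters `low p q = Y^q X^p Y` then
`(a, j + 1) ∈ can X d (j - 1)`: the time of position `i` is `j + 1 + i = p + 2 + i` modulo
`k = p + q + 2`; for `i < q` it is in `[p+2, k-1]` (letter Y), for `q ≤ i < q + p` it is `i - q < p`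
(letter X), for `i = q + p` it is `p` (letter Y).  So the number of such `a` with `ofFn a ∉ S` is at
most `γ n ^ (d+1)`, the box has at least `(n/3) ^ (d+1)` elements.
(3) `Alm X (high p q) T ε`: letters `X Y^q X^p`, `(a, j) ∈ can X d (j + 1)`: time of position `i` is
`p + 1 + i`: `i = 0`: `p + 1 < j + 1` (X); `1 ≤ i ≤ q`: in `[p+2, k-1]` (Y); `i > q`: `i - q - 1 < p`
(X).
(4) E25 gives `Cross` literally: a path `l` with `Cr H k S T M F l` is a `Seg H k S T` of length
`3k-2 = C₀` avoiding `F` (`l.drop (l.length - (k-1)) = l.drop (2k-1)`). -/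
def StmtECRS : Prop := StmtE25 → Pool.Agent.KK.CrsStmt

end Pool.Agent.KK.E
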